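import Pool.Agent.Lib.MP_8f79a4_an.Cubes

/-!
The case `β = d`, `q < 2`.
-/

set_option autoImplicit false

open MeasureTheory Set Filter
open scoped ENNReal Topology

namespace Pool.Agent.Lib.MP_8f79a4_an

variable {d : ℕ}

/-- The side length at level `k`. -/
noncomputable def side (d N k : ℕ) : ℝ := (N : ℝ) ^ (-(1 / (d : ℝ))) / 2 ^ k

lemma side_pos {N : ℕ} (hN : 1 ≤ N) (k : ℕ) : 0 < side d N k := by
  unfold side
  have : (0 : ℝ) < N := by exact_mod_cast hN
  positivity

lemma side_le_one {N : ℕ} (hN : 1 ≤ N) (k : ℕ) : side d N k ≤ 1 := by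
  unfold side
  have h1 : (1 : ℝ) ≤ N := by exact_mod_cast hN
  have h2 : (N : ℝ) ^ (-(1 / (d : ℝ))) ≤ 1 := by
    apply Real.rpow_le_one_of_one_le_of_nonpos h1
    rw [neg_nonpos]
    positivity
  rw [div_le_one (by positivity)]
  exact h2.trans (one_le_pow₀ (by norm_num))

lemma side_pow (hd : 1 ≤ d) {N : ℕ} (hN : 1 ≤ N) (k : ℕ) :
    side d N k ^ d = (N : ℝ)⁻¹ / 2 ^ (k * d) := by
  have hN0 : (0 : ℝ) < N := by exact_mod_cast hN
  have hd0 : (0 : ℝ) < d := by exact_mod_cast hd
  unfold side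
  rw [div_pow, ← pow_mul, ← Real.rpow_natCast, ← Real.rpow_mul hN0.le]
  congr 1
  have : -(1 / (d : ℝ)) * d = -1 := by field_simp
  rw [this, Real.rpow_neg_one]

/-- The index set of the cubes. -/
abbrev Idx (d N : ℕ) : Type := Σ k : Fin N, Fin (2 ^ ((k : ℕ) * d))

/-- Numbering of the cubes. -/
noncomputable def num {N : ℕ} (i : Idx d N) : ℕ := (Fintype.equivFin (Idx d N) i : ℕ)

lemma num_injective {N : ℕ} : Function.Injective (num : Idx d N → ℕ) := by
  intro i j hij
  unfold num at hij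
  exact (Fintype.equivFin (Idx d N)).injective (Fin.ext hij)

/-- The cubes. -/
noncomputable def Q {N : ℕ} (i : Idx d N) : Set (EuclideanSpace ℝ (Fin d)) :=
  cube d (num i) (side d N i.1)

/-- The Fourier transforms of the cubes. -/
noncomputable def qh {N : ℕ} (i : Idx d N) (ξ : EuclideanSpace ℝ (Fin d)) : ℂ :=
  qf (num i) (side d N i.1) ξ

lemma measurableSet_Q {N : ℕ} (i : Idx d N) : MeasurableSet (Q i) := measurableSet_cube _ _

lemma volume_Q {N : ℕ} (hN : 1 ≤ N) (i : Idx d N) :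
    volume (Q i) = ENNReal.ofReal (side d N i.1 ^ d) := volume_cube' _ (side_pos hN _).le

lemma Q_disjoint (hd : 1 ≤ d) {N : ℕ} (hN : 1 ≤ N) {i j : Idx d N} (hij : i ≠ j) :
    Disjoint (Q i) (Q j) :=
  cube_disjoint hd (fun h => hij (num_injective h)) (side_le_one hN _) (side_le_one hN _)

/-- The linear map sending coefficients to Fourier transforms. -/
noncomputable def Tξ {N : ℕ} (ξ : EuclideanSpace ℝ (Fin d)) : (Idx d N → ℝ) →+ ℂ where
  toFun c := ∑ i, (c i : ℂ) * qh i ξ
  map_zero' := by simp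
  map_add' c c' := by
    rw [← Finset.sum_add_distrib]
    refine Finset.sum_congr rfl fun i _ => ?_
    rw [Pi.add_apply, Complex.ofReal_add]; ring

lemma Tξ_single {N : ℕ} (ξ : EuclideanSpace ℝ (Fin d)) (i : Idx d N) (a : ℝ) :
    Tξ ξ (Pi.single i a) = a * qh i ξ := by
  change ∑ j, ((Pi.single i a : Idx d N → ℝ) j : ℂ) * qh j ξ = _
  rw [Finset.sum_eq_single i]
  · rw [Pi.single_eq_same]
  · intro j _ hj
    rw [Pi.single_eq_of_ne hj]; simp
  · simp

/-- The radius of the frequency ball. -/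
noncomputable def rad (d N k : ℕ) : ℝ := 1 / (16 * √d * side d N k)

/-- The variance at level `k`. -/
noncomputable def vk (d N k : ℕ) : ℝ := side d N k ^ d / (16 * N)

lemma vk_pos {N : ℕ} (hN : 1 ≤ N) (k : ℕ) : 0 < vk d N k := by
  unfold vk
  have := side_pos (d := d) hN k
  have hN0 : (0 : ℝ) < N := by exact_mod_cast hN
  positivity

lemma rad_pos (hd : 1 ≤ d) {N : ℕ} (hN : 1 ≤ N) (k : ℕ) : 0 < rad d N k := by
  unfold rad
  have := side_pos (d := d) hN k
  have hd0 : (0 : ℝ) < d := by exact_mod_cast hd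
  positivity

lemma variance_ge (hd : 1 ≤ d) {N : ℕ} (hN : 1 ≤ N) (k : Fin N) (ξ : EuclideanSpace ℝ (Fin d))
    (hξ : ‖ξ‖ ≤ rad d N k) :
    vk d N k ≤ V (((Finset.univ : Finset (Idx d N)).toList.map
      fun i => (Pi.single i (1 / 2 : ℝ) : Idx d N → ℝ)).map (Tξ ξ)) := by
  have hN0 : (0 : ℝ) < N := by exact_mod_cast hN
  have hd0 : (0 : ℝ) < d := by exact_mod_cast hd
  have hs := side_pos (d := d) hN k
  unfold V
  rw [List.map_map, List.map_map, Finset.sum_map_toList, Fintype.sum_sigma]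
  have h1 : ∀ i : Idx d N, 0 ≤ ((fun b : ℂ => ‖b‖ ^ 2) ∘ (Tξ ξ) ∘
      fun i => (Pi.single i (1 / 2 : ℝ) : Idx d N → ℝ)) i := fun i => by
    simp only [Function.comp_apply]; positivity
  refine le_trans ?_ (Finset.single_le_sum
    (f := fun k : Fin N => ∑ m : Fin (2 ^ ((k : ℕ) * d)), ((fun b : ℂ => ‖b‖ ^ 2) ∘ (Tξ ξ) ∘
      fun i => (Pi.single i (1 / 2 : ℝ) : Idx d N → ℝ)) ⟨k, m⟩)
    (fun k _ => Finset.sum_nonneg fun m _ => h1 _) (Finset.mem_univ k))
  have h2 : ∀ m : Fin (2 ^ ((k : ℕ) * d)), (side d N k ^ d / 4) ^ 2 ≤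
      ((fun b : ℂ => ‖b‖ ^ 2) ∘ (Tξ ξ) ∘
      fun i => (Pi.single i (1 / 2 : ℝ) : Idx d N → ℝ)) ⟨k, m⟩ := by
    intro m
    simp only [Function.comp_apply]
    rw [Tξ_single, norm_mul]
    have h3 : side d N k ^ d / 2 ≤ ‖qh (⟨k, m⟩ : Idx d N) ξ‖ := by
      unfold qh
      apply norm_qf_ge _ hs
      calc ‖ξ‖ * (√d * side d N k) ≤ rad d N k * (√d * side d N k) := by gcongr
        _ = 1 / 16 := by
          unfold rad
          have : 0 < √(d : ℝ) := by positivity
          field_simp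
    have h4 : ‖((1 / 2 : ℝ) : ℂ)‖ = 1 / 2 := by
      rw [Complex.norm_real]; norm_num
    rw [h4]
    have h5 : 0 ≤ side d N k ^ d := by positivity
    gcongr
    linarith
  calc vk d N k = ∑ _m : Fin (2 ^ ((k : ℕ) * d)), (side d N k ^ d / 4) ^ 2 := by
        rw [Finset.sum_const, Finset.card_univ, Fintype.card_fin, nsmul_eq_mul]
        unfold vk
        rw [side_pow hd hN k]
        push_cast
        field_simp
        norm_num
    _ ≤ _ := Finset.sum_le_sum fun m _ => h2 m

lemma measurable_qf (n : ℕ) {h : ℝ} (hh : 0 ≤ h) :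
    Continuous (qf n h : EuclideanSpace ℝ (Fin d) → ℂ) := by
  unfold qf
  have hfin : volume (cube d n h) ≠ ∞ := by
    rw [volume_cube' n hh]; exact ENNReal.ofReal_ne_top
  apply continuous_of_dominated (bound := fun _ => 1)
  · intro ξ
    apply Continuous.aestronglyMeasurable
    exact continuous_ex.comp (by fun_prop)
  · intro ξ
    exact Filter.Eventually.of_forall fun x => (norm_ex _).le
  · exact integrableOn_const hfin
  · refine Filter.Eventually.of_forall fun x => ?_
    exact continuous_ex.comp (by fun_prop)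

lemma continuous_T {N : ℕ} (hN : 1 ≤ N) (z : Idx d N → ℝ) :
    Continuous fun ξ : EuclideanSpace ℝ (Fin d) => Tξ ξ z := by
  change Continuous fun ξ => ∑ i, (z i : ℂ) * qh i ξ
  refine continuous_finsetSum _ fun i _ => ?_
  exact continuous_const.mul (measurable_qf _ (side_pos hN _).le)

/-- The volume constant. -/
noncomputable def ωd (d : ℕ) : ℝ :=
  (volume (Metric.ball (0 : EuclideanSpace ℝ (Fin d)) 1)).toReal

lemma ωd_pos (d : ℕ) : 0 < ωd d := by
  unfold ωd
  apply ENNReal.toReal_pos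
  · exact (Metric.measure_ball_pos volume _ one_pos).ne'
  · exact measure_ball_lt_top.ne

lemma volume_closedBall_real {R : ℝ} (hR : 0 ≤ R) :
    volume.real (Metric.closedBall (0 : EuclideanSpace ℝ (Fin d)) R) = R ^ d * ωd d := by
  unfold Measure.real ωd
  rw [Measure.addHaar_closedBall volume _ hR, ENNReal.toReal_mul, ENNReal.toReal_ofReal
    (by positivity), finrank_euclideanSpace, Fintype.card_fin]

/-- Selection of the signs. -/
theorem exists_good_signs (hd : 1 ≤ d) {N : ℕ} (hN : 1 ≤ N) : ∃ z : Idx d N → ℝ,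
    (∀ i, z i = 0 ∨ z i = 1) ∧ ∃ K : Finset ℕ, K ⊆ Finset.range N ∧ (N : ℝ) ≤ 16 * K.card ∧
      ∀ k ∈ K, 1 / 32 * (rad d N k ^ d * ωd d) ≤
        volume.real {ξ | ξ ∈ Metric.closedBall (0 : EuclideanSpace ℝ (Fin d)) (rad d N k) ∧
          vk d N k / 32 ≤ ‖Tξ ξ z‖ ^ 2} := by
  classical
  have hN0 : (0 : ℝ) < N := by exact_mod_cast hN
  set B : ℕ → Set (EuclideanSpace ℝ (Fin d)) := fun k => Metric.closedBall 0 (rad d N k) with hB
  have hBr : ∀ k, volume.real (B k) = rad d N k ^ d * ωd d := fun k =>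
    volume_closedBall_real (rad_pos hd hN k).le
  have hBpos : ∀ k, 0 < volume.real (B k) := fun k => by
    rw [hBr]
    have := rad_pos hd hN k
    have := ωd_pos d
    positivity
  have hBfin : ∀ k, volume (B k) ≠ ∞ := fun k => measure_closedBall_lt_top.ne
  have hBm : ∀ k, MeasurableSet (B k) := fun k => Metric.isClosed_closedBall.measurableSet
  set av : ℕ → (Idx d N → ℝ) → ℝ := fun k z =>
    (volume.real (B k))⁻¹ * ∫ ξ in B k, trunc (vk d N k) (Tξ ξ z) with hav
  have hmeas : ∀ k (z : Idx d N → ℝ), Measurable fun ξ : EuclideanSpace ℝ (Fin d) =>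
      trunc (vk d N k) (Tξ ξ z) :=
    fun k z => (measurable_trunc _).comp (continuous_T hN z).measurable
  have hint : ∀ k (z : Idx d N → ℝ), IntegrableOn (fun ξ => trunc (vk d N k) (Tξ ξ z)) (B k) := by
    intro k z
    refine Integrable.mono' (integrableOn_const (C := (1 : ℝ)) (hBfin k))
      (hmeas k z).aestronglyMeasurable (Filter.Eventually.of_forall fun x => ?_)
    rw [Real.norm_eq_abs, abs_of_nonneg (trunc_nonneg (vk_pos hN k) _)]
    exact trunc_le_one _ _
  set l : List (Idx d N → ℝ) := (Finset.univ : Finset (Idx d N)).toList.map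
    (fun i => (Pi.single i (1 / 2 : ℝ) : Idx d N → ℝ)) with hl
  set A : Idx d N → ℝ := fun _ => 1 / 2 with hA
  have hRad : ∀ k ∈ Finset.range N, 1 / 8 ≤ Rad l (av k) A := by
    intro k hk
    have hk' := Finset.mem_range.1 hk
    have e1 : Rad l (av k) A = (volume.real (B k))⁻¹ *
        ∫ ξ in B k, Rad l (fun z => trunc (vk d N k) (Tξ ξ z)) A := by
      simp only [hav]
      rw [Rad_smul, Rad_integral l (fun z ξ => trunc (vk d N k) (Tξ ξ z)) (hint k)]
    rw [e1]
    have h2 : ∫ ξ in B k, (1 / 8 : ℝ) ≤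
        ∫ ξ in B k, Rad l (fun z => trunc (vk d N k) (Tξ ξ z)) A := by
      apply setIntegral_mono_on (integrableOn_const (hBfin k))
        (integrable_Rad l (fun z ξ => trunc (vk d N k) (Tξ ξ z)) (hint k) A) (hBm k)
      intro ξ hξ
      rw [Rad_map (Tξ ξ) l (trunc (vk d N k)) A]
      apply Rad_trunc_ge (vk_pos hN k)
      apply variance_ge hd hN ⟨k, hk'⟩ ξ
      simpa [hB] using hξ
    rw [setIntegral_const, smul_eq_mul] at h2
    calc (1 : ℝ) / 8 = (volume.real (B k))⁻¹ * (volume.real (B k) * (1 / 8)) := by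
          have := hBpos k
          field_simp
      _ ≤ _ := by
          have := hBpos k
          gcongr
  obtain ⟨z, _, hz, hΦ⟩ := exists_signs (Finset.univ : Finset (Idx d N)).toList
    (Finset.nodup_toList _) (fun z => ∑ k ∈ Finset.range N, av k z) A
  rw [Rad_sum] at hΦ
  have hsum : (N : ℝ) / 8 ≤ ∑ k ∈ Finset.range N, av k z := by
    refine le_trans ?_ hΦ
    calc (N : ℝ) / 8 = ∑ _k ∈ Finset.range N, (1 / 8 : ℝ) := by
          rw [Finset.sum_const, Finset.card_range, nsmul_eq_mul]; ring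
      _ ≤ _ := Finset.sum_le_sum hRad
  have hle1 : ∀ k ∈ Finset.range N, av k z ≤ 1 := by
    intro k _
    simp only [hav]
    rw [inv_mul_le_iff₀ (hBpos k), mul_one]
    calc ∫ ξ in B k, trunc (vk d N k) (Tξ ξ z)
        ≤ ∫ ξ in B k, (1 : ℝ) :=
          setIntegral_mono_on (hint k z) (integrableOn_const (hBfin k))
            (hBm k) fun ξ _ => trunc_le_one _ _
      _ = volume.real (B k) := by simp
  obtain ⟨K, hK1, hK2, hK3⟩ := exists_many (fun k => av k z) hle1 hsum
  refine ⟨z, ?_, K, hK1, hK2, fun k hk => ?_⟩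
  · intro i
    rcases hz i (by simp) with h | h
    · right; rw [h, hA]; norm_num
    · left; rw [h, hA]; norm_num
  · have h3 := hK3 k hk
    simp only [hav] at h3
    have h4 : 1 / 16 * volume.real (B k) ≤ ∫ ξ in B k, trunc (vk d N k) (Tξ ξ z) := by
      have := mul_le_mul_of_nonneg_left h3 (hBpos k).le
      have hp := hBpos k
      rw [← mul_assoc, mul_inv_cancel₀ hp.ne', one_mul] at this
      linarith
    have h5 := measure_large (hBm k) (hBfin k) (hmeas k z)
      (fun ξ => trunc_nonneg (vk_pos hN k) _) (fun ξ => trunc_le_one _ _) h4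
    rw [hBr] at h5
    refine h5.trans ?_
    apply measureReal_mono
    · rintro ξ ⟨hξ1, hξ2⟩
      refine ⟨hξ1, ?_⟩
      have h7 : 1 / 32 ≤ ‖Tξ ξ z‖ ^ 2 / vk d N k := hξ2.trans (min_le_left _ _)
      rw [le_div_iff₀ (vk_pos hN k)] at h7
      linarith
    · exact ne_top_of_le_ne_top (hBfin k) (measure_mono fun ξ hξ => hξ.1)

end Pool.Agent.Lib.MP_8f79a4_an
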