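import Pool.Agent.Lib.MP_8f79a4_an.CaseEq

/-!
The case `β = d`, `q < 2`: the measures.
-/

set_option autoImplicit false

open MeasureTheory Set Filter
open scoped ENNReal Topology

namespace Pool.Agent.Lib.MP_8f79a4_an

variable {d : ℕ}

/-- The measure attached to a choice of cubes. -/
noncomputable def cubeMeasure {N : ℕ} (I : Finset (Idx d N)) : Measure (EuclideanSpace ℝ (Fin d)) :=
  volume.restrict (⋃ i ∈ I, Q i)

lemma volume_union_le (hd : 1 ≤ d) {N : ℕ} (hN : 1 ≤ N) (I : Finset (Idx d N)) :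
    volume (⋃ i ∈ I, Q i) ≤ 1 := by
  have hN0 : (0 : ℝ) < N := by exact_mod_cast hN
  calc volume (⋃ i ∈ I, Q i) ≤ ∑ i ∈ I, volume (Q i) := measure_biUnion_finset_le I _
    _ ≤ ∑ i, volume (Q i) := Finset.sum_le_sum_of_subset (Finset.subset_univ I)
    _ = ∑ k : Fin N, ∑ _m : Fin (2 ^ ((k : ℕ) * d)), ENNReal.ofReal (side d N k ^ d) := by
        rw [Fintype.sum_sigma]
        refine Finset.sum_congr rfl fun k _ => Finset.sum_congr rfl fun m _ => ?_
        exact volume_Q hN _
    _ = ∑ _k : Fin N, ENNReal.ofReal ((N : ℝ)⁻¹) := by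
        refine Finset.sum_congr rfl fun k _ => ?_
        rw [Finset.sum_const, Finset.card_univ, Fintype.card_fin, nsmul_eq_mul, side_pow hd hN]
        have : ((2 ^ ((k : ℕ) * d) : ℕ) : ℝ≥0∞) = ENNReal.ofReal (2 ^ ((k : ℕ) * d)) := by
          rw [ENNReal.ofReal_pow (by norm_num)]; push_cast; simp
        rw [this, ← ENNReal.ofReal_mul (by positivity)]
        congr 1
        field_simp
    _ = 1 := by
        rw [Finset.sum_const, Finset.card_univ, Fintype.card_fin, nsmul_eq_mul,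
          ← ENNReal.ofReal_natCast, ← ENNReal.ofReal_mul (by positivity), mul_inv_cancel₀ hN0.ne']
        simp

lemma isFiniteMeasure_cubeMeasure (hd : 1 ≤ d) {N : ℕ} (hN : 1 ≤ N) (I : Finset (Idx d N)) :
    IsFiniteMeasure (cubeMeasure I) := by
  refine ⟨?_⟩
  unfold cubeMeasure
  rw [Measure.restrict_apply_univ]
  exact lt_of_le_of_lt (volume_union_le hd hN I) ENNReal.one_lt_top

lemma fourier_cubeMeasure (hd : 1 ≤ d) {N : ℕ} (hN : 1 ≤ N) (I : Finset (Idx d N))
    [IsFiniteMeasure (cubeMeasure I)] (ξ : EuclideanSpace ℝ (Fin d)) (z : Idx d N → ℝ)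
    (hz : ∀ i, z i = if i ∈ I then 1 else 0) :
    fourierTransform (cubeMeasure I).toSignedMeasure ξ = Tξ ξ z := by
  unfold fourierTransform
  rw [signedIntegral_toSignedMeasure]
  unfold cubeMeasure
  have e : (fun x : EuclideanSpace ℝ (Fin d) =>
      Complex.exp (((-2 * Real.pi * inner ℝ x ξ : ℝ) : ℂ) * Complex.I)) =
      fun x => ex (inner ℝ x ξ) := rfl
  rw [e, integral_biUnion_finset]
  · change _ = ∑ i, (z i : ℂ) * qh i ξ
    simp_rw [hz]
    have h1 : ∀ i : Idx d N, (((if i ∈ I then (1 : ℝ) else 0 : ℝ)) : ℂ) * qh i ξ =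
        if i ∈ I then qh i ξ else 0 := by
      intro i; split_ifs <;> simp
    simp_rw [h1]
    rw [Finset.sum_ite_mem, Finset.univ_inter]
    rfl
  · intro i _
    exact measurableSet_Q i
  · intro i _ j _ hij
    exact Q_disjoint hd hN hij
  · intro i _
    have := integrableOn_ex ξ (S := Q i) (by rw [volume_Q hN]; exact ENNReal.ofReal_ne_top) 0
    simpa using this

lemma riesz_ge' (hd : 1 ≤ d) {N : ℕ} (hN : 1 ≤ N) {α p : ℝ} (hα : 0 < α)
    (hp : p = 2 * d / (2 * α + d)) (k : ℕ) {F : ℂ} (ξ : EuclideanSpace ℝ (Fin d))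
    (hξ0 : ξ ≠ 0) (hξ : ‖ξ‖ ≤ rad d N k) (hF : vk d N k / 32 ≤ ‖F‖ ^ 2) :
    ((2 * Real.pi * (1 / (16 * √d))) ^ (-α) * (√(1 / (512 * N)))) *
      (N * (((1 / 2 : ℝ) ^ d) ^ k)⁻¹) ^ (-(1 / p)) ≤
      ‖(((2 * Real.pi * ‖ξ‖) ^ (-α) : ℝ) : ℂ) * F‖ := by
  have hN0 : (0 : ℝ) < N := by exact_mod_cast hN
  have hd0 : (0 : ℝ) < d := by exact_mod_cast hd
  have hpi := Real.pi_pos
  have hs := side_pos (d := d) hN k
  have hξpos : 0 < ‖ξ‖ := norm_pos_iff.2 hξ0
  rw [norm_mul, Complex.norm_real, Real.norm_eq_abs, abs_of_nonneg (by positivity)]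
  have h1 : (2 * Real.pi * rad d N k) ^ (-α) ≤ (2 * Real.pi * ‖ξ‖) ^ (-α) := by
    apply Real.rpow_le_rpow_of_nonpos (by positivity) _ (by linarith)
    gcongr
  have h2 : √(vk d N k / 32) ≤ ‖F‖ := (Real.sqrt_le_left (norm_nonneg _)).2 hF
  have hr0 := rad_pos (d := d) hd hN k
  calc _ = (2 * Real.pi * rad d N k) ^ (-α) * √(vk d N k / 32) := by
        have e1 : 2 * Real.pi * rad d N k = (2 * Real.pi * (1 / (16 * √d))) * (side d N k)⁻¹ := by
          unfold rad; field_simp
        have e2 : vk d N k / 32 = (1 / (512 * N)) * side d N k ^ d := by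
          unfold vk; field_simp; norm_num
        have e3 : √(side d N k ^ d) = side d N k ^ ((d : ℝ) / 2) := by
          rw [Real.sqrt_eq_rpow, ← Real.rpow_natCast, ← Real.rpow_mul hs.le]
          congr 1
          ring
        have e4 : ((side d N k)⁻¹) ^ (-α) = side d N k ^ α := by
          rw [Real.inv_rpow hs.le, Real.rpow_neg hs.le, inv_inv]
        have e5 : (N * (((1 / 2 : ℝ) ^ d) ^ k)⁻¹) = (side d N k ^ d)⁻¹ := by
          rw [side_pow hd hN, inv_div, ← pow_mul, one_div, inv_pow, inv_inv, mul_comm d k]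
          field_simp
        have e6 : ((side d N k ^ d)⁻¹) ^ (-(1 / p)) = side d N k ^ (α + d / 2) := by
          rw [Real.inv_rpow (by positivity), Real.rpow_neg (by positivity), inv_inv,
            ← Real.rpow_natCast (side d N k) d, ← Real.rpow_mul hs.le]
          congr 1
          rw [hp]
          field_simp
        rw [e1, Real.mul_rpow (x := 2 * Real.pi * (1 / (16 * √d))) (y := (side d N k)⁻¹)
          (by positivity) (by positivity), e2, Real.sqrt_mul (by positivity), e3, e4, e5, e6,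
          Real.rpow_add hs]
        ring
    _ ≤ _ := by gcongr

/-- The constant of the volume bound. -/
noncomputable def cvol (d : ℕ) : ℝ := (1 / (16 * √d)) ^ d * ωd d / 32

lemma cvol_pos (hd : 1 ≤ d) : 0 < cvol d := by
  unfold cvol
  have := ωd_pos d
  have hd0 : (0 : ℝ) < d := by exact_mod_cast hd
  positivity

/-- The construction for `β = d`. -/
theorem exists_measure_eq (hd : 1 ≤ d) {α p q : ℝ} (hα : 0 < α) (hq : 0 < q)
    (hp : p = 2 * d / (2 * α + d)) {N : ℕ} (hN : 1 ≤ N) :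
    ∃ ν : Measure (EuclideanSpace ℝ (Fin d)), ∃ _ : IsFiniteMeasure ν,
      massNorm ν.toSignedMeasure ≤ 1 ∧ besovNorm (d : ℝ) ν.toSignedMeasure ≤ 1 ∧
      ENNReal.ofReal (((((2 * Real.pi * (1 / (16 * √d))) ^ (-α) * √(1 / (512 * N))) *
        (cvol d * (1 / 2) ^ d) ^ (1 / p)) ^ q * (1 - (1 / 2) ^ d) / 16) * N) ≤
        ∫⁻ s in Set.Ioi (0 : ℝ), (ENNReal.ofReal (s ^ (1 / p)) *
          rearrangement (rieszFourier α ν.toSignedMeasure) s) ^ q * ENNReal.ofReal (1 / s) := by
  classical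
  have hN0 : (0 : ℝ) < N := by exact_mod_cast hN
  have hd0 : (0 : ℝ) < d := by exact_mod_cast hd
  have hp0 : 0 < p := by rw [hp]; positivity
  obtain ⟨z, hz, K, hK1, hK2, hK3⟩ := exists_good_signs hd hN
  set I : Finset (Idx d N) := Finset.univ.filter fun i => z i = 1 with hI
  have hzI : ∀ i, z i = if i ∈ I then 1 else 0 := by
    intro i
    rcases hz i with h | h
    · have : i ∉ I := by simp [hI, h]
      rw [if_neg this, h]
    · have : i ∈ I := by simp [hI, h]
      rw [if_pos this, h]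
  have := isFiniteMeasure_cubeMeasure hd hN I
  refine ⟨cubeMeasure I, inferInstance, ?_, ?_, ?_⟩
  · rw [massNorm_toSignedMeasure]
    unfold cubeMeasure
    rw [Measure.restrict_apply_univ]
    exact volume_union_le hd hN I
  · have h1 := besovNorm_le (cubeMeasure I) (β := (d : ℝ)) (C := 1) ?_
    · simpa using h1
    · intro t ht x
      rw [sub_self, zero_div, Real.rpow_zero, mul_one]
      exact heat_restrict_le _ ht x
  · have hpi := Real.pi_pos
    have hA : 0 ≤ (2 * Real.pi * (1 / (16 * √d))) ^ (-α) * √(1 / (512 * N)) := by positivity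
    have h2 := lorentz_integral_ge (d := d) hp0 hq
      (g := rieszFourier α (cubeMeasure I).toSignedMeasure)
      (θ := (1 / 2) ^ d) (L := N) (c := cvol d) (by positivity)
      (pow_lt_one₀ (by norm_num) (by norm_num) (by omega)) hN0 hA (cvol_pos hd) K ?_
    · refine le_trans ?_ h2
      apply ENNReal.ofReal_le_ofReal
      have h3 : 0 ≤ 1 - (1 / 2 : ℝ) ^ d := by
        have := pow_le_one₀ (n := d) (a := (1 / 2 : ℝ)) (by norm_num) (by norm_num)
        linarith
      have h4 : 0 ≤ (((2 * Real.pi * (1 / (16 * √d))) ^ (-α) * √(1 / (512 * N))) *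
        (cvol d * (1 / 2) ^ d) ^ (1 / p)) ^ q := by
        have := cvol_pos hd
        positivity
      have h5 := mul_le_mul_of_nonneg_left hK2 (mul_nonneg h4 h3)
      linarith
    · intro k hk
      have h3 := hK3 k hk
      have hs := side_pos (d := d) hN k
      set G : Set (EuclideanSpace ℝ (Fin d)) :=
        {ξ | ξ ∈ Metric.closedBall (0 : EuclideanSpace ℝ (Fin d)) (rad d N k) ∧
          vk d N k / 32 ≤ ‖Tξ ξ z‖ ^ 2} with hG
      have hGfin : volume G ≠ ∞ :=
        ne_top_of_le_ne_top (measure_closedBall_lt_top (x := (0 : EuclideanSpace ℝ (Fin d)))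
          (r := rad d N k)).ne (measure_mono fun ξ hξ => hξ.1)
      have : Nonempty (Fin d) := ⟨⟨0, hd⟩⟩
      have : Nontrivial (EuclideanSpace ℝ (Fin d)) := inferInstance
      calc ENNReal.ofReal (cvol d * (N * (((1 / 2) ^ d) ^ k)⁻¹))
          = ENNReal.ofReal (1 / 32 * (rad d N k ^ d * ωd d)) := by
            congr 1
            have e5 : (N * (((1 / 2 : ℝ) ^ d) ^ k)⁻¹) = (side d N k ^ d)⁻¹ := by
              rw [side_pow hd hN, inv_div, ← pow_mul, one_div, inv_pow, inv_inv, mul_comm d k]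
              field_simp
            rw [e5]
            unfold cvol rad
            rw [one_div_pow, one_div_pow, mul_pow (16 * √(d : ℝ))]
            field_simp
        _ ≤ ENNReal.ofReal (volume.real G) := ENNReal.ofReal_le_ofReal h3
        _ = volume G := ENNReal.ofReal_toReal hGfin
        _ = volume (G \ {0}) := by
            rw [measure_sdiff_null]
            exact measure_singleton _
        _ ≤ _ := by
            apply measure_mono
            rintro ξ ⟨⟨hξ1, hξ2⟩, hξ0⟩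
            have hn : ‖ξ‖ ≤ rad d N k := by simpa using hξ1
            change _ ≤ ‖rieszFourier α (cubeMeasure I).toSignedMeasure ξ‖
            unfold rieszFourier
            rw [fourier_cubeMeasure hd hN I ξ z hzI]
            exact riesz_ge' hd hN hα hp k ξ hξ0 hn hξ2

/-- The case `β = d`, `q < 2`. -/
theorem case_eq (hd : 1 ≤ d) {α p q : ℝ} (hα : 0 < α) (hq : 0 < q) (hq2 : q < 2)
    (hp : p = 2 * d / (2 * α + d)) :
    ∃ Φ : ℕ → SignedMeasure (EuclideanSpace ℝ (Fin d)),
      (∃ C : ℝ, ∀ N, massNorm (Φ N) + besovNorm (d : ℝ) (Φ N) ≤ ENNReal.ofReal C) ∧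
      Tendsto (fun N => lorentzNorm p q (rieszFourier α (Φ N))) atTop (𝓝 ∞) := by
  have hd0 : (0 : ℝ) < d := by exact_mod_cast hd
  choose ν hν1 hν2 hν3 hν4 using fun N : ℕ =>
    exists_measure_eq (α := α) (p := p) (q := q) hd hα hq hp (N := N + 1) (by omega)
  refine ⟨fun N => (ν N).toSignedMeasure, ⟨2, ?_⟩, ?_⟩
  · intro N
    calc _ ≤ (1 : ℝ≥0∞) + 1 := add_le_add (hν2 N) (hν3 N)
      _ = ENNReal.ofReal 2 := by
        rw [one_add_one_eq_two]; simp
  · apply tendsto_lorentz hq _ _ _ hν4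
    have hpi := Real.pi_pos
    have hcv := cvol_pos hd
    set c : ℝ := (((2 * Real.pi * (1 / (16 * √d))) ^ (-α) * √(1 / 512)) *
        (cvol d * (1 / 2) ^ d) ^ (1 / p)) ^ q * (1 - (1 / 2) ^ d) / 16 with hc
    have hc0 : 0 < c := by
      have h3 : 0 < 1 - (1 / 2 : ℝ) ^ d := by
        have := pow_lt_one₀ (n := d) (a := (1 / 2 : ℝ)) (by norm_num) (by norm_num) (by omega)
        linarith
      positivity
    have e : ∀ N : ℕ, ((((2 * Real.pi * (1 / (16 * √d))) ^ (-α) *
        √(1 / (512 * ((N + 1 : ℕ) : ℝ)))) *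
        (cvol d * (1 / 2) ^ d) ^ (1 / p)) ^ q * (1 - (1 / 2) ^ d) / 16) * ((N + 1 : ℕ) : ℝ) =
        c * ((N + 1 : ℕ) : ℝ) ^ (1 - q / 2) := by
      intro N
      have hN0 : (0 : ℝ) < ((N + 1 : ℕ) : ℝ) := by positivity
      set M : ℝ := ((N + 1 : ℕ) : ℝ) with hM
      have e1 : √(1 / (512 * M)) = √(1 / 512) * M ^ (-(1 / 2 : ℝ)) := by
        have : 1 / (512 * M) = (1 / 512) * M⁻¹ := by field_simp
        rw [this, Real.sqrt_mul (by norm_num)]
        congr 1
        rw [Real.sqrt_eq_rpow, Real.inv_rpow hN0.le, Real.rpow_neg hN0.le]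
      have e2 : ((2 * Real.pi * (1 / (16 * √d))) ^ (-α) * √(1 / (512 * M))) *
          (cvol d * (1 / 2) ^ d) ^ (1 / p) =
          ((2 * Real.pi * (1 / (16 * √d))) ^ (-α) * √(1 / 512) *
          (cvol d * (1 / 2) ^ d) ^ (1 / p)) * M ^ (-(1 / 2 : ℝ)) := by
        rw [e1]; ring
      rw [e2, Real.mul_rpow (by positivity) (by positivity), ← Real.rpow_mul hN0.le, hc]
      have e3 : M ^ (1 - q / 2) = M ^ (-(1 / 2) * q) * M := by
        conv_rhs => rw [← Real.rpow_one M, ← Real.rpow_mul hN0.le, ← Real.rpow_add hN0]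
        congr 1
        ring
      rw [e3]
      ring
    simp_rw [e]
    apply Tendsto.const_mul_atTop hc0
    have h1 : Tendsto (fun N : ℕ => ((N + 1 : ℕ) : ℝ)) atTop atTop :=
      tendsto_natCast_atTop_atTop.comp (tendsto_add_atTop_nat 1)
    exact (tendsto_rpow_atTop (by linarith)).comp h1

end Pool.Agent.Lib.MP_8f79a4_an
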