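import Pool.Agent.Lib.MP_8f79a4_an.Product

/-!
The case `β < d`.
-/

open MeasureTheory Set Filter
open scoped ENNReal Topology

namespace Pool.Agent.Lib.MP_8f79a4_an

variable {d : ℕ}

/-- From lower bounds of the Lorentz integral to divergence of the Lorentz norm. -/
lemma tendsto_lorentz {p q : ℝ} (hq : 0 < q) (g : ℕ → EuclideanSpace ℝ (Fin d) → ℂ) (w : ℕ → ℝ)
    (hw : Tendsto w atTop atTop)
    (h : ∀ N, ENNReal.ofReal (w N) ≤ ∫⁻ s in Set.Ioi (0 : ℝ),
        (ENNReal.ofReal (s ^ (1 / p)) * rearrangement (g N) s) ^ q * ENNReal.ofReal (1 / s)) :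
    Tendsto (fun N => lorentzNorm p q (g N)) atTop (𝓝 ∞) := by
  have h1 : ∀ N, ENNReal.ofReal (w N) ^ (1 / q) ≤ lorentzNorm p q (g N) := by
    intro N
    unfold lorentzNorm
    exact ENNReal.rpow_le_rpow (h N) (by positivity)
  have h2 : Tendsto (fun N => ENNReal.ofReal (w N) ^ (1 / q)) atTop (𝓝 ∞) := by
    have h3 : Tendsto (fun N => ENNReal.ofReal (w N)) atTop (𝓝 ∞) :=
      ENNReal.tendsto_ofReal_atTop.comp hw
    have h4 := (ENNReal.continuous_rpow_const (y := 1 / q)).tendsto ∞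
    rw [ENNReal.top_rpow_of_pos (by positivity)] at h4
    exact h4.comp h3
  exact tendsto_nhds_top_mono' h2 h1

section

variable {b r a η : ℝ}

/-- Lower bound of the Riesz-Fourier function on the good cubes. -/
lemma riesz_ge (hd : 1 ≤ d) (h : Par b r a η) {α p : ℝ} (hα : 0 < α)
    (hp : p = 2 * d / (2 * α + b * d)) (N k : ℕ) (ω : Om N) (ξ : EuclideanSpace ℝ (Fin d))
    (hξ : ∀ i, ξ i ∈ {ξ | ξ ∈ Box r k ∧ v1 r η / 2 ^ k / 32 ≤ ‖ft (mu r a η N ω) ξ‖ ^ 2}) :
    ((2 * Real.pi * (√d * (r⁻¹ / 16))) ^ (-α) * (√(v1 r η / 32)) ^ d) *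
      (1 * ((r ^ d) ^ k)⁻¹) ^ (-(1 / p)) ≤
      ‖rieszFourier α (prodMeasure (mu r a η N ω) d).toSignedMeasure ξ‖ := by
  have hr := h.r_pos
  have hη := h.η_pos
  have hb := h.b_pos
  have hpi := Real.pi_pos
  have hd0 : (0 : ℝ) < d := by exact_mod_cast hd
  have hv := v1_pos h
  have hrk : 0 < r ^ k := by positivity
  unfold rieszFourier
  rw [fourierTransform_prod, norm_mul, Complex.norm_real, norm_prod]
  -- the norm of `ξ`
  set M : ℝ := (r ^ (k + 1))⁻¹ / 16 with hM
  have hM0 : 0 < M := by positivity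
  have hξnorm : ‖ξ‖ ≤ √d * M := by
    apply le_of_sq_le_sq _ (by positivity)
    rw [EuclideanSpace.norm_sq_eq, mul_pow, Real.sq_sqrt hd0.le]
    calc ∑ i, ‖ξ i‖ ^ 2 ≤ ∑ _i : Fin d, M ^ 2 := by
          refine Finset.sum_le_sum fun i _ => ?_
          have h1 : 0 ≤ ξ i := le_trans (by positivity) (hξ i).1.1
          rw [Real.norm_eq_abs, abs_of_nonneg h1]
          gcongr
          exact (hξ i).1.2
      _ = d * M ^ 2 := by simp
  have hξ0 : 0 < ‖ξ‖ := by
    rw [norm_pos_iff]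
    intro h0
    have h1 := (hξ ⟨0, hd⟩).1.1
    rw [h0] at h1
    have h2 : (0 : ℝ) < (r ^ (k + 1))⁻¹ / 32 := by positivity
    simp at h1
    linarith
  have h1 : (2 * Real.pi * (√d * M)) ^ (-α) ≤ (2 * Real.pi * ‖ξ‖) ^ (-α) := by
    apply Real.rpow_le_rpow_of_nonpos (by positivity) _ (by linarith)
    gcongr
  have h2 : (√(v1 r η / 2 ^ k / 32)) ^ d ≤ ∏ i, ‖ft (mu r a η N ω) (ξ i)‖ := by
    calc (√(v1 r η / 2 ^ k / 32)) ^ d = ∏ _i : Fin d, √(v1 r η / 2 ^ k / 32) := by
          rw [Finset.prod_const, Finset.card_univ, Fintype.card_fin]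
      _ ≤ _ := by
        refine Finset.prod_le_prod (fun i _ => by positivity) fun i _ => ?_
        exact Real.sqrt_le_left (norm_nonneg _) |>.2 (hξ i).2
  have hnn : ‖(2 * Real.pi * ‖ξ‖) ^ (-α)‖ = (2 * Real.pi * ‖ξ‖) ^ (-α) := by
    rw [Real.norm_eq_abs, abs_of_nonneg (by positivity)]
  rw [hnn]
  calc _ = (2 * Real.pi * (√d * M)) ^ (-α) * (√(v1 r η / 2 ^ k / 32)) ^ d := by
        -- exponent bookkeeping
        have e1 : 2 * Real.pi * (√d * M) = (2 * Real.pi * (√d * (r⁻¹ / 16))) * (r ^ k)⁻¹ := by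
          rw [hM, pow_succ]; field_simp
        have e2 : v1 r η / 2 ^ k / 32 = (v1 r η / 32) * (2 ^ k)⁻¹ := by ring
        have e3 : ((2 : ℝ) ^ k)⁻¹ = (r ^ k) ^ b := by
          rw [← Real.rpow_natCast r k, ← Real.rpow_mul hr.le, mul_comm, Real.rpow_mul hr.le,
            h.r_pow, Real.rpow_natCast]
          simp
        have e4 : (√((r ^ k) ^ b)) ^ d = (r ^ k) ^ (b * d / 2) := by
          rw [Real.sqrt_eq_rpow, ← Real.rpow_mul hrk.le, ← Real.rpow_natCast,
            ← Real.rpow_mul hrk.le]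
          congr 1
          ring
        have e5 : ((r ^ k)⁻¹) ^ (-α) = (r ^ k) ^ α := by
          rw [Real.inv_rpow hrk.le, Real.rpow_neg hrk.le, inv_inv]
        have e6 : (1 * ((r ^ d) ^ k)⁻¹) ^ (-(1 / p)) = (r ^ k) ^ (α + b * d / 2) := by
          have : (r ^ d) ^ k = (r ^ k) ^ d := by rw [← pow_mul, ← pow_mul, mul_comm]
          rw [one_mul, this, Real.inv_rpow (by positivity), Real.rpow_neg (by positivity), inv_inv,
            ← Real.rpow_natCast (r ^ k) d, ← Real.rpow_mul hrk.le]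
          congr 1
          rw [hp]
          field_simp
        rw [e1, Real.mul_rpow (x := 2 * Real.pi * (√d * (r⁻¹ / 16))) (y := (r ^ k)⁻¹)
          (by positivity) (by positivity), e2, Real.sqrt_mul (by positivity),
          mul_pow, e3, e4, e5, e6, Real.rpow_add hrk]
        ring
    _ ≤ _ := by gcongr

/-- The construction for `β = b * d`. -/
theorem exists_measure (hd : 1 ≤ d) (h : Par b r a η) {α p q : ℝ} (hα : 0 < α) (hq : 0 < q)
    (hp : p = 2 * d / (2 * α + b * d)) (N : ℕ) :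
    ∃ ν : Measure (EuclideanSpace ℝ (Fin d)), ∃ _ : IsProbabilityMeasure ν,
      besovNorm (b * d) ν.toSignedMeasure ≤ ENNReal.ofReal ((8 * (4 * (a - r)⁻¹) ^ b) ^ d) ∧
      ENNReal.ofReal (((((2 * Real.pi * (√d * (r⁻¹ / 16))) ^ (-α) * (√(v1 r η / 32)) ^ d) *
        ((r⁻¹ / 1024) ^ d * r ^ d) ^ (1 / p)) ^ q * (1 - r ^ d) / 16) * N) ≤
        ∫⁻ s in Set.Ioi (0 : ℝ), (ENNReal.ofReal (s ^ (1 / p)) *
          rearrangement (rieszFourier α ν.toSignedMeasure) s) ^ q * ENNReal.ofReal (1 / s) := by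
  have hr := h.r_pos
  have hb := h.b_pos
  have hr1 : r < 1 := by have := h.r_lt; have := h.le_one; have := h.η_pos; linarith
  have hg : 0 < a - r := by have := h.r_lt; linarith
  have hd0 : (0 : ℝ) < d := by exact_mod_cast hd
  have hp0 : 0 < p := by rw [hp]; positivity
  obtain ⟨ω, K, hK1, hK2, hK3⟩ := exists_good h N
  refine ⟨prodMeasure (mu r a η N ω) d, inferInstance, ?_, ?_⟩
  · apply besovNorm_le
    intro t ht x
    rw [heat_prod _ _ ht]
    have h1 : ∀ x : ℝ, heat1 (mu r a η N ω) t x ≤ 8 * (4 * (a - r)⁻¹) ^ b * t ^ ((b - 1) / 2) := by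
      intro x
      apply heat1_le _ h.b_pos h.b_le (by positivity) _ ht
      intro x R hR
      have := mu_growth h N ω x R hR
      rwa [div_eq_inv_mul] at this
    calc ∏ i, heat1 (mu r a η N ω) t (x i)
        ≤ ∏ _i : Fin d, (8 * (4 * (a - r)⁻¹) ^ b * t ^ ((b - 1) / 2)) :=
          Finset.prod_le_prod (fun i _ => heat1_nonneg _ ht _) fun i _ => h1 _
      _ = (8 * (4 * (a - r)⁻¹) ^ b) ^ d * t ^ ((b * d - d) / 2) := by
          rw [Finset.prod_const, Finset.card_univ, Fintype.card_fin, mul_pow]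
          congr 1
          rw [← Real.rpow_natCast, ← Real.rpow_mul ht.le]
          congr 1
          ring
  · have hA : 0 ≤ (2 * Real.pi * (√d * (r⁻¹ / 16))) ^ (-α) * (√(v1 r η / 32)) ^ d := by
      have := Real.pi_pos
      positivity
    have h2 := lorentz_integral_ge (d := d) hp0 hq
      (g := rieszFourier α (prodMeasure (mu r a η N ω) d).toSignedMeasure)
      (θ := r ^ d) (L := 1) (c := (r⁻¹ / 1024) ^ d) (by positivity)
      (pow_lt_one₀ hr.le hr1 (by omega)) one_pos hA (by positivity) K ?_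
    · refine le_trans ?_ h2
      apply ENNReal.ofReal_le_ofReal
      have h3 : 0 ≤ 1 - r ^ d := by
        have := pow_le_one₀ (n := d) hr.le hr1.le
        linarith
      have h4 : 0 ≤ (((2 * Real.pi * (√d * (r⁻¹ / 16))) ^ (-α) * (√(v1 r η / 32)) ^ d) *
        ((r⁻¹ / 1024) ^ d * r ^ d) ^ (1 / p)) ^ q := by positivity
      have h5 := mul_le_mul_of_nonneg_left hK2 (mul_nonneg h4 h3)
      linarith
    · intro k hk
      have h3 := hK3 k hk
      set G : Set ℝ := {ξ | ξ ∈ Box r k ∧ v1 r η / 2 ^ k / 32 ≤ ‖ft (mu r a η N ω) ξ‖ ^ 2} with hG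
      have hGm : MeasurableSet G := by
        have e : G = Box r k ∩ {ξ | v1 r η / 2 ^ k / 32 ≤ ‖ft (mu r a η N ω) ξ‖ ^ 2} := rfl
        rw [e]
        apply (measurableSet_Box k).inter
        apply measurableSet_le measurable_const
        exact ((continuous_ft _).norm.pow 2).measurable
      have hGfin : volume G ≠ ∞ :=
        ne_top_of_le_ne_top (volume_Box_ne_top (r := r) k) (measure_mono fun ξ hξ => hξ.1)
      calc ENNReal.ofReal ((r⁻¹ / 1024) ^ d * (1 * ((r ^ d) ^ k)⁻¹))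
          = ENNReal.ofReal ((r ^ (k + 1))⁻¹ / 1024) ^ d := by
            rw [← ENNReal.ofReal_pow (by positivity)]
            congr 1
            rw [div_pow, div_pow, pow_succ, one_mul]
            have : (r ^ d) ^ k = (r ^ k) ^ d := by rw [← pow_mul, ← pow_mul, mul_comm]
            rw [this, mul_inv, mul_pow, inv_pow, inv_pow]
            ring
        _ ≤ volume G ^ d := by
            gcongr
            rw [← ENNReal.ofReal_toReal hGfin]
            exact ENNReal.ofReal_le_ofReal h3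
        _ = volume {x : EuclideanSpace ℝ (Fin d) | ∀ i, x i ∈ G} := (volume_cube G hGm).symm
        _ ≤ _ := by
            apply measure_mono
            intro ξ hξ
            exact riesz_ge hd h hα hp N k ω ξ hξ

end

/-- Existence of parameters. -/
lemma exists_par {b : ℝ} (hb : 0 < b) (hb1 : b < 1) : ∃ r a η : ℝ, Par b r a η := by
  set r : ℝ := (1 / 2 : ℝ) ^ (1 / b) with hr
  have hr0 : 0 < r := by positivity
  have hr2 : r < 1 / 2 := by
    have h1 : (1 / 2 : ℝ) ^ (1 / b) < (1 / 2 : ℝ) ^ (1 : ℝ) := by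
      apply Real.rpow_lt_rpow_of_exponent_gt (by norm_num) (by norm_num)
      rw [lt_div_iff₀ hb]
      linarith
    rwa [Real.rpow_one] at h1
  refine ⟨r, 1 - r - min r ((1 - 2 * r) / 2), min r ((1 - 2 * r) / 2), ?_⟩
  have h1 : min r ((1 - 2 * r) / 2) ≤ (1 - 2 * r) / 2 := min_le_right _ _
  refine ⟨hb, hb1.le, hr0, lt_min hr0 (by linarith), min_le_left _ _, ?_, ?_, ?_⟩
  · linarith
  · linarith
  · rw [hr, ← Real.rpow_mul (by norm_num), one_div_mul_cancel hb.ne', Real.rpow_one]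

/-- The case `β < d`. -/
theorem case_lt (hd : 1 ≤ d) {β α p q : ℝ} (hβ : 0 < β) (hβd : β < d) (hα : 0 < α) (hq : 0 < q)
    (hp : p = 2 * d / (2 * α + β)) :
    ∃ Φ : ℕ → SignedMeasure (EuclideanSpace ℝ (Fin d)),
      (∃ C : ℝ, ∀ N, massNorm (Φ N) + besovNorm β (Φ N) ≤ ENNReal.ofReal C) ∧
      Tendsto (fun N => lorentzNorm p q (rieszFourier α (Φ N))) atTop (𝓝 ∞) := by
  have hd0 : (0 : ℝ) < d := by exact_mod_cast hd
  obtain ⟨r, a, η, h⟩ := exists_par (b := β / d) (by positivity) (by rwa [div_lt_one hd0])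
  have hβ' : β / d * d = β := by field_simp
  have hr := h.r_pos
  have hr1 : r < 1 := by have := h.r_lt; have := h.le_one; have := h.η_pos; linarith
  have hv := v1_pos h
  choose ν hν1 hν2 hν3 using fun N => exists_measure (α := α) (p := p) (q := q) hd h hα hq
    (by rw [hβ']; exact hp) N
  refine ⟨fun N => (ν N).toSignedMeasure, ⟨1 + (8 * (4 * (a - r)⁻¹) ^ (β / d)) ^ d, ?_⟩, ?_⟩
  · intro N
    have h1 := hν2 N
    rw [hβ'] at h1
    have hg : 0 < a - r := by have := h.r_lt; linarith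
    rw [massNorm_toSignedMeasure, measure_univ, ENNReal.ofReal_add (by norm_num) (by positivity),
      ENNReal.ofReal_one]
    gcongr
  · apply tendsto_lorentz hq _ _ _ hν3
    apply Tendsto.const_mul_atTop _ tendsto_natCast_atTop_atTop
    have hpi := Real.pi_pos
    have h3 : 0 < 1 - r ^ d := by
      have := pow_lt_one₀ (n := d) hr.le hr1 (by omega)
      linarith
    positivity

end Pool.Agent.Lib.MP_8f79a4_an
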