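import Pool.Agent.Lib.MP_8f79a4_an.CaseLt

/-!
Preparation for the case `β = d`: cubes, signs, heat kernel mass.
-/

open MeasureTheory Set Filter
open scoped ENNReal Topology

namespace Pool.Agent.Lib.MP_8f79a4_an

section Heat

variable {d : ℕ}

lemma integral_heatKernel_zero {t : ℝ} (ht : 0 < t) :
    ∫ y : EuclideanSpace ℝ (Fin d), heatKernel d t y = 1 := by
  have hpi := Real.pi_pos
  unfold heatKernel
  rw [integral_const_mul]
  have h := GaussianFourier.integral_rexp_neg_mul_sq_norm (V := EuclideanSpace ℝ (Fin d))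
    (b := 1 / (4 * t)) (by positivity)
  have e1 : ∀ v : EuclideanSpace ℝ (Fin d), Real.exp (-‖v‖ ^ 2 / (4 * t)) =
      Real.exp (-(1 / (4 * t)) * ‖v‖ ^ 2) := by
    intro v; congr 1; ring
  simp_rw [e1]
  rw [h, finrank_euclideanSpace, Fintype.card_fin]
  have e2 : Real.pi / (1 / (4 * t)) = 4 * Real.pi * t := by field_simp
  rw [e2, ← Real.rpow_add (by positivity)]
  have : -(d : ℝ) / 2 + d / 2 = 0 := by ring
  rw [this, Real.rpow_zero]

lemma integral_heatKernel {t : ℝ} (ht : 0 < t) (x : EuclideanSpace ℝ (Fin d)) :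
    ∫ y : EuclideanSpace ℝ (Fin d), heatKernel d t (x - y) = 1 := by
  rw [integral_sub_left_eq_self (heatKernel d t) volume x]
  exact integral_heatKernel_zero ht

lemma integrable_heatKernel {t : ℝ} (ht : 0 < t) (x : EuclideanSpace ℝ (Fin d)) :
    Integrable (fun y : EuclideanSpace ℝ (Fin d) => heatKernel d t (x - y)) := by
  by_contra hcon
  have h1 := integral_heatKernel ht x
  rw [integral_undef hcon] at h1
  exact zero_ne_one h1

lemma heatKernel_nonneg {t : ℝ} (ht : 0 < t) (x : EuclideanSpace ℝ (Fin d)) :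
    0 ≤ heatKernel d t x := by
  unfold heatKernel
  have := Real.pi_pos
  positivity

lemma heat_restrict_le (S : Set (EuclideanSpace ℝ (Fin d))) {t : ℝ} (ht : 0 < t)
    (x : EuclideanSpace ℝ (Fin d)) :
    ∫ y in S, heatKernel d t (x - y) ≤ 1 := by
  rw [← integral_heatKernel ht x]
  exact setIntegral_le_integral (integrable_heatKernel ht x)
    (Eventually.of_forall fun y => heatKernel_nonneg ht _)

end Heat

section Signs

variable {ι : Type*} [DecidableEq ι]

lemma exists_signs (l : List ι) (hl : l.Nodup) (Φ : (ι → ℝ) → ℝ) (A : ι → ℝ) :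
    ∃ z : ι → ℝ, (∀ i ∉ l, z i = A i) ∧ (∀ i ∈ l, z i = A i + 1 / 2 ∨ z i = A i - 1 / 2) ∧
      Rad (l.map fun i => (Pi.single i (1 / 2 : ℝ) : ι → ℝ)) Φ A ≤ Φ z := by
  induction l generalizing A with
  | nil => exact ⟨A, fun i _ => rfl, fun i hi => by simp at hi, le_rfl⟩
  | cons j l ih =>
    rw [List.nodup_cons] at hl
    obtain ⟨hj, hl⟩ := hl
    obtain ⟨z1, h1, h1', h1''⟩ := ih hl (A + Pi.single j (1 / 2 : ℝ))
    obtain ⟨z2, h2, h2', h2''⟩ := ih hl (A - Pi.single j (1 / 2 : ℝ))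
    rw [List.map_cons, Rad_cons]
    have hne : ∀ i ∈ l, i ≠ j := fun i hi h => hj (h ▸ hi)
    rcases le_total (Rad (l.map fun i => (Pi.single i (1 / 2 : ℝ) : ι → ℝ)) Φ
        (A + Pi.single j (1 / 2 : ℝ)))
      (Rad (l.map fun i => (Pi.single i (1 / 2 : ℝ) : ι → ℝ)) Φ
        (A - Pi.single j (1 / 2 : ℝ))) with h | h
    · refine ⟨z2, ?_, ?_, by linarith⟩
      · intro i hi
        rw [List.mem_cons, not_or] at hi
        rw [h2 i hi.2, Pi.sub_apply, Pi.single_eq_of_ne hi.1, sub_zero]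
      · intro i hi
        rcases List.mem_cons.1 hi with rfl | hi
        · right
          rw [h2 i hj, Pi.sub_apply, Pi.single_eq_same]
        · have := h2' i hi
          rw [Pi.sub_apply, Pi.single_eq_of_ne (hne i hi), sub_zero] at this
          exact this
    · refine ⟨z1, ?_, ?_, by linarith⟩
      · intro i hi
        rw [List.mem_cons, not_or] at hi
        rw [h1 i hi.2, Pi.add_apply, Pi.single_eq_of_ne hi.1, add_zero]
      · intro i hi
        rcases List.mem_cons.1 hi with rfl | hi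
        · left
          rw [h1 i hj, Pi.add_apply, Pi.single_eq_same]
        · have := h1' i hi
          rw [Pi.add_apply, Pi.single_eq_of_ne (hne i hi), add_zero] at this
          exact this

lemma integrable_Rad {X : Type*} [MeasurableSpace X] {μ : Measure X} {W : Type*} [AddCommGroup W]
    (l : List W) (Φ : W → X → ℝ) (hΦ : ∀ z, Integrable (Φ z) μ) (A : W) :
    Integrable (fun x => Rad l (fun z => Φ z x) A) μ := by
  induction l generalizing A with
  | nil => exact hΦ A
  | cons b l ih =>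
    simp only [Rad_cons]
    exact ((ih (A + b)).add (ih (A - b))).div_const 2

lemma Rad_integral {X : Type*} [MeasurableSpace X] {μ : Measure X} {W : Type*} [AddCommGroup W]
    (l : List W) (Φ : W → X → ℝ) (hΦ : ∀ z, Integrable (Φ z) μ) (A : W) :
    Rad l (fun z => ∫ x, Φ z x ∂μ) A = ∫ x, Rad l (fun z => Φ z x) A ∂μ := by
  induction l generalizing A with
  | nil => rfl
  | cons b l ih =>
    simp only [Rad_cons]
    rw [ih, ih, integral_div, integral_add (integrable_Rad l Φ hΦ _) (integrable_Rad l Φ hΦ _)]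

end Signs

section Cube

variable {d : ℕ}

/-- The cube `[n, n + h)^d`. -/
def cube (d n : ℕ) (h : ℝ) : Set (EuclideanSpace ℝ (Fin d)) := {x | ∀ i, x i ∈ Ico (n : ℝ) (n + h)}

lemma measurableSet_cube (n : ℕ) (h : ℝ) : MeasurableSet (cube d n h) := by
  have : cube d n h = ⋂ i, {x | x i ∈ Ico (n : ℝ) (n + h)} := by
    ext x; simp [cube]
  rw [this]
  apply MeasurableSet.iInter
  intro i
  have : Measurable fun x : EuclideanSpace ℝ (Fin d) => x i := by fun_prop
  exact this measurableSet_Ico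

lemma volume_cube' (n : ℕ) {h : ℝ} (hh : 0 ≤ h) :
    volume (cube d n h) = ENNReal.ofReal (h ^ d) := by
  unfold cube
  rw [volume_cube _ measurableSet_Ico, Real.volume_Ico, ENNReal.ofReal_pow hh]
  congr 2
  ring

lemma volume_real_cube (n : ℕ) {h : ℝ} (hh : 0 ≤ h) : volume.real (cube d n h) = h ^ d := by
  unfold Measure.real
  rw [volume_cube' n hh, ENNReal.toReal_ofReal (by positivity)]

/-- The Fourier transform of the indicator function of a cube. -/
noncomputable def qf (n : ℕ) (h : ℝ) (ξ : EuclideanSpace ℝ (Fin d)) : ℂ :=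
  ∫ x in cube d n h, ex (inner ℝ x ξ)

lemma integrableOn_ex (ξ : EuclideanSpace ℝ (Fin d)) {S : Set (EuclideanSpace ℝ (Fin d))}
    (hS : volume S ≠ ∞) (c : EuclideanSpace ℝ (Fin d)) :
    IntegrableOn (fun x => ex (inner ℝ (x - c) ξ)) S := by
  refine Integrable.mono' (integrableOn_const (C := (1 : ℝ)) hS) ?_
    (Eventually.of_forall fun x => (norm_ex _).le)
  apply Continuous.aestronglyMeasurable
  exact continuous_ex.comp (by fun_prop)

lemma norm_qf_ge (n : ℕ) {h : ℝ} (hh : 0 < h) (ξ : EuclideanSpace ℝ (Fin d))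
    (hξ : ‖ξ‖ * (√d * h) ≤ 1 / 16) : h ^ d / 2 ≤ ‖qf n h ξ‖ := by
  set c : EuclideanSpace ℝ (Fin d) := WithLp.toLp 2 fun _ => (n : ℝ) with hc
  have hfin : volume (cube d n h) ≠ ∞ := by
    rw [volume_cube' n hh.le]; exact ENNReal.ofReal_ne_top
  have e1 : qf n h ξ = ex (inner ℝ c ξ) * ∫ x in cube d n h, ex (inner ℝ (x - c) ξ) := by
    unfold qf
    rw [← integral_const_mul]
    congr 1
    funext x
    rw [← ex_add, ← inner_add_left]
    congr 2
    abel
  rw [e1, norm_mul, norm_ex, one_mul]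
  have e2 : ∫ x in cube d n h, (ex (inner ℝ (x - c) ξ) - 1) =
      (∫ x in cube d n h, ex (inner ℝ (x - c) ξ)) - ((h ^ d : ℝ) : ℂ) := by
    rw [integral_sub (integrableOn_ex ξ hfin c) (integrableOn_const hfin)]
    congr 1
    rw [setIntegral_const, volume_real_cube n hh.le]
    simp
  have h3 : ‖∫ x in cube d n h, (ex (inner ℝ (x - c) ξ) - 1)‖ ≤ 1 / 2 * h ^ d := by
    rw [← volume_real_cube (d := d) n hh.le]
    apply norm_setIntegral_le_of_norm_le_const (lt_top_iff_ne_top.2 hfin)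
    intro x hx
    refine (norm_ex_sub_one_le _).trans ?_
    have h4 : |inner ℝ (x - c) ξ| ≤ ‖x - c‖ * ‖ξ‖ := abs_real_inner_le_norm _ _
    have h5 : ‖x - c‖ ≤ √d * h := by
      apply le_of_sq_le_sq _ (by positivity)
      rw [EuclideanSpace.norm_sq_eq, mul_pow, Real.sq_sqrt (by positivity)]
      calc ∑ i, ‖(x - c) i‖ ^ 2 ≤ ∑ _i : Fin d, h ^ 2 := by
            refine Finset.sum_le_sum fun i _ => ?_
            obtain ⟨h6, h7⟩ := hx i
            have e : (x - c) i = x i - n := by simp [hc]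
            rw [e, Real.norm_eq_abs, abs_of_nonneg (by linarith)]
            gcongr
            linarith
        _ = d * h ^ 2 := by simp
    have h6 : |inner ℝ (x - c) ξ| ≤ 1 / 16 := by
      calc |inner ℝ (x - c) ξ| ≤ ‖x - c‖ * ‖ξ‖ := h4
        _ ≤ (√d * h) * ‖ξ‖ := by gcongr
        _ ≤ 1 / 16 := by linarith
    nlinarith [Real.pi_lt_four, Real.pi_pos, abs_nonneg (inner ℝ (x - c) ξ : ℝ)]
  rw [e2] at h3
  have h7 : ‖((h ^ d : ℝ) : ℂ)‖ = h ^ d := by
    rw [Complex.norm_real, Real.norm_eq_abs, abs_of_nonneg (by positivity)]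
  have h8 := norm_sub_norm_le ((h ^ d : ℝ) : ℂ) (((h ^ d : ℝ) : ℂ) -
    ∫ x in cube d n h, ex (inner ℝ (x - c) ξ))
  rw [sub_sub_cancel, h7, norm_sub_rev] at h8
  linarith

lemma cube_disjoint (hd : 1 ≤ d) {m n : ℕ} (hmn : m ≠ n) {h h' : ℝ} (hh : h ≤ 1) (hh' : h' ≤ 1) :
    Disjoint (cube d m h) (cube d n h') := by
  rw [Set.disjoint_left]
  intro x hx hx'
  obtain ⟨h1, h2⟩ := hx ⟨0, hd⟩
  obtain ⟨h3, h4⟩ := hx' ⟨0, hd⟩
  rcases lt_or_gt_of_ne hmn with h5 | h5
  · have : (m : ℝ) + 1 ≤ n := by exact_mod_cast h5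
    linarith
  · have : (n : ℝ) + 1 ≤ m := by exact_mod_cast h5
    linarith

end Cube

end Pool.Agent.Lib.MP_8f79a4_an
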