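import Mathlib

/-!
Definitions used in the statement.
-/

open MeasureTheory
open scoped ENNReal

namespace Pool.Agent.Lib.MP_8f79a4_an

/-- The integral of `f` against the finite signed measure `μ = μ⁺ - μ⁻` on `ℝ^d` (Jordan
decomposition): `∫ f dμ⁺ - ∫ f dμ⁻`. -/
noncomputable def signedIntegral {d : ℕ} {F : Type} [NormedAddCommGroup F] [NormedSpace ℝ F]
    (μ : SignedMeasure (EuclideanSpace ℝ (Fin d))) (f : EuclideanSpace ℝ (Fin d) → F) : F :=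
  ∫ y, f y ∂μ.toJordanDecomposition.posPart - ∫ y, f y ∂μ.toJordanDecomposition.negPart

/-- The heat kernel `p_t(x) = (4πt)^{-d/2} e^{-|x|²/(4t)}` on `ℝ^d`. -/
noncomputable def heatKernel (d : ℕ) (t : ℝ) (x : EuclideanSpace ℝ (Fin d)) : ℝ :=
  (4 * Real.pi * t) ^ (-(d : ℝ) / 2) * Real.exp (-‖x‖ ^ 2 / (4 * t))

/-- The convolution `p_t * μ`. -/
noncomputable def heatConv {d : ℕ} (t : ℝ) (μ : SignedMeasure (EuclideanSpace ℝ (Fin d)))
    (x : EuclideanSpace ℝ (Fin d)) : ℝ :=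
  signedIntegral μ fun y => heatKernel d t (x - y)

/-- The total variation norm `|μ|(ℝ^d)`. -/
noncomputable def massNorm {d : ℕ} (μ : SignedMeasure (EuclideanSpace ℝ (Fin d))) : ℝ≥0∞ :=
  μ.totalVariation Set.univ

/-- The homogeneous Besov norm `sup_{t>0} t^{(d-β)/2} ‖p_t * μ‖_{L^∞}`. -/
noncomputable def besovNorm {d : ℕ} (β : ℝ) (μ : SignedMeasure (EuclideanSpace ℝ (Fin d))) :
    ℝ≥0∞ :=
  ⨆ (t : ℝ) (_ : 0 < t), ENNReal.ofReal (t ^ (((d : ℝ) - β) / 2)) *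
    eLpNorm (heatConv t μ) ∞ volume

/-- The Fourier transform `∫ e^{-2πi x·ξ} dμ(x)`. -/
noncomputable def fourierTransform {d : ℕ} (μ : SignedMeasure (EuclideanSpace ℝ (Fin d)))
    (ξ : EuclideanSpace ℝ (Fin d)) : ℂ :=
  signedIntegral μ fun x => Complex.exp (((-2 * Real.pi * inner ℝ x ξ : ℝ) : ℂ) * Complex.I)

/-- The Fourier transform of the Riesz potential `I_α μ`: the function
`(2π|ξ|)^{-α} μ^(ξ)`. -/
noncomputable def rieszFourier {d : ℕ} (α : ℝ) (μ : SignedMeasure (EuclideanSpace ℝ (Fin d)))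
    (ξ : EuclideanSpace ℝ (Fin d)) : ℂ :=
  (((2 * Real.pi * ‖ξ‖) ^ (-α) : ℝ) : ℂ) * fourierTransform μ ξ

/-- The decreasing rearrangement `g*(s) = inf {t ≥ 0 : |{|g| > t}| ≤ s}`. -/
noncomputable def rearrangement {d : ℕ} (g : EuclideanSpace ℝ (Fin d) → ℂ) (s : ℝ) : ℝ≥0∞ :=
  sInf {t : ℝ≥0∞ | volume {x | t < ‖g x‖ₑ} ≤ ENNReal.ofReal s}

/-- The Lorentz quasi-norm `(∫_0^∞ (s^{1/p} g*(s))^q ds/s)^{1/q}`, `0 < p, q < ∞`. -/
noncomputable def lorentzNorm {d : ℕ} (p q : ℝ) (g : EuclideanSpace ℝ (Fin d) → ℂ) : ℝ≥0∞ :=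
  (∫⁻ s in Set.Ioi (0 : ℝ),
    (ENNReal.ofReal (s ^ (1 / p)) * rearrangement g s) ^ q * ENNReal.ofReal (1 / s)) ^ (1 / q)

end Pool.Agent.Lib.MP_8f79a4_an
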