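import Pool.Agent.Lib.MP_8f79a4_an.Cubes

/-!
The energy bound for signed measures with bounded heat extension.
-/

set_option autoImplicit false

open MeasureTheory Set Filter
open scoped ENNReal Topology ComplexConjugate

namespace Pool.Agent.Lib.MP_8f79a4_an

variable {d : ℕ}

/-- The Gaussian weight. -/
noncomputable def gw (t : ℝ) (ξ : EuclideanSpace ℝ (Fin d)) : ℝ :=
  Real.exp (-(4 * Real.pi ^ 2 * t) * ‖ξ‖ ^ 2)

lemma gw_nonneg (t : ℝ) (ξ : EuclideanSpace ℝ (Fin d)) : 0 ≤ gw t ξ := (Real.exp_pos _).le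

lemma continuous_gw (t : ℝ) : Continuous (gw t : EuclideanSpace ℝ (Fin d) → ℝ) := by
  unfold gw; fun_prop

lemma gauss_ft {t : ℝ} (ht : 0 < t) (z : EuclideanSpace ℝ (Fin d)) :
    ∫ ξ, ex (inner ℝ z ξ) * (gw t ξ : ℂ) = (heatKernel d t z : ℂ) := by
  have hpi := Real.pi_pos
  have h := GaussianFourier.integral_cexp_neg_mul_sq_norm_add (V := EuclideanSpace ℝ (Fin d))
    (b := ((4 * Real.pi ^ 2 * t : ℝ) : ℂ)) (by rw [Complex.ofReal_re]; positivity)
    (-2 * Real.pi * Complex.I) z
  have e1 : ∀ ξ : EuclideanSpace ℝ (Fin d), ex (inner ℝ z ξ) * (gw t ξ : ℂ) =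
      Complex.exp (-((4 * Real.pi ^ 2 * t : ℝ) : ℂ) * ‖ξ‖ ^ 2 +
        (-2 * Real.pi * Complex.I) * (inner ℝ z ξ : ℝ)) := by
    intro ξ
    unfold ex gw
    rw [Complex.ofReal_exp, ← Complex.exp_add]
    congr 1
    push_cast
    ring
  simp_rw [e1]
  rw [h, finrank_euclideanSpace, Fintype.card_fin]
  unfold heatKernel
  have e0 : (((4 * Real.pi * t) ^ (-(d : ℝ) / 2) * Real.exp (-‖z‖ ^ 2 / (4 * t)) : ℝ) : ℂ) =
      (((4 * Real.pi * t) ^ (-(d : ℝ) / 2) : ℝ) : ℂ) *
        Complex.exp ((-‖z‖ ^ 2 / (4 * t) : ℝ) : ℂ) := by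
    rw [Complex.ofReal_mul, Complex.ofReal_exp]
  rw [e0]
  congr 1
  · have e2 : (Real.pi : ℂ) / ((4 * Real.pi ^ 2 * t : ℝ) : ℂ) =
        (((4 * Real.pi * t)⁻¹ : ℝ) : ℂ) := by
      push_cast
      have : (Real.pi : ℂ) ≠ 0 := by exact_mod_cast hpi.ne'
      have : (t : ℂ) ≠ 0 := by exact_mod_cast ht.ne'
      field_simp
    rw [e2]
    have e3 : ((d : ℂ) / 2) = (((d : ℝ) / 2 : ℝ) : ℂ) := by push_cast; ring
    rw [e3, ← Complex.ofReal_cpow (by positivity)]
    congr 1
    rw [Real.inv_rpow (by positivity), ← Real.rpow_neg (by positivity)]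
    congr 1
    ring
  · congr 1
    push_cast
    have : (Real.pi : ℂ) ≠ 0 := by exact_mod_cast hpi.ne'
    have : (t : ℂ) ≠ 0 := by exact_mod_cast ht.ne'
    field_simp
    rw [Complex.I_sq]
    ring

lemma integrable_gw {t : ℝ} (ht : 0 < t) :
    Integrable (gw t : EuclideanSpace ℝ (Fin d) → ℝ) := by
  have h := gauss_ft ht (0 : EuclideanSpace ℝ (Fin d))
  by_contra hcon
  have h1 : ∫ ξ : EuclideanSpace ℝ (Fin d), ex (inner ℝ 0 ξ) * (gw t ξ : ℂ) =
      ((∫ ξ : EuclideanSpace ℝ (Fin d), gw t ξ : ℝ) : ℂ) := by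
    simp only [inner_zero_left, ex_zero, one_mul]
    exact integral_ofReal
  rw [h1, integral_undef hcon] at h
  have h2 : heatKernel d t (0 : EuclideanSpace ℝ (Fin d)) = 0 := by exact_mod_cast h.symm
  unfold heatKernel at h2
  have := Real.pi_pos
  have h3 : 0 < (4 * Real.pi * t) ^ (-(d : ℝ) / 2) *
    Real.exp (-‖(0 : EuclideanSpace ℝ (Fin d))‖ ^ 2 / (4 * t)) := by positivity
  linarith

/-- Fourier transform of a positive finite measure. -/
noncomputable def fp (P : Measure (EuclideanSpace ℝ (Fin d))) (ξ : EuclideanSpace ℝ (Fin d)) : ℂ :=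
  ∫ x, ex (inner ℝ x ξ) ∂P

lemma integrable_ex_inner (P : Measure (EuclideanSpace ℝ (Fin d))) [IsFiniteMeasure P]
    (ξ : EuclideanSpace ℝ (Fin d)) : Integrable (fun x => ex (inner ℝ x ξ)) P := by
  refine Integrable.of_bound (C := 1) ?_ (Eventually.of_forall fun x => (norm_ex _).le)
  exact (continuous_ex.comp (by fun_prop)).aestronglyMeasurable

lemma continuous_fp (P : Measure (EuclideanSpace ℝ (Fin d))) [IsFiniteMeasure P] :
    Continuous (fp P) := by
  unfold fp
  apply continuous_of_dominated (bound := fun _ => 1)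
  · intro ξ
    exact (integrable_ex_inner P ξ).aestronglyMeasurable
  · intro ξ
    exact Eventually.of_forall fun x => (norm_ex _).le
  · exact integrable_const _
  · refine Eventually.of_forall fun x => ?_
    exact continuous_ex.comp (by fun_prop)

lemma norm_fp_le (P : Measure (EuclideanSpace ℝ (Fin d))) [IsFiniteMeasure P]
    (ξ : EuclideanSpace ℝ (Fin d)) : ‖fp P ξ‖ ≤ P.real univ := by
  unfold fp
  have := norm_integral_le_of_norm_le_const (μ := P) (f := fun x => ex (inner ℝ x ξ)) (C := 1)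
    (Eventually.of_forall fun x => (norm_ex _).le)
  simpa using this

lemma conj_ex (x : ℝ) : conj (ex x) = ex (-x) := by
  unfold ex
  rw [← Complex.exp_conj]
  congr 1
  rw [map_mul, Complex.conj_ofReal, Complex.conj_I]
  push_cast
  ring

/-- The convolution of the heat kernel with a positive measure. -/
noncomputable def hc (t : ℝ) (P : Measure (EuclideanSpace ℝ (Fin d)))
    (x : EuclideanSpace ℝ (Fin d)) : ℝ := ∫ y, heatKernel d t (x - y) ∂P

lemma heatKernel_le {t : ℝ} (ht : 0 < t) (x : EuclideanSpace ℝ (Fin d)) :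
    heatKernel d t x ≤ (4 * Real.pi * t) ^ (-(d : ℝ) / 2) := by
  unfold heatKernel
  have hpi := Real.pi_pos
  have h1 : Real.exp (-‖x‖ ^ 2 / (4 * t)) ≤ 1 := by
    rw [Real.exp_le_one_iff]
    apply div_nonpos_of_nonpos_of_nonneg
    · have := sq_nonneg ‖x‖; linarith
    · positivity
  calc _ ≤ (4 * Real.pi * t) ^ (-(d : ℝ) / 2) * 1 := by gcongr
    _ = _ := mul_one _

lemma continuous_heatKernel (t : ℝ) : Continuous (heatKernel d t) := by
  unfold heatKernel; fun_prop

lemma integrable_heatKernel' {t : ℝ} (ht : 0 < t) (P : Measure (EuclideanSpace ℝ (Fin d)))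
    [IsFiniteMeasure P] (x : EuclideanSpace ℝ (Fin d)) :
    Integrable (fun y => heatKernel d t (x - y)) P := by
  refine Integrable.of_bound (C := (4 * Real.pi * t) ^ (-(d : ℝ) / 2)) ?_
    (Eventually.of_forall fun y => ?_)
  · exact ((continuous_heatKernel t).comp (by fun_prop)).aestronglyMeasurable
  · rw [Real.norm_eq_abs, abs_of_nonneg (heatKernel_nonneg ht _)]
    exact heatKernel_le ht _

lemma continuous_hc {t : ℝ} (ht : 0 < t) (P : Measure (EuclideanSpace ℝ (Fin d)))
    [IsFiniteMeasure P] : Continuous (hc t P) := by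
  unfold hc
  apply continuous_of_dominated (bound := fun _ => (4 * Real.pi * t) ^ (-(d : ℝ) / 2))
  · intro x
    exact (integrable_heatKernel' ht P x).aestronglyMeasurable
  · intro x
    refine Eventually.of_forall fun y => ?_
    rw [Real.norm_eq_abs, abs_of_nonneg (heatKernel_nonneg ht _)]
    exact heatKernel_le ht _
  · exact integrable_const _
  · refine Eventually.of_forall fun y => ?_
    exact (continuous_heatKernel t).comp (by fun_prop)

lemma abs_hc_le {t : ℝ} (ht : 0 < t) (P : Measure (EuclideanSpace ℝ (Fin d)))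
    [IsFiniteMeasure P] (x : EuclideanSpace ℝ (Fin d)) :
    |hc t P x| ≤ (4 * Real.pi * t) ^ (-(d : ℝ) / 2) * P.real univ := by
  unfold hc
  have := norm_integral_le_of_norm_le_const (μ := P) (f := fun y => heatKernel d t (x - y))
    (C := (4 * Real.pi * t) ^ (-(d : ℝ) / 2)) (Eventually.of_forall fun y => by
      rw [Real.norm_eq_abs, abs_of_nonneg (heatKernel_nonneg ht _)]
      exact heatKernel_le ht _)
  simpa using this

lemma integrable_hc {t : ℝ} (ht : 0 < t) (P P' : Measure (EuclideanSpace ℝ (Fin d)))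
    [IsFiniteMeasure P] [IsFiniteMeasure P'] : Integrable (hc t P) P' := by
  refine Integrable.of_bound (C := (4 * Real.pi * t) ^ (-(d : ℝ) / 2) * P.real univ)
    (continuous_hc ht P).aestronglyMeasurable (Eventually.of_forall fun y => ?_)
  rw [Real.norm_eq_abs]
  exact abs_hc_le ht P y

/-- The bilinear identity. -/
lemma bilinear {t : ℝ} (ht : 0 < t) (P P' : Measure (EuclideanSpace ℝ (Fin d)))
    [IsFiniteMeasure P] [IsFiniteMeasure P'] :
    ∫ ξ, fp P ξ * conj (fp P' ξ) * (gw t ξ : ℂ) = ((∫ x, hc t P' x ∂P : ℝ) : ℂ) := by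
  have h1 : ∀ ξ : EuclideanSpace ℝ (Fin d), fp P ξ * conj (fp P' ξ) * (gw t ξ : ℂ) =
      ∫ z : EuclideanSpace ℝ (Fin d) × EuclideanSpace ℝ (Fin d),
        ex (inner ℝ (z.1 - z.2) ξ) * (gw t ξ : ℂ) ∂(P.prod P') := by
    intro ξ
    rw [integral_mul_const]
    congr 1
    unfold fp
    rw [← integral_conj, ← integral_prod_mul]
    congr 1
    funext z
    rw [conj_ex, ← ex_add, inner_sub_left, sub_eq_add_neg]
  simp_rw [h1]
  rw [integral_integral_swap]
  · have h2 : ∀ z : EuclideanSpace ℝ (Fin d) × EuclideanSpace ℝ (Fin d),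
        ∫ ξ, ex (inner ℝ (z.1 - z.2) ξ) * (gw t ξ : ℂ) = (heatKernel d t (z.1 - z.2) : ℂ) :=
      fun z => gauss_ft ht _
    simp_rw [h2]
    rw [integral_complex_ofReal]
    congr 1
    have hint : Integrable (fun z : EuclideanSpace ℝ (Fin d) × EuclideanSpace ℝ (Fin d) =>
        heatKernel d t (z.1 - z.2)) (P.prod P') := by
      refine Integrable.of_bound (C := (4 * Real.pi * t) ^ (-(d : ℝ) / 2)) ?_
        (Eventually.of_forall fun y => ?_)
      · exact ((continuous_heatKernel t).comp (by fun_prop)).aestronglyMeasurable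
      · rw [Real.norm_eq_abs, abs_of_nonneg (heatKernel_nonneg ht _)]
        exact heatKernel_le ht _
    rw [integral_prod _ hint]
    rfl
  · have h3 : Integrable (fun z : EuclideanSpace ℝ (Fin d) ×
        (EuclideanSpace ℝ (Fin d) × EuclideanSpace ℝ (Fin d)) => gw t z.1)
        (volume.prod (P.prod P')) := by
      exact (integrable_gw ht).comp_fst _
    refine h3.mono' ?_ (Eventually.of_forall fun z => ?_)
    · apply Continuous.aestronglyMeasurable
      apply Continuous.mul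
      · exact continuous_ex.comp (by fun_prop)
      · exact Complex.continuous_ofReal.comp ((continuous_gw t).comp continuous_fst)
    · simp only [Function.uncurry]
      rw [norm_mul, norm_ex, one_mul, Complex.norm_real, Real.norm_eq_abs,
        abs_of_nonneg (gw_nonneg _ _)]

/-- The energy identity and bound. -/
lemma energy_le {t : ℝ} (ht : 0 < t) (P M : Measure (EuclideanSpace ℝ (Fin d)))
    [IsFiniteMeasure P] [IsFiniteMeasure M] (hPM : P.real univ + M.real univ ≤ 1)
    (hb : ∀ x, |hc t P x - hc t M x| ≤ 1) :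
    ∫ ξ, ‖fp P ξ - fp M ξ‖ ^ 2 * gw t ξ ≤ 1 := by
  have hintb : ∀ (P P' : Measure (EuclideanSpace ℝ (Fin d))) [IsFiniteMeasure P]
      [IsFiniteMeasure P'], Integrable (fun ξ => fp P ξ * conj (fp P' ξ) * (gw t ξ : ℂ)) := by
    intro P P' _ _
    refine ((integrable_gw ht).const_mul (P.real univ * P'.real univ)).mono' ?_
      (Eventually.of_forall fun ξ => ?_)
    · apply Continuous.aestronglyMeasurable
      exact ((continuous_fp P).mul (Complex.continuous_conj.comp (continuous_fp P'))).mul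
        (Complex.continuous_ofReal.comp (continuous_gw t))
    · rw [norm_mul, norm_mul, Complex.norm_conj, Complex.norm_real, Real.norm_eq_abs,
        abs_of_nonneg (gw_nonneg _ _)]
      have h1 := norm_fp_le P ξ
      have h2 := norm_fp_le P' ξ
      have h3 := gw_nonneg t ξ
      gcongr
  have key : ((∫ ξ, ‖fp P ξ - fp M ξ‖ ^ 2 * gw t ξ : ℝ) : ℂ) =
      ((∫ x, (hc t P x - hc t M x) ∂P - ∫ x, (hc t P x - hc t M x) ∂M : ℝ) : ℂ) := by
    have e1 : ((∫ ξ, ‖fp P ξ - fp M ξ‖ ^ 2 * gw t ξ : ℝ) : ℂ) =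
        ∫ ξ, (fp P ξ * conj (fp P ξ) * (gw t ξ : ℂ) - fp M ξ * conj (fp P ξ) * (gw t ξ : ℂ) -
          fp P ξ * conj (fp M ξ) * (gw t ξ : ℂ) + fp M ξ * conj (fp M ξ) * (gw t ξ : ℂ)) := by
      rw [← integral_complex_ofReal]
      congr 1
      funext ξ
      have h2 : (((‖fp P ξ - fp M ξ‖ ^ 2 : ℝ)) : ℂ) =
          (fp P ξ - fp M ξ) * conj (fp P ξ - fp M ξ) := by
        rw [Complex.mul_conj, Complex.normSq_eq_norm_sq]
      change (((‖fp P ξ - fp M ξ‖ ^ 2 * gw t ξ : ℝ)) : ℂ) = _
      rw [Complex.ofReal_mul, h2, map_sub]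
      ring
    rw [e1, integral_add, integral_sub, integral_sub, bilinear ht, bilinear ht, bilinear ht,
      bilinear ht]
    · rw [integral_sub (integrable_hc ht P P) (integrable_hc ht M P),
        integral_sub (integrable_hc ht P M) (integrable_hc ht M M)]
      push_cast
      ring
    · exact hintb P P
    · exact hintb M P
    · exact (hintb P P).sub (hintb M P)
    · exact hintb P M
    · exact ((hintb P P).sub (hintb M P)).sub (hintb P M)
    · exact hintb M M
  have key' : ∫ ξ, ‖fp P ξ - fp M ξ‖ ^ 2 * gw t ξ =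
      ∫ x, (hc t P x - hc t M x) ∂P - ∫ x, (hc t P x - hc t M x) ∂M := by exact_mod_cast key
  rw [key']
  have h1 : |∫ x, (hc t P x - hc t M x) ∂P| ≤ P.real univ := by
    have := norm_integral_le_of_norm_le_const (μ := P) (f := fun x => hc t P x - hc t M x) (C := 1)
      (Eventually.of_forall fun x => hb x)
    simpa using this
  have h2 : |∫ x, (hc t P x - hc t M x) ∂M| ≤ M.real univ := by
    have := norm_integral_le_of_norm_le_const (μ := M) (f := fun x => hc t P x - hc t M x) (C := 1)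
      (Eventually.of_forall fun x => hb x)
    simpa using this
  have h3 := abs_le.1 h1
  have h4 := abs_le.1 h2
  linarith [h3.2, h4.1]

/-- The `L²` bound. -/
lemma l2_bound (P M : Measure (EuclideanSpace ℝ (Fin d)))
    [IsFiniteMeasure P] [IsFiniteMeasure M] (hPM : P.real univ + M.real univ ≤ 1)
    (hb : ∀ t, 0 < t → ∀ x, |hc t P x - hc t M x| ≤ 1) :
    ∫⁻ ξ, ENNReal.ofReal (‖fp P ξ - fp M ξ‖ ^ 2) ≤ 1 := by
  set F : EuclideanSpace ℝ (Fin d) → ℝ := fun ξ => ‖fp P ξ - fp M ξ‖ ^ 2 with hF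
  have hFc : Continuous F := (((continuous_fp P).sub (continuous_fp M)).norm).pow 2
  have hstep : ∀ n : ℕ, ∫⁻ ξ, ENNReal.ofReal (F ξ * gw (1 / ((n : ℝ) + 1)) ξ) ≤ 1 := by
    intro n
    have ht : (0 : ℝ) < 1 / ((n : ℝ) + 1) := by positivity
    have h1 := energy_le ht P M hPM (hb _ ht)
    have hFb : ∀ ξ, F ξ ≤ 1 := by
      intro ξ
      have h2 : ‖fp P ξ - fp M ξ‖ ≤ 1 := by
        calc ‖fp P ξ - fp M ξ‖ ≤ ‖fp P ξ‖ + ‖fp M ξ‖ := norm_sub_le _ _
          _ ≤ P.real univ + M.real univ := add_le_add (norm_fp_le P ξ) (norm_fp_le M ξ)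
          _ ≤ 1 := hPM
      simp only [hF]
      exact pow_le_one₀ (norm_nonneg _) h2
    have hint : Integrable fun ξ => F ξ * gw (1 / ((n : ℝ) + 1)) ξ := by
      refine (integrable_gw ht).mono' ?_ (Eventually.of_forall fun ξ => ?_)
      · exact (hFc.mul (continuous_gw _)).aestronglyMeasurable
      · have h3 := gw_nonneg (1 / ((n : ℝ) + 1)) ξ
        have h4 : 0 ≤ F ξ := by simp only [hF]; positivity
        rw [norm_mul, Real.norm_eq_abs, Real.norm_eq_abs, abs_of_nonneg h4, abs_of_nonneg h3]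
        calc F ξ * gw (1 / ((n : ℝ) + 1)) ξ ≤ 1 * gw (1 / ((n : ℝ) + 1)) ξ := by
              gcongr
              exact hFb ξ
          _ = _ := one_mul _
    rw [← ofReal_integral_eq_lintegral_ofReal hint (Eventually.of_forall fun ξ => by
      have h3 := gw_nonneg (1 / ((n : ℝ) + 1)) ξ
      have h4 : 0 ≤ F ξ := by simp only [hF]; positivity
      exact mul_nonneg h4 h3)]
    rw [← ENNReal.ofReal_one]
    exact ENNReal.ofReal_le_ofReal h1
  have hlim : ∀ ξ, Tendsto (fun n : ℕ => ENNReal.ofReal (F ξ * gw (1 / ((n : ℝ) + 1)) ξ)) atTop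
      (𝓝 (ENNReal.ofReal (F ξ))) := by
    intro ξ
    apply (ENNReal.continuous_ofReal.tendsto _).comp
    have h1 : Tendsto (fun n : ℕ => gw (1 / ((n : ℝ) + 1)) ξ) atTop (𝓝 1) := by
      unfold gw
      have h2 : Tendsto (fun n : ℕ => -(4 * Real.pi ^ 2 * (1 / ((n : ℝ) + 1))) * ‖ξ‖ ^ 2) atTop
          (𝓝 0) := by
        have h3 := tendsto_one_div_add_atTop_nhds_zero_nat (𝕜 := ℝ)
        have h4 := h3.const_mul (-(4 * Real.pi ^ 2 * ‖ξ‖ ^ 2))
        rw [mul_zero] at h4
        refine h4.congr fun n => ?_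
        ring
      have h5 := (Real.continuous_exp.tendsto 0).comp h2
      rwa [Real.exp_zero] at h5
    have h6 := h1.const_mul (F ξ)
    rwa [mul_one] at h6
  calc ∫⁻ ξ, ENNReal.ofReal (F ξ)
      = ∫⁻ ξ, liminf (fun n : ℕ => ENNReal.ofReal (F ξ * gw (1 / ((n : ℝ) + 1)) ξ)) atTop := by
        congr 1
        funext ξ
        exact (hlim ξ).liminf_eq.symm
    _ ≤ liminf (fun n : ℕ => ∫⁻ ξ, ENNReal.ofReal (F ξ * gw (1 / ((n : ℝ) + 1)) ξ)) atTop := by
        apply lintegral_liminf_le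
        intro n
        exact (hFc.mul (continuous_gw _)).measurable.ennreal_ofReal
    _ ≤ 1 := by
        refine (liminf_le_liminf (Eventually.of_forall hstep)).trans ?_
        simp

end Pool.Agent.Lib.MP_8f79a4_an
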