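import Mathlib

/-!
Heat kernel bounds from growth conditions, on the line.
-/

open MeasureTheory Set
open scoped ENNReal

namespace Pool.Agent.Lib.MP_8f79a4_an

lemma exp_neg_le_half : Real.exp (-1) ≤ 1 / 2 := by
  rw [Real.exp_neg, one_div]
  apply inv_anti₀ (by norm_num)
  have := Real.add_one_le_exp (1 : ℝ)
  linarith

/-- A Gaussian is dominated by a sum of indicators. -/
lemma gauss_le_tsum (u : ℝ) : ENNReal.ofReal (Real.exp (-u ^ 2)) ≤
    ∑' m : ℕ, {u : ℝ | |u| ≤ m + 1}.indicator (fun _ => ENNReal.ofReal ((1 / 2) ^ m)) u := by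
  have h1 : ENNReal.ofReal (Real.exp (-u ^ 2)) ≤
      {u' : ℝ | |u'| ≤ (⌊|u|⌋₊ : ℕ) + 1}.indicator
        (fun _ => ENNReal.ofReal ((1 / 2) ^ ⌊|u|⌋₊)) u := by
    rw [indicator_of_mem (by
      simp only [mem_ofPred_eq]
      exact (Nat.lt_floor_add_one |u|).le)]
    apply ENNReal.ofReal_le_ofReal
    set m := ⌊|u|⌋₊ with hm
    have h2 : (m : ℝ) ≤ |u| := Nat.floor_le (abs_nonneg u)
    have h3 : (m : ℝ) ≤ u ^ 2 := by
      rw [← sq_abs]
      rcases Nat.eq_zero_or_pos m with h0 | h0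
      · rw [h0]; simp; positivity
      · have : (1 : ℝ) ≤ m := by exact_mod_cast h0
        nlinarith
    calc Real.exp (-u ^ 2) ≤ Real.exp (-(m : ℝ)) := by
          apply Real.exp_le_exp.2; linarith
      _ = Real.exp (-1) ^ m := by rw [← Real.exp_nat_mul]; congr 1; ring
      _ ≤ (1 / 2) ^ m := by
          gcongr
          exact exp_neg_le_half
  exact h1.trans (ENNReal.le_tsum (f := fun m : ℕ =>
    {u : ℝ | |u| ≤ m + 1}.indicator (fun _ => ENNReal.ofReal ((1 / 2) ^ m)) u) ⌊|u|⌋₊)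

lemma succ_le_pow (m : ℕ) : ((m : ℝ) + 1) ≤ 2 * (3 / 2) ^ m := by
  induction m with
  | zero => norm_num
  | succ m ih =>
    push_cast
    rw [pow_succ]
    have h1 : (1 : ℝ) ≤ (3 / 2 : ℝ) ^ m := one_le_pow₀ (by norm_num)
    nlinarith

/-- Heat kernel bound from the growth condition. -/
lemma lintegral_gauss_le (μ : Measure ℝ) {b K : ℝ} (hb : 0 < b) (hb1 : b ≤ 1) (hK : 0 ≤ K)
    (hg : ∀ x R : ℝ, 0 ≤ R → μ (Icc x (x + R)) ≤ ENNReal.ofReal ((K * R) ^ b))
    {τ : ℝ} (hτ : 0 < τ) (x : ℝ) :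
    ∫⁻ y, ENNReal.ofReal (Real.exp (-((x - y) / τ) ^ 2)) ∂μ ≤
      ENNReal.ofReal (8 * (K * (2 * τ)) ^ b) := by
  set S : ℕ → Set ℝ := fun m => {y : ℝ | |(x - y) / τ| ≤ m + 1} with hS
  have hSm : ∀ m, MeasurableSet (S m) := fun m => by
    apply measurableSet_le
    · fun_prop
    · exact measurable_const
  have hSsub : ∀ m : ℕ, S m ⊆ Icc (x - (m + 1) * τ) (x - (m + 1) * τ + 2 * ((m + 1) * τ)) := by
    intro m y hy
    simp only [hS, mem_ofPred_eq] at hy
    rw [abs_div, abs_of_pos hτ, div_le_iff₀ hτ, abs_le] at hy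
    constructor
    · linarith [hy.2]
    · linarith [hy.1]
  have hSμ : ∀ m : ℕ, μ (S m) ≤ ENNReal.ofReal ((m + 1) * (K * (2 * τ)) ^ b) := by
    intro m
    refine (measure_mono (hSsub m)).trans ((hg _ _ (by positivity)).trans ?_)
    apply ENNReal.ofReal_le_ofReal
    have e : K * (2 * ((m + 1) * τ)) = ((m : ℝ) + 1) * (K * (2 * τ)) := by ring
    rw [e, Real.mul_rpow (by positivity) (by positivity)]
    gcongr
    calc ((m : ℝ) + 1) ^ b ≤ ((m : ℝ) + 1) ^ (1 : ℝ) := by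
          apply Real.rpow_le_rpow_of_exponent_le _ hb1
          have : (0 : ℝ) ≤ m := by positivity
          linarith
      _ = (m : ℝ) + 1 := Real.rpow_one _
  calc ∫⁻ y, ENNReal.ofReal (Real.exp (-((x - y) / τ) ^ 2)) ∂μ
      ≤ ∫⁻ y, ∑' m : ℕ, (S m).indicator (fun _ => ENNReal.ofReal ((1 / 2) ^ m)) y ∂μ := by
        apply lintegral_mono
        intro y
        exact gauss_le_tsum ((x - y) / τ)
    _ = ∑' m : ℕ, ∫⁻ y, (S m).indicator (fun _ => ENNReal.ofReal ((1 / 2) ^ m)) y ∂μ := by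
        rw [lintegral_tsum]
        intro m
        exact (measurable_const.indicator (hSm m)).aemeasurable
    _ = ∑' m : ℕ, ENNReal.ofReal ((1 / 2) ^ m) * μ (S m) := by
        congr 1
        funext m
        rw [lintegral_indicator_const (hSm m)]
    _ ≤ ∑' m : ℕ, ENNReal.ofReal (2 * (3 / 4) ^ m) * ENNReal.ofReal ((K * (2 * τ)) ^ b) := by
        apply ENNReal.tsum_le_tsum
        intro m
        calc ENNReal.ofReal ((1 / 2) ^ m) * μ (S m)
            ≤ ENNReal.ofReal ((1 / 2) ^ m) * ENNReal.ofReal ((m + 1) * (K * (2 * τ)) ^ b) := by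
              gcongr
              exact hSμ m
          _ = ENNReal.ofReal ((1 / 2) ^ m * (m + 1)) * ENNReal.ofReal ((K * (2 * τ)) ^ b) := by
              rw [← ENNReal.ofReal_mul (by positivity), ← ENNReal.ofReal_mul (by positivity)]
              congr 1
              ring
          _ ≤ _ := by
              have h5 : (1 / 2 : ℝ) ^ m * (m + 1) ≤ 2 * (3 / 4) ^ m := by
                calc (1 / 2 : ℝ) ^ m * (m + 1) ≤ (1 / 2) ^ m * (2 * (3 / 2) ^ m) := by
                      gcongr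
                      exact succ_le_pow m
                  _ = 2 * ((1 / 2) * (3 / 2)) ^ m := by rw [mul_pow]; ring
                  _ = 2 * (3 / 4) ^ m := by norm_num
              exact mul_le_mul_left (ENNReal.ofReal_le_ofReal h5) _
    _ = ENNReal.ofReal 8 * ENNReal.ofReal ((K * (2 * τ)) ^ b) := by
        rw [ENNReal.tsum_mul_right]
        congr 1
        rw [← ENNReal.ofReal_tsum_of_nonneg]
        · congr 1
          rw [tsum_mul_left, tsum_geometric_of_lt_one (by norm_num) (by norm_num)]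
          norm_num
        · intro m; positivity
        · exact (summable_geometric_of_lt_one (by norm_num) (by norm_num)).mul_left 2
    _ = _ := by rw [← ENNReal.ofReal_mul (by norm_num)]

/-- The one dimensional heat kernel integral. -/
noncomputable def heat1 (μ : Measure ℝ) (t x : ℝ) : ℝ :=
  ∫ y, (4 * Real.pi * t) ^ (-(1 : ℝ) / 2) * Real.exp (-(x - y) ^ 2 / (4 * t)) ∂μ

lemma heat1_nonneg (μ : Measure ℝ) {t : ℝ} (ht : 0 < t) (x : ℝ) : 0 ≤ heat1 μ t x := by
  unfold heat1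
  apply integral_nonneg
  intro y
  have := Real.pi_pos
  positivity

lemma heat1_le (μ : Measure ℝ) {b K : ℝ} (hb : 0 < b) (hb1 : b ≤ 1) (hK : 0 ≤ K)
    (hg : ∀ x R : ℝ, 0 ≤ R → μ (Icc x (x + R)) ≤ ENNReal.ofReal ((K * R) ^ b))
    {t : ℝ} (ht : 0 < t) (x : ℝ) :
    heat1 μ t x ≤ 8 * (4 * K) ^ b * t ^ ((b - 1) / 2) := by
  have hpi := Real.pi_pos
  set τ : ℝ := 2 * √t with hτ
  have hst : 0 < √t := Real.sqrt_pos.2 ht
  have hτ0 : 0 < τ := by positivity
  have hτ2 : τ ^ 2 = 4 * t := by rw [hτ, mul_pow, Real.sq_sqrt ht.le]; norm_num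
  have h1 := lintegral_gauss_le μ hb hb1 hK hg hτ0 x
  have e1 : ∀ y : ℝ, Real.exp (-((x - y) / τ) ^ 2) = Real.exp (-(x - y) ^ 2 / (4 * t)) := by
    intro y
    congr 1
    rw [div_pow, hτ2, neg_div]
  simp_rw [e1] at h1
  have h2 : ∫ y, Real.exp (-(x - y) ^ 2 / (4 * t)) ∂μ ≤ 8 * (K * (2 * τ)) ^ b := by
    rw [integral_eq_lintegral_of_nonneg_ae]
    · exact ENNReal.toReal_le_of_le_ofReal (by positivity) h1
    · exact Filter.Eventually.of_forall fun y => (Real.exp_pos _).le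
    · exact (by fun_prop : Continuous fun y : ℝ =>
        Real.exp (-(x - y) ^ 2 / (4 * t))).aestronglyMeasurable
  unfold heat1
  rw [integral_const_mul]
  have e2 : K * (2 * τ) = (4 * K) * √t := by rw [hτ]; ring
  have e3 : (√t) ^ b = t ^ (b / 2) := by
    rw [Real.sqrt_eq_rpow, ← Real.rpow_mul ht.le]
    congr 1
    ring
  rw [e2, Real.mul_rpow (by positivity) hst.le, e3] at h2
  have h3 : (4 * Real.pi * t) ^ (-(1 : ℝ) / 2) ≤ t ^ (-(1 : ℝ) / 2) := by
    apply Real.rpow_le_rpow_of_nonpos ht _ (by norm_num)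
    nlinarith [Real.pi_gt_three]
  calc (4 * Real.pi * t) ^ (-(1 : ℝ) / 2) * ∫ y, Real.exp (-(x - y) ^ 2 / (4 * t)) ∂μ
      ≤ t ^ (-(1 : ℝ) / 2) * (8 * ((4 * K) ^ b * t ^ (b / 2))) := by
        gcongr
    _ = 8 * (4 * K) ^ b * (t ^ (-(1 : ℝ) / 2) * t ^ (b / 2)) := by ring
    _ = _ := by
        rw [← Real.rpow_add ht]
        congr 2
        ring

end Pool.Agent.Lib.MP_8f79a4_an
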