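import Pool.Agent.Lib.MP_8f79a4_an.Defs

/-!
A lower bound for the Lorentz quasi-norm.
-/

open MeasureTheory Set
open scoped ENNReal

namespace Pool.Agent.Lib.MP_8f79a4_an

variable {d : ℕ}

lemma le_rearrangement {g : EuclideanSpace ℝ (Fin d) → ℂ} {c s : ℝ}
    (h : ENNReal.ofReal s < volume {x | c ≤ ‖g x‖}) : ENNReal.ofReal c ≤ rearrangement g s := by
  unfold rearrangement
  apply le_sInf
  intro t ht
  by_contra hcon
  push Not at hcon
  have hsub : {x | c ≤ ‖g x‖} ⊆ {x | t < ‖g x‖ₑ} := by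
    intro x hx
    refine lt_of_lt_of_le hcon ?_
    rw [← ofReal_norm]
    exact ENNReal.ofReal_le_ofReal hx
  exact absurd ((measure_mono hsub).trans ht) (not_le.2 h)

lemma lorentz_integral_ge {p q : ℝ} (hp : 0 < p) (hq : 0 < q)
    {g : EuclideanSpace ℝ (Fin d) → ℂ} {θ L A c : ℝ} (hθ : 0 < θ) (hθ1 : θ < 1) (hL : 0 < L)
    (hA : 0 ≤ A) (hc : 0 < c) (K : Finset ℕ)
    (h : ∀ k ∈ K, ENNReal.ofReal (c * (L * (θ ^ k)⁻¹)) ≤
      volume {x | A * (L * (θ ^ k)⁻¹) ^ (-(1 / p)) ≤ ‖g x‖}) :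
    ENNReal.ofReal ((A * (c * θ) ^ (1 / p)) ^ q * (1 - θ) * K.card) ≤
      ∫⁻ s in Set.Ioi (0 : ℝ),
        (ENNReal.ofReal (s ^ (1 / p)) * rearrangement g s) ^ q * ENNReal.ofReal (1 / s) := by
  set U : ℕ → ℝ := fun k => L * (θ ^ k)⁻¹ with hU
  have hUpos : ∀ k, 0 < U k := fun k => by simp only [hU]; positivity
  set J : ℕ → Set ℝ := fun k => Ioo (c * θ * U k) (c * U k) with hJ
  set f : ℝ → ℝ≥0∞ := fun s =>
    (ENNReal.ofReal (s ^ (1 / p)) * rearrangement g s) ^ q * ENNReal.ofReal (1 / s) with hf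
  have hJm : ∀ k ∈ K, MeasurableSet (J k) := fun k _ => measurableSet_Ioo
  have hstep : ∀ k l, k < l → c * U k ≤ c * θ * U l := by
    intro k l hkl
    rw [mul_assoc]
    gcongr
    simp only [hU]
    have h1 : (θ ^ k)⁻¹ ≤ θ * (θ ^ l)⁻¹ := by
      have h2 : θ ^ l ≤ θ ^ (k + 1) := pow_le_pow_of_le_one hθ.le hθ1.le hkl
      rw [inv_le_iff_one_le_mul₀ (by positivity)]
      have h3 : θ * (θ ^ l)⁻¹ * θ ^ k = θ ^ (k + 1) / θ ^ l := by
        field_simp
        ring
      rw [h3, one_le_div (by positivity)]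
      exact h2
    calc L * (θ ^ k)⁻¹ ≤ L * (θ * (θ ^ l)⁻¹) := by gcongr
      _ = θ * (L * (θ ^ l)⁻¹) := by ring
  have hdisj : Set.PairwiseDisjoint (K : Set ℕ) J := by
    intro k _ l _ hkl
    rw [Function.onFun, Set.disjoint_left]
    intro s hs hs'
    simp only [hJ, mem_Ioo] at hs hs'
    rcases lt_or_gt_of_ne hkl with h1 | h1
    · have := hstep k l h1; linarith [hs.2, hs'.1]
    · have := hstep l k h1; linarith [hs.1, hs'.2]
  have hsub : (⋃ k ∈ K, J k) ⊆ Ioi (0 : ℝ) := by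
    intro s hs
    simp only [mem_iUnion] at hs
    obtain ⟨k, _, hs⟩ := hs
    have : 0 < c * θ * U k := by have := hUpos k; positivity
    exact lt_trans this hs.1
  have hone : ∀ k ∈ K, ENNReal.ofReal ((A * (c * θ) ^ (1 / p)) ^ q * (1 - θ)) ≤
      ∫⁻ s in J k, f s := by
    intro k hk
    have hUk := hUpos k
    have hpt : ∀ s ∈ J k, ENNReal.ofReal ((A * (c * θ) ^ (1 / p)) ^ q * (1 / (c * U k))) ≤ f s := by
      intro s hs
      simp only [hJ, mem_Ioo] at hs
      have hs0 : 0 < s := lt_trans (by positivity) hs.1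
      have h1 : ENNReal.ofReal (A * U k ^ (-(1 / p))) ≤ rearrangement g s := by
        apply le_rearrangement
        refine lt_of_lt_of_le ?_ (h k hk)
        exact (ENNReal.ofReal_lt_ofReal_iff (by positivity)).2 hs.2
      have h2 : A * (c * θ) ^ (1 / p) ≤ s ^ (1 / p) * (A * U k ^ (-(1 / p))) := by
        have h3 : (c * θ * U k) ^ (1 / p) ≤ s ^ (1 / p) := by
          apply Real.rpow_le_rpow (by positivity) hs.1.le (by positivity)
        rw [Real.mul_rpow (by positivity) hUk.le] at h3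
        have h4 : U k ^ (1 / p) * U k ^ (-(1 / p)) = 1 := by
          rw [← Real.rpow_add hUk, add_neg_cancel, Real.rpow_zero]
        calc A * (c * θ) ^ (1 / p) = ((c * θ) ^ (1 / p) * U k ^ (1 / p)) * (A * U k ^ (-(1 / p))) := by
              linear_combination (-(A * (c * θ) ^ (1 / p))) * h4
          _ ≤ _ := by gcongr
      rw [ENNReal.ofReal_mul (by positivity)]
      simp only [hf]
      gcongr
      · calc ENNReal.ofReal ((A * (c * θ) ^ (1 / p)) ^ q)
            = ENNReal.ofReal (A * (c * θ) ^ (1 / p)) ^ q := by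
              rw [ENNReal.ofReal_rpow_of_nonneg (by positivity) hq.le]
          _ ≤ ENNReal.ofReal (s ^ (1 / p) * (A * U k ^ (-(1 / p)))) ^ q := by
              gcongr
          _ ≤ _ := by
              gcongr
              rw [ENNReal.ofReal_mul (by positivity)]
              gcongr
      · exact hs.2.le
    calc ENNReal.ofReal ((A * (c * θ) ^ (1 / p)) ^ q * (1 - θ))
        = ∫⁻ _s in J k, ENNReal.ofReal ((A * (c * θ) ^ (1 / p)) ^ q * (1 / (c * U k))) := by
          rw [setLIntegral_const]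
          simp only [hJ]
          rw [Real.volume_Ioo, ← ENNReal.ofReal_mul (by positivity)]
          congr 1
          field_simp
      _ ≤ ∫⁻ s in J k, f s := setLIntegral_mono' measurableSet_Ioo hpt
  calc ENNReal.ofReal ((A * (c * θ) ^ (1 / p)) ^ q * (1 - θ) * K.card)
      = ∑ _k ∈ K, ENNReal.ofReal ((A * (c * θ) ^ (1 / p)) ^ q * (1 - θ)) := by
        rw [Finset.sum_const, nsmul_eq_mul, mul_comm, ENNReal.ofReal_mul (by positivity)]
        simp
    _ ≤ ∑ k ∈ K, ∫⁻ s in J k, f s := Finset.sum_le_sum hone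
    _ = ∫⁻ s in ⋃ k ∈ K, J k, f s := (lintegral_biUnion_finset hdisj hJm f).symm
    _ ≤ ∫⁻ s in Ioi (0 : ℝ), f s := lintegral_mono_set hsub

end Pool.Agent.Lib.MP_8f79a4_an
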