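import Pool.Agent.Lib.MP_8f79a4_an.Energy

/-!
Upper bound for the Lorentz quasi-norm in the case `β = d`.
-/

set_option autoImplicit false

open MeasureTheory Set Filter
open scoped ENNReal Topology ComplexConjugate

namespace Pool.Agent.Lib.MP_8f79a4_an

variable {d : ℕ}

lemma rearrangement_le {g : EuclideanSpace ℝ (Fin d) → ℂ} {s : ℝ} {t : ℝ≥0∞}
    (h : volume {x | t < ‖g x‖ₑ} ≤ ENNReal.ofReal s) : rearrangement g s ≤ t := sInf_le h

lemma rearrangement_antitone (g : EuclideanSpace ℝ (Fin d) → ℂ) : Antitone (rearrangement g) := by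
  intro s s' hss'
  apply sInf_le_sInf
  intro t ht
  exact le_trans (show volume {x | t < ‖g x‖ₑ} ≤ ENNReal.ofReal s from ht)
    (ENNReal.ofReal_le_ofReal hss')

lemma one_div_eq_rpow_sq {s : ℝ} (hs : 0 < s) : 1 / s = (s ^ (-(1 / 2) : ℝ)) ^ 2 := by
  rw [← Real.rpow_natCast, ← Real.rpow_mul hs.le, one_div, ← Real.rpow_neg_one]
  congr 1
  norm_num

section

variable {F : EuclideanSpace ℝ (Fin d) → ℂ} (hFm : Continuous F)
  (hF2 : ∫⁻ ξ, ENNReal.ofReal (‖F ξ‖ ^ 2) ≤ 1)

include hFm hF2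

lemma rearrangement_le_sqrt {s : ℝ} (hs : 0 < s) :
    rearrangement F s ≤ ENNReal.ofReal (s ^ (-(1 / 2) : ℝ)) := by
  apply rearrangement_le
  have h1 : {x | ENNReal.ofReal (s ^ (-(1 / 2) : ℝ)) < ‖F x‖ₑ} ⊆
      {x | ENNReal.ofReal (1 / s) ≤ ENNReal.ofReal (‖F x‖ ^ 2)} := by
    intro x hx
    have hx' : ENNReal.ofReal (s ^ (-(1 / 2) : ℝ)) < ‖F x‖ₑ := hx
    rw [← ofReal_norm, ENNReal.ofReal_lt_ofReal_iff_of_nonneg (by positivity)] at hx'
    apply ENNReal.ofReal_le_ofReal
    rw [one_div_eq_rpow_sq hs]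
    gcongr
  refine (measure_mono h1).trans ?_
  have hc : Continuous fun x => ‖F x‖ ^ 2 := hFm.norm.pow 2
  have hm : Measurable fun x => ENNReal.ofReal (‖F x‖ ^ 2) := hc.measurable.ennreal_ofReal
  have h0 : ENNReal.ofReal (1 / s) ≠ 0 := by
    rw [Ne, ENNReal.ofReal_eq_zero, not_le]; positivity
  refine (meas_ge_le_lintegral_div hm.aemeasurable h0 ENNReal.ofReal_ne_top).trans ?_
  calc (∫⁻ x, ENNReal.ofReal (‖F x‖ ^ 2)) / ENNReal.ofReal (1 / s)
      ≤ 1 / ENNReal.ofReal (1 / s) := by gcongr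
    _ = ENNReal.ofReal s := by
        rw [one_div, one_div, ENNReal.ofReal_inv_of_pos hs, inv_inv]

lemma lintegral_rearrangement_le :
    ∫⁻ s in Ioi (0 : ℝ), rearrangement F (s / 2) ^ (2 : ℝ) ≤ 2 := by
  set r : ℝ → ℝ := fun s => (rearrangement F (s / 2)).toReal with hr
  have hfin : ∀ s, 0 < s → rearrangement F (s / 2) ≠ ∞ := fun s hs =>
    ne_top_of_le_ne_top ENNReal.ofReal_ne_top (rearrangement_le_sqrt hFm hF2 (by positivity))
  have h1 : ∫⁻ s in Ioi (0 : ℝ), rearrangement F (s / 2) ^ (2 : ℝ) =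
      ∫⁻ s in Ioi (0 : ℝ), ENNReal.ofReal (r s ^ (2 : ℝ)) := by
    apply setLIntegral_congr_fun measurableSet_Ioi
    intro s hs
    simp only [hr]
    rw [← ENNReal.ofReal_rpow_of_nonneg ENNReal.toReal_nonneg (by norm_num),
      ENNReal.ofReal_toReal (hfin s hs)]
  have hmeas : Measurable r := by
    have hm : Measurable (rearrangement F) := (rearrangement_antitone F).measurable
    exact (hm.comp (measurable_id.div_const 2)).ennreal_toReal
  rw [h1, lintegral_rpow_eq_lintegral_meas_lt_mul (volume.restrict (Ioi 0))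
    (Eventually.of_forall fun s => ENNReal.toReal_nonneg) hmeas.aemeasurable (by norm_num)]
  have h2 := lintegral_rpow_eq_lintegral_meas_lt_mul
    (volume : Measure (EuclideanSpace ℝ (Fin d)))
    (f := fun x => ‖F x‖) (Eventually.of_forall fun s => norm_nonneg _)
    hFm.norm.measurable.aemeasurable (p := 2) (by norm_num)
  have h3 : ∫⁻ x, ENNReal.ofReal (‖F x‖ ^ (2 : ℝ)) = ∫⁻ x, ENNReal.ofReal (‖F x‖ ^ 2) := by
    congr 1
    funext x
    rw [Real.rpow_two]
  rw [h3] at h2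
  calc ENNReal.ofReal 2 * ∫⁻ t in Ioi (0 : ℝ),
        (volume.restrict (Ioi 0)) {s | t < r s} * ENNReal.ofReal (t ^ ((2 : ℝ) - 1))
      ≤ ENNReal.ofReal 2 * ∫⁻ t in Ioi (0 : ℝ),
        2 * (volume {x | t < ‖F x‖} * ENNReal.ofReal (t ^ ((2 : ℝ) - 1))) := by
        gcongr ENNReal.ofReal 2 * ?_
        apply setLIntegral_mono' measurableSet_Ioi
        intro t ht
        rw [← mul_assoc]
        gcongr
        set D := volume {x | t < ‖F x‖} with hD
        by_cases hDt : D = ∞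
        · rw [hDt, ENNReal.mul_top (by norm_num)]
          exact le_top
        · have ht0 : (0 : ℝ) < t := ht
          rw [Measure.restrict_apply (measurableSet_lt measurable_const hmeas)]
          have hsub : {s | t < r s} ∩ Ioi 0 ⊆ Ioo 0 (2 * D.toReal) := by
            rintro s ⟨hs1, hs2⟩
            refine ⟨hs2, ?_⟩
            have h4 : ENNReal.ofReal t < rearrangement F (s / 2) :=
              (ENNReal.ofReal_lt_iff_lt_toReal ht0.le (hfin s hs2)).2 hs1
            have h5 : ENNReal.ofReal (s / 2) < D := by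
              by_contra hcon
              push Not at hcon
              apply absurd h4
              rw [not_lt]
              apply rearrangement_le
              refine le_trans (measure_mono ?_) hcon
              intro x hx
              have hx' : ENNReal.ofReal t < ‖F x‖ₑ := hx
              rw [← ofReal_norm, ENNReal.ofReal_lt_ofReal_iff_of_nonneg ht0.le] at hx'
              exact hx'
            have h6 : s / 2 < D.toReal := by
              have hs2' : (0 : ℝ) < s := hs2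
              exact (ENNReal.ofReal_lt_iff_lt_toReal (by positivity) hDt).1 h5
            linarith
          refine (measure_mono hsub).trans ?_
          rw [Real.volume_Ioo, sub_zero, ENNReal.ofReal_mul (by norm_num),
            ENNReal.ofReal_toReal hDt]
          simp
    _ = 2 * (ENNReal.ofReal 2 * ∫⁻ t in Ioi (0 : ℝ),
        volume {x | t < ‖F x‖} * ENNReal.ofReal (t ^ ((2 : ℝ) - 1))) := by
        rw [lintegral_const_mul' _ _ (by norm_num)]
        ring
    _ = 2 * ∫⁻ x, ENNReal.ofReal (‖F x‖ ^ 2) := by rw [h2]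
    _ ≤ 2 * 1 := by gcongr
    _ = 2 := mul_one _

end

/-- Volume of the unit ball. -/
noncomputable def ωb (d : ℕ) : ℝ :=
  (volume (Metric.ball (0 : EuclideanSpace ℝ (Fin d)) 1)).toReal

lemma ωb_pos (d : ℕ) : 0 < ωb d := by
  unfold ωb
  apply ENNReal.toReal_pos
  · exact (Metric.measure_ball_pos volume _ one_pos).ne'
  · exact measure_ball_lt_top.ne

/-- The constant. -/
noncomputable def cR (d : ℕ) (α : ℝ) : ℝ := (ωb d * ((2 * Real.pi) ^ d)⁻¹) ^ (α / d)

lemma cR_pos (d : ℕ) (α : ℝ) : 0 < cR d α := by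
  unfold cR
  have := ωb_pos d
  have := Real.pi_pos
  positivity

/-- Distribution function of the Riesz multiplier. -/
lemma volume_multiplier_le (hd : 1 ≤ d) {α : ℝ} (hα : 0 < α) {s : ℝ} (hs : 0 < s) :
    volume {ξ : EuclideanSpace ℝ (Fin d) | cR d α * s ^ (-(α / d)) < (2 * Real.pi * ‖ξ‖) ^ (-α)} ≤
      ENNReal.ofReal s := by
  have hpi := Real.pi_pos
  have hd0 : (0 : ℝ) < d := by exact_mod_cast hd
  have hc := cR_pos d α
  have hω := ωb_pos d
  set a : ℝ := cR d α * s ^ (-(α / d)) with ha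
  have ha0 : 0 < a := by positivity
  set ρ : ℝ := a ^ (-(1 / α)) / (2 * Real.pi) with hρ
  have hρ0 : 0 ≤ ρ := by positivity
  have hsub : {ξ : EuclideanSpace ℝ (Fin d) | a < (2 * Real.pi * ‖ξ‖) ^ (-α)} ⊆
      Metric.ball 0 ρ := by
    intro ξ hξ
    have hξ' : a < (2 * Real.pi * ‖ξ‖) ^ (-α) := hξ
    have hξ0 : 0 < ‖ξ‖ := by
      by_contra hcon
      have h0 : ‖ξ‖ = 0 := le_antisymm (not_lt.1 hcon) (norm_nonneg _)
      rw [h0, mul_zero, Real.zero_rpow (by linarith)] at hξ'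
      linarith
    rw [mem_ball_zero_iff, hρ, lt_div_iff₀ (by positivity)]
    have h1 : (2 * Real.pi * ‖ξ‖) = ((2 * Real.pi * ‖ξ‖) ^ (-α)) ^ (-(1 / α)) := by
      rw [← Real.rpow_mul (by positivity)]
      have : -α * -(1 / α) = 1 := by field_simp
      rw [this, Real.rpow_one]
    have h2 : ((2 * Real.pi * ‖ξ‖) ^ (-α)) ^ (-(1 / α)) < a ^ (-(1 / α)) := by
      apply Real.rpow_lt_rpow_of_neg ha0 hξ'
      rw [neg_lt_zero]; positivity
    rw [← h1] at h2
    linarith
  refine (measure_mono hsub).trans ?_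
  have hne : Nonempty (Fin d) := ⟨⟨0, hd⟩⟩
  have hnt : Nontrivial (EuclideanSpace ℝ (Fin d)) := inferInstance
  rw [Measure.addHaar_ball volume _ hρ0, finrank_euclideanSpace, Fintype.card_fin]
  have hfin : volume (Metric.ball (0 : EuclideanSpace ℝ (Fin d)) 1) ≠ ∞ := measure_ball_lt_top.ne
  rw [← ENNReal.ofReal_toReal hfin, ← ENNReal.ofReal_mul (by positivity)]
  apply ENNReal.ofReal_le_ofReal
  change ρ ^ d * ωb d ≤ s
  apply le_of_eq
  have e1 : (a ^ (-(1 / α))) ^ d = a ^ (-(d / α)) := by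
    rw [← Real.rpow_natCast, ← Real.rpow_mul ha0.le]
    congr 1
    ring
  have e2 : a ^ (-(d / α)) = (ωb d * ((2 * Real.pi) ^ d)⁻¹)⁻¹ * s := by
    rw [ha, Real.mul_rpow hc.le (by positivity), cR, ← Real.rpow_mul (by positivity),
      ← Real.rpow_mul hs.le]
    have e3 : α / d * -(d / α) = -1 := by field_simp
    have e4 : -(α / d) * -(d / α) = 1 := by field_simp
    rw [e3, e4, Real.rpow_neg_one, Real.rpow_one]
  rw [hρ, div_pow, e1, e2]
  field_simp

section

variable {F : EuclideanSpace ℝ (Fin d) → ℂ} (hFm : Continuous F)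
  (hF2 : ∫⁻ ξ, ENNReal.ofReal (‖F ξ‖ ^ 2) ≤ 1)

lemma rearrangement_mul_le (F : EuclideanSpace ℝ (Fin d) → ℂ) (hd : 1 ≤ d) {α : ℝ} (hα : 0 < α)
    {s : ℝ} (hs : 0 < s) :
    rearrangement (fun ξ => (((2 * Real.pi * ‖ξ‖) ^ (-α) : ℝ) : ℂ) * F ξ) s ≤
      ENNReal.ofReal (cR d α * (s / 2) ^ (-(α / d))) * rearrangement F (s / 2) := by
  have hpi := Real.pi_pos
  have hc := cR_pos d α
  have hs2 : 0 < s / 2 := by positivity
  set a : ℝ := cR d α * (s / 2) ^ (-(α / d)) with ha
  have ha0 : 0 < a := by positivity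
  have ha0' : ENNReal.ofReal a ≠ 0 := by
    rw [Ne, ENNReal.ofReal_eq_zero, not_le]; exact ha0
  rw [mul_comm (ENNReal.ofReal a), ← ENNReal.div_le_iff ha0' ENNReal.ofReal_ne_top]
  apply le_sInf
  intro lam hlam
  have hlam' : volume {x | lam < ‖F x‖ₑ} ≤ ENNReal.ofReal (s / 2) := hlam
  rw [ENNReal.div_le_iff ha0' ENNReal.ofReal_ne_top]
  apply rearrangement_le
  have hsub : {ξ : EuclideanSpace ℝ (Fin d) | lam * ENNReal.ofReal a <
      ‖(((2 * Real.pi * ‖ξ‖) ^ (-α) : ℝ) : ℂ) * F ξ‖ₑ} ⊆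
      {x | lam < ‖F x‖ₑ} ∪ {ξ | a < (2 * Real.pi * ‖ξ‖) ^ (-α)} := by
    intro ξ hξ
    by_contra hcon
    rw [mem_union, not_or] at hcon
    obtain ⟨h1, h2⟩ := hcon
    have h1' : ‖F ξ‖ₑ ≤ lam := not_lt.1 h1
    have h2' : (2 * Real.pi * ‖ξ‖) ^ (-α) ≤ a := not_lt.1 h2
    have hξ' : lam * ENNReal.ofReal a < ‖(((2 * Real.pi * ‖ξ‖) ^ (-α) : ℝ) : ℂ) * F ξ‖ₑ := hξ
    apply absurd hξ'
    rw [not_lt, enorm_mul]
    have h3 : ‖(((2 * Real.pi * ‖ξ‖) ^ (-α) : ℝ) : ℂ)‖ₑ =
        ENNReal.ofReal ((2 * Real.pi * ‖ξ‖) ^ (-α)) := by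
      rw [← ofReal_norm, Complex.norm_real, Real.norm_eq_abs, abs_of_nonneg (by positivity)]
    rw [h3, mul_comm]
    gcongr
  refine (measure_mono hsub).trans ((measure_union_le _ _).trans ?_)
  calc _ ≤ ENNReal.ofReal (s / 2) + ENNReal.ofReal (s / 2) :=
        add_le_add hlam' (volume_multiplier_le hd hα hs2)
    _ = ENNReal.ofReal s := by
        rw [← ENNReal.ofReal_add hs2.le hs2.le, add_halves]

include hFm hF2

/-- The Lorentz bound. -/
theorem lorentz_upper (hd : 1 ≤ d) {α p q : ℝ} (hα : 0 < α) (hp : p = 2 * d / (2 * α + d))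
    (hq : 2 ≤ q) :
    lorentzNorm p q (fun ξ => (((2 * Real.pi * ‖ξ‖) ^ (-α) : ℝ) : ℂ) * F ξ) ≤
      (ENNReal.ofReal (cR d α * 2 ^ (α / d)) ^ q * ENNReal.ofReal (√2) ^ (q - 2) * 2) ^ (1 / q) := by
  have hc := cR_pos d α
  have hd0 : (0 : ℝ) < d := by exact_mod_cast hd
  unfold lorentzNorm
  apply ENNReal.rpow_le_rpow _ (by positivity)
  have hpt : ∀ s ∈ Ioi (0 : ℝ), (ENNReal.ofReal (s ^ (1 / p)) *
      rearrangement (fun ξ => (((2 * Real.pi * ‖ξ‖) ^ (-α) : ℝ) : ℂ) * F ξ) s) ^ q *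
      ENNReal.ofReal (1 / s) ≤
      (ENNReal.ofReal (cR d α * 2 ^ (α / d)) ^ q * ENNReal.ofReal (√2) ^ (q - 2)) *
        rearrangement F (s / 2) ^ (2 : ℝ) := by
    intro s hs
    have hs0 : (0 : ℝ) < s := hs
    have hs2 : 0 < s / 2 := by positivity
    set R := rearrangement F (s / 2) with hR
    set X : ℝ≥0∞ := ENNReal.ofReal (s ^ (1 / 2 : ℝ)) * R with hX
    have h1 : ENNReal.ofReal (s ^ (1 / p)) *
        rearrangement (fun ξ => (((2 * Real.pi * ‖ξ‖) ^ (-α) : ℝ) : ℂ) * F ξ) s ≤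
        ENNReal.ofReal (cR d α * 2 ^ (α / d)) * X := by
      calc _ ≤ ENNReal.ofReal (s ^ (1 / p)) *
            (ENNReal.ofReal (cR d α * (s / 2) ^ (-(α / d))) * R) := by
            gcongr
            exact rearrangement_mul_le F hd hα hs0
        _ = ENNReal.ofReal (cR d α * 2 ^ (α / d)) * X := by
            rw [hX, ← mul_assoc, ← mul_assoc, ← ENNReal.ofReal_mul (by positivity),
              ← ENNReal.ofReal_mul (by positivity)]
            congr 2
            have e1 : 1 / p = α / d + 1 / 2 := by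
              rw [hp]; field_simp
            have e2 : (s / 2) ^ (-(α / d)) = s ^ (-(α / d)) * 2 ^ (α / d) := by
              rw [Real.div_rpow hs0.le (by norm_num), Real.rpow_neg (by norm_num : (0:ℝ) ≤ 2)]
              field_simp
            have e3 : s ^ (α / d) * s ^ (-(α / d)) = 1 := by
              rw [← Real.rpow_add hs0, add_neg_cancel, Real.rpow_zero]
            rw [e1, e2, Real.rpow_add hs0]
            linear_combination (s ^ (1 / 2 : ℝ) * cR d α * 2 ^ (α / d)) * e3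
    have h2 : X ≤ ENNReal.ofReal (√2) := by
      calc X ≤ ENNReal.ofReal (s ^ (1 / 2 : ℝ)) * ENNReal.ofReal ((s / 2) ^ (-(1 / 2) : ℝ)) := by
            rw [hX]
            gcongr
            exact rearrangement_le_sqrt hFm hF2 hs2
        _ = ENNReal.ofReal (√2) := by
            rw [← ENNReal.ofReal_mul (by positivity)]
            congr 1
            have e3 : s ^ (1 / 2 : ℝ) * s ^ (-(1 / 2) : ℝ) = 1 := by
              rw [← Real.rpow_add hs0]; norm_num
            have e2 : (s / 2) ^ (-(1 / 2) : ℝ) = s ^ (-(1 / 2) : ℝ) * √2 := by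
              rw [Real.div_rpow hs0.le (by norm_num), Real.rpow_neg (by norm_num : (0:ℝ) ≤ 2),
                Real.sqrt_eq_rpow]
              field_simp
            rw [e2]
            linear_combination (√2) * e3
    have h3 : X ^ q ≤ ENNReal.ofReal (√2) ^ (q - 2) * X ^ (2 : ℝ) := by
      have e : X ^ q = X ^ (q - 2) * X ^ (2 : ℝ) := by
        rw [← ENNReal.rpow_add_of_nonneg _ _ (by linarith) (by norm_num)]
        congr 1
        ring
      rw [e]
      gcongr
    have h4 : X ^ (2 : ℝ) * ENNReal.ofReal (1 / s) = R ^ (2 : ℝ) := by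
      rw [hX, ENNReal.mul_rpow_of_nonneg _ _ (by norm_num),
        ENNReal.ofReal_rpow_of_nonneg (by positivity) (by norm_num), ← Real.rpow_mul hs0.le]
      norm_num
      rw [mul_assoc, mul_comm (R ^ 2), ← mul_assoc, ← ENNReal.ofReal_mul hs0.le,
        mul_inv_cancel₀ hs0.ne', ENNReal.ofReal_one, one_mul]
    calc _ ≤ (ENNReal.ofReal (cR d α * 2 ^ (α / d)) * X) ^ q * ENNReal.ofReal (1 / s) := by
          gcongr
      _ = ENNReal.ofReal (cR d α * 2 ^ (α / d)) ^ q * X ^ q * ENNReal.ofReal (1 / s) := by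
          rw [ENNReal.mul_rpow_of_nonneg _ _ (by linarith)]
      _ ≤ ENNReal.ofReal (cR d α * 2 ^ (α / d)) ^ q *
          (ENNReal.ofReal (√2) ^ (q - 2) * X ^ (2 : ℝ)) * ENNReal.ofReal (1 / s) := by
          gcongr
      _ = ENNReal.ofReal (cR d α * 2 ^ (α / d)) ^ q * ENNReal.ofReal (√2) ^ (q - 2) *
          (X ^ (2 : ℝ) * ENNReal.ofReal (1 / s)) := by ring
      _ = _ := by rw [h4]
  calc _ ≤ ∫⁻ s in Ioi (0 : ℝ), (ENNReal.ofReal (cR d α * 2 ^ (α / d)) ^ q *
        ENNReal.ofReal (√2) ^ (q - 2)) * rearrangement F (s / 2) ^ (2 : ℝ) :=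
        setLIntegral_mono' measurableSet_Ioi hpt
    _ = (ENNReal.ofReal (cR d α * 2 ^ (α / d)) ^ q * ENNReal.ofReal (√2) ^ (q - 2)) *
        ∫⁻ s in Ioi (0 : ℝ), rearrangement F (s / 2) ^ (2 : ℝ) := by
        apply lintegral_const_mul'
        apply ENNReal.mul_ne_top
        · exact ENNReal.rpow_ne_top_of_nonneg (by linarith) ENNReal.ofReal_ne_top
        · exact ENNReal.rpow_ne_top_of_nonneg (by linarith) ENNReal.ofReal_ne_top
    _ ≤ _ := by
        gcongr
        exact lintegral_rearrangement_le hFm hF2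

end

/-- The case `β = d`, `q ≥ 2`: a uniform bound. -/
theorem case_eq_upper (hd : 1 ≤ d) {α p q : ℝ} (hα : 0 < α) (hp : p = 2 * d / (2 * α + d))
    (hq : 2 ≤ q) : ∃ C : ℝ, ∀ μ : SignedMeasure (EuclideanSpace ℝ (Fin d)),
      massNorm μ ≤ 1 → besovNorm (d : ℝ) μ ≤ 1 →
        lorentzNorm p q (rieszFourier α μ) ≤ ENNReal.ofReal C := by
  set K : ℝ≥0∞ := (ENNReal.ofReal (cR d α * 2 ^ (α / d)) ^ q * ENNReal.ofReal (√2) ^ (q - 2) *
    2) ^ (1 / q) with hK
  have hKfin : K ≠ ∞ := by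
    apply ENNReal.rpow_ne_top_of_nonneg (by positivity)
    apply ENNReal.mul_ne_top _ (by norm_num)
    apply ENNReal.mul_ne_top
    · exact ENNReal.rpow_ne_top_of_nonneg (by linarith) ENNReal.ofReal_ne_top
    · exact ENNReal.rpow_ne_top_of_nonneg (by linarith) ENNReal.ofReal_ne_top
  refine ⟨K.toReal, fun μ hμ1 hμ2 => ?_⟩
  rw [ENNReal.ofReal_toReal hKfin]
  set P := μ.toJordanDecomposition.posPart with hP
  set M := μ.toJordanDecomposition.negPart with hM
  have hPfin : IsFiniteMeasure P := μ.toJordanDecomposition.posPart_finite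
  have hMfin : IsFiniteMeasure M := μ.toJordanDecomposition.negPart_finite
  have hmass : P.real univ + M.real univ ≤ 1 := by
    have h1 : P univ + M univ ≤ 1 := hμ1
    have h2 := ENNReal.toReal_mono ENNReal.one_ne_top h1
    rw [ENNReal.toReal_add (measure_ne_top _ _) (measure_ne_top _ _), ENNReal.toReal_one] at h2
    exact h2
  have hb : ∀ t, 0 < t → ∀ x, |hc t P x - hc t M x| ≤ 1 := by
    intro t ht
    have h1 : ENNReal.ofReal (t ^ (((d : ℝ) - d) / 2)) * eLpNorm (heatConv t μ) ∞ volume ≤ 1 := by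
      refine le_trans ?_ hμ2
      unfold besovNorm
      exact le_iSup₂ (f := fun (t : ℝ) (_ : 0 < t) => ENNReal.ofReal (t ^ (((d : ℝ) - d) / 2)) *
        eLpNorm (heatConv t μ) ∞ volume) t ht
    rw [sub_self, zero_div, Real.rpow_zero, ENNReal.ofReal_one, one_mul, eLpNorm_exponent_top] at h1
    have hcont : Continuous (heatConv t μ) := by
      have : heatConv t μ = fun x => hc t P x - hc t M x := rfl
      rw [this]
      exact (continuous_hc ht P).sub (continuous_hc ht M)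
    have hae : ∀ᵐ x, ‖heatConv t μ x‖ₑ ≤ 1 :=
      (ae_le_eLpNormEssSup (f := heatConv t μ)).mono fun x hx => hx.trans h1
    intro x
    by_contra hcon
    push Not at hcon
    set U : Set (EuclideanSpace ℝ (Fin d)) := {x | 1 < |heatConv t μ x|} with hU
    have hUo : IsOpen U := isOpen_lt continuous_const (hcont.abs)
    have hU0 : volume U = 0 := by
      rw [← nonpos_iff_eq_zero, ← ae_iff.1 hae]
      apply measure_mono
      intro y hy
      have hy' : 1 < |heatConv t μ y| := hy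
      change ¬ (‖heatConv t μ y‖ₑ ≤ 1)
      rw [not_le, ← ofReal_norm, ← ENNReal.ofReal_one,
        ENNReal.ofReal_lt_ofReal_iff_of_nonneg zero_le_one]
      exact hy'
    have hUe := hUo.eq_empty_of_measure_zero hU0
    have hx : x ∈ U := hcon
    rw [hUe] at hx
    exact hx
  have hF2 := l2_bound P M hmass hb
  have hFc : Continuous fun ξ => fp P ξ - fp M ξ := (continuous_fp P).sub (continuous_fp M)
  exact lorentz_upper hFc hF2 hd hα hp hq

end Pool.Agent.Lib.MP_8f79a4_an
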