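import Pool.Agent.Lib.MP_8f79a4_an.Tree

/-!
Fourier transforms of the random Cantor measures: anti-concentration at every scale.
-/

open MeasureTheory Set
open scoped ENNReal

namespace Pool.Agent.Lib.MP_8f79a4_an

/-- Fourier transform of a measure on the line. -/
noncomputable def ft (μ : Measure ℝ) (ξ : ℝ) : ℂ := ∫ x, ex (ξ * x) ∂μ

lemma integrable_ex (μ : Measure ℝ) [IsFiniteMeasure μ] {f : ℝ → ℝ} (hf : Measurable f) :
    Integrable (fun x => ex (f x)) μ := by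
  refine Integrable.of_bound (C := 1) ?_ ?_
  · exact (continuous_ex.measurable.comp hf).aestronglyMeasurable
  · exact Filter.Eventually.of_forall fun x => (norm_ex _).le

lemma ft_comb (r c : ℝ) (μ₀ μ₁ : Measure ℝ) [IsProbabilityMeasure μ₀] [IsProbabilityMeasure μ₁]
    (ξ : ℝ) :
    ft (comb r c μ₀ μ₁) ξ = 2⁻¹ * ft μ₀ (r * ξ) + (2⁻¹ * ex (ξ * c)) * ft μ₁ (r * ξ) := by
  have m0 : Measurable fun y : ℝ => r * y := by fun_prop
  have m1 : Measurable fun y : ℝ => c + r * y := by fun_prop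
  have : IsProbabilityMeasure (μ₀.map fun y => r * y) := Measure.isProbabilityMeasure_map (by fun_prop)
  have : IsProbabilityMeasure (μ₁.map fun y => c + r * y) :=
    Measure.isProbabilityMeasure_map (by fun_prop)
  have mx : Measurable fun x : ℝ => ξ * x := by fun_prop
  unfold ft comb
  rw [integral_add_measure, integral_smul_measure, integral_smul_measure, integral_map, integral_map]
  · have e0 : (fun x : ℝ => ex (ξ * (r * x))) = fun x => ex (r * ξ * x) := by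
      funext x; congr 1; ring
    have e1 : (fun x : ℝ => ex (ξ * (c + r * x))) = fun x => ex (ξ * c) * ex (r * ξ * x) := by
      funext x; rw [← ex_add]; congr 1; ring
    rw [e0, e1, integral_const_mul]
    simp only [ENNReal.toReal_inv, ENNReal.toReal_ofNat, Complex.real_smul, Complex.ofReal_inv,
      Complex.ofReal_ofNat]
    ring
  · exact m1.aemeasurable
  · exact (continuous_ex.comp (by fun_prop)).aestronglyMeasurable
  · exact m0.aemeasurable
  · exact (continuous_ex.comp (by fun_prop)).aestronglyMeasurable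
  · exact (integrable_ex _ mx).smul_measure (by simp)
  · exact (integrable_ex _ mx).smul_measure (by simp)

section

variable {b r a η : ℝ}

lemma half_le_ft (h : Par b r a η) (N : ℕ) (ω : Om N) {ζ : ℝ} (h0 : 0 ≤ ζ) (h1 : ζ ≤ 1 / 16) :
    1 / 2 ≤ ‖ft (mu r a η N ω) ζ‖ := by
  set μ := mu r a η N ω with hμ
  have mx : Measurable fun x : ℝ => ζ * x := by fun_prop
  have e : ft μ ζ - 1 = ∫ x, (ex (ζ * x) - 1) ∂μ := by
    rw [integral_sub (integrable_ex μ mx) (integrable_const _)]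
    simp [ft]
  have hle : ‖ft μ ζ - 1‖ ≤ 1 / 2 := by
    rw [e]
    have h2 : ∀ᵐ x ∂μ, ‖ex (ζ * x) - 1‖ ≤ 1 / 2 := by
      have h3 : ∀ᵐ x ∂μ, x ∈ Icc (0 : ℝ) 1 := by
        rw [ae_iff]
        exact mu_supp h N ω
      filter_upwards [h3] with x hx
      refine (norm_ex_sub_one_le _).trans ?_
      rw [abs_mul, abs_of_nonneg h0, abs_of_nonneg hx.1]
      have h4 : ζ * x ≤ 1 / 16 := by
        calc ζ * x ≤ ζ * 1 := by gcongr; exact hx.2
          _ ≤ 1 / 16 := by linarith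
      nlinarith [Real.pi_lt_four, Real.pi_pos, mul_nonneg h0 hx.1]
    calc ‖∫ x, (ex (ζ * x) - 1) ∂μ‖ ≤ (1 / 2) * μ.real univ := norm_integral_le_of_norm_le_const h2
      _ = 1 / 2 := by simp
  have h5 : ‖(1 : ℂ)‖ ≤ ‖ft μ ζ‖ + ‖ft μ ζ - 1‖ := by
    have : (1 : ℂ) = ft μ ζ - (ft μ ζ - 1) := by ring
    calc ‖(1 : ℂ)‖ = ‖ft μ ζ - (ft μ ζ - 1)‖ := by rw [← this]
      _ ≤ _ := norm_sub_le _ _
  rw [norm_one] at h5
  linarith

/-- The average over all labelled trees. -/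
noncomputable def Ex (N : ℕ) (f : Om N → ℝ) : ℝ := (Fintype.card (Om N) : ℝ)⁻¹ * ∑ ω, f ω

lemma card_pos (N : ℕ) : (0 : ℝ) < Fintype.card (Om N) := by
  exact_mod_cast Fintype.card_pos

lemma Ex_mono (N : ℕ) {f g : Om N → ℝ} (h : ∀ ω, f ω ≤ g ω) : Ex N f ≤ Ex N g := by
  unfold Ex
  have := card_pos N
  gcongr with ω
  exact h ω

lemma Ex_const (N : ℕ) (c : ℝ) : Ex N (fun _ => c) = c := by
  unfold Ex
  have := card_pos N
  rw [Finset.sum_const, Finset.card_univ, nsmul_eq_mul]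
  field_simp

lemma le_Ex (N : ℕ) {f : Om N → ℝ} {κ : ℝ} (h : ∀ ω, κ ≤ f ω) : κ ≤ Ex N f := by
  rw [← Ex_const N κ]
  exact Ex_mono N h

lemma Ex_add (N : ℕ) (f g : Om N → ℝ) : Ex N (fun ω => f ω + g ω) = Ex N f + Ex N g := by
  unfold Ex
  rw [Finset.sum_add_distrib, mul_add]

lemma Ex_div (N : ℕ) (f : Om N → ℝ) (c : ℝ) : Ex N (fun ω => f ω / c) = Ex N f / c := by
  unfold Ex
  rw [← Finset.sum_div, mul_div_assoc]

lemma Ex_sum {ι : Type*} (s : Finset ι) (N : ℕ) (f : ι → Om N → ℝ) :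
    Ex N (fun ω => ∑ i ∈ s, f i ω) = ∑ i ∈ s, Ex N (f i) := by
  unfold Ex
  rw [← Finset.mul_sum, Finset.sum_comm]

lemma Ex_succ (N : ℕ) (f : Om (N + 1) → ℝ) :
    Ex (N + 1) f = (Ex N (fun ω₀ => Ex N fun ω₁ => f (true, ω₀, ω₁)) +
      Ex N (fun ω₀ => Ex N fun ω₁ => f (false, ω₀, ω₁))) / 2 := by
  have e1 : ∑ ω, f ω = ∑ s : Bool, ∑ ω₀ : Om N, ∑ ω₁ : Om N, f (s, ω₀, ω₁) := by
    have := Fintype.sum_prod_type (γ := ℝ) (α₁ := Bool) (α₂ := Om N × Om N) f
    refine this.trans ?_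
    refine Finset.sum_congr rfl fun s _ => ?_
    exact Fintype.sum_prod_type _
  have e2 : Fintype.card (Om (N + 1)) = 2 * (Fintype.card (Om N) * Fintype.card (Om N)) := by
    have : Fintype.card (Om (N + 1)) = Fintype.card (Bool × Om N × Om N) := rfl
    rw [this, Fintype.card_prod, Fintype.card_prod, Fintype.card_bool]
  have hc := card_pos N
  unfold Ex
  rw [e1, e2, Fintype.sum_bool]
  simp_rw [← Finset.mul_sum]
  push_cast
  field_simp

lemma exists_ge_Ex (N : ℕ) (f : Om N → ℝ) : ∃ ω, Ex N f ≤ f ω := by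
  by_contra hcon
  push Not at hcon
  have hc := card_pos N
  have : Ex N f < Ex N f := by
    conv_lhs => unfold Ex
    have h1 : ∑ ω, f ω < ∑ _ω : Om N, Ex N f :=
      Finset.sum_lt_sum_of_nonempty Finset.univ_nonempty fun ω _ => hcon ω
    rw [Finset.sum_const, Finset.card_univ, nsmul_eq_mul] at h1
    rw [inv_mul_lt_iff₀ hc]
    exact h1
  exact lt_irrefl _ this

/-- The random variable `Z` is a mixture of shifted Rademacher sums of variance at least `v`. -/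
def InM (N : ℕ) (v : ℝ) (Z : Om N → ℂ) : Prop :=
  ∀ (κ : ℝ) (Φ : ℂ → ℝ), (∀ l A, v ≤ V l → κ ≤ Rad l Φ A) → κ ≤ Ex N fun ω => Φ (Z ω)

lemma Rad_Ex (N : ℕ) (l : List ℂ) (Φ : Om N → ℂ → ℝ) (A : ℂ) :
    Rad l (fun z => Ex N fun ω => Φ ω z) A = Ex N fun ω => Rad l (Φ ω) A := by
  induction l generalizing A with
  | nil => rfl
  | cons b l ih =>
    simp only [Rad_cons]
    rw [ih, ih, ← Ex_add, ← Ex_div]

lemma Rad_affine (l : List ℂ) (Φ : ℂ → ℝ) (c e A : ℂ) :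
    Rad l (fun z => Φ (c * z + e)) A = Rad (l.map fun b => c * b) Φ (c * A + e) := by
  induction l generalizing A with
  | nil => rfl
  | cons b l ih =>
    simp only [List.map_cons, Rad_cons, ih]
    congr 2 <;> congr 1 <;> ring

/-- Closure of mixtures under independent sums. -/
lemma InM_add {N : ℕ} {v₀ v₁ : ℝ} {Z₀ Z₁ : Om N → ℂ} (h₀ : InM N v₀ Z₀) (h₁ : InM N v₁ Z₁)
    (c₀ c₁ : ℂ) (κ : ℝ) (Φ : ℂ → ℝ)
    (hΦ : ∀ l A, ‖c₀‖ ^ 2 * v₀ + ‖c₁‖ ^ 2 * v₁ ≤ V l → κ ≤ Rad l Φ A) :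
    κ ≤ Ex N fun ω₀ => Ex N fun ω₁ => Φ (c₀ * Z₀ ω₀ + c₁ * Z₁ ω₁) := by
  apply h₀ κ (fun y => Ex N fun ω₁ => Φ (c₀ * y + c₁ * Z₁ ω₁))
  intro l A hl
  rw [Rad_Ex]
  apply h₁ κ (fun z => Rad l (fun y => Φ (c₀ * y + c₁ * z)) A)
  intro l' A' hl'
  have e1 : (fun z => Rad l (fun y => Φ (c₀ * y + c₁ * z)) A) =
      fun z => Rad (l.map fun b => c₀ * b) Φ (c₁ * z + c₀ * A) := by
    funext z
    rw [Rad_affine, add_comm]
  rw [e1, Rad_affine l' (fun w => Rad (l.map fun b => c₀ * b) Φ w), ← Rad_append]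
  apply hΦ
  rw [V_append, V_map_mul, V_map_mul]
  have := mul_le_mul_of_nonneg_left hl (sq_nonneg ‖c₀‖)
  have := mul_le_mul_of_nonneg_left hl' (sq_nonneg ‖c₁‖)
  linarith

/-- The variance constant. -/
noncomputable def v1 (r η : ℝ) : ℝ := (η / (8 * r)) ^ 2 / 64

lemma v1_pos (h : Par b r a η) : 0 < v1 r η := by
  unfold v1
  have := h.r_pos
  have := h.η_pos
  positivity

lemma le_norm_ex_sub_one {x : ℝ} (h0 : 0 ≤ x) (h1 : x ≤ 1 / 2) : 4 * x ≤ ‖ex x - 1‖ := by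
  unfold ex
  have h := Complex.norm_exp_I_mul_ofReal_sub_one (-2 * Real.pi * x)
  rw [mul_comm Complex.I] at h
  rw [h]
  have e : -2 * Real.pi * x / 2 = -(Real.pi * x) := by ring
  rw [e, Real.sin_neg, mul_neg, norm_neg, Real.norm_eq_abs]
  have h2 : 2 / Real.pi * (Real.pi * x) ≤ Real.sin (Real.pi * x) := by
    apply Real.mul_le_sin
    · positivity
    · nlinarith [Real.pi_pos]
  have e2 : 2 / Real.pi * (Real.pi * x) = 2 * x := by
    have := Real.pi_pos
    field_simp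
  rw [e2] at h2
  calc 4 * x = 2 * (2 * x) := by ring
    _ ≤ 2 * Real.sin (Real.pi * x) := by gcongr
    _ ≤ _ := le_abs_self _

/-- Anti-concentration at stage `k`. -/
lemma InM_ft (h : Par b r a η) (k : ℕ) : ∀ (N : ℕ) (_ : k + 1 ≤ N) (ξ : ℝ)
    (_ : 1 / 32 ≤ r ^ (k + 1) * ξ) (_ : r ^ (k + 1) * ξ ≤ 1 / 16),
    InM N (v1 r η / 2 ^ k) fun ω => ft (mu r a η N ω) ξ := by
  have hr := h.r_pos
  have hη := h.η_pos
  induction k with
  | zero =>
    intro N hN ξ h1 h2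
    obtain ⟨M, rfl⟩ : ∃ M, N = M + 1 := ⟨N - 1, by omega⟩
    simp only [zero_add, pow_one] at h1 h2
    simp only [pow_zero, div_one]
    intro κ Φ hΦ
    rw [Ex_succ]
    rw [← Ex_add]
    have key : ∀ ω₀ ω₁ : Om M, 2 * κ ≤ Φ (ft (mu r a η (M + 1) (true, ω₀, ω₁)) ξ) +
        Φ (ft (mu r a η (M + 1) (false, ω₀, ω₁)) ξ) := by
      intro ω₀ ω₁
      set f₀ := ft (mu r a η M ω₀) (r * ξ) with hf₀
      set f₁ := ft (mu r a η M ω₁) (r * ξ) with hf₁
      set w := ex (ξ * η) with hw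
      have e1 : ft (mu r a η (M + 1) (true, ω₀, ω₁)) ξ =
          2⁻¹ * f₀ + (2⁻¹ * (ex (ξ * a) * w)) * f₁ := by
        simp only [mu]
        rw [ft_comb]
        simp only [if_true]
        rw [hw, ← ex_add]
        congr 4
        ring
      have e2 : ft (mu r a η (M + 1) (false, ω₀, ω₁)) ξ =
          2⁻¹ * f₀ + (2⁻¹ * ex (ξ * a)) * f₁ := by
        simp only [mu]
        rw [ft_comb]
        simp [hf₀, hf₁]
      set A : ℂ := 2⁻¹ * f₀ + (2⁻¹ * ex (ξ * a)) * f₁ * ((1 + w) / 2) with hA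
      set B : ℂ := (2⁻¹ * ex (ξ * a)) * f₁ * ((w - 1) / 2) with hB
      have e1' : 2⁻¹ * f₀ + (2⁻¹ * (ex (ξ * a) * w)) * f₁ = A + B := by rw [hA, hB]; ring
      have e2' : 2⁻¹ * f₀ + (2⁻¹ * ex (ξ * a)) * f₁ = A - B := by rw [hA, hB]; ring
      rw [e1, e2, e1', e2']
      have hr' : κ ≤ Rad [B] Φ A := by
        apply hΦ
        rw [V_cons, V_nil, add_zero]
        have hf : 1 / 2 ≤ ‖f₁‖ := half_le_ft h M ω₁ (by linarith) h2
        have hξ : 0 < ξ := by
          by_contra hcon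
          push Not at hcon
          nlinarith
        have h3 : ξ * η ≤ 1 / 16 := by
          calc ξ * η ≤ ξ * r := by gcongr; exact h.η_le
            _ ≤ 1 / 16 := by linarith
        have h4 : 4 * (ξ * η) ≤ ‖w - 1‖ := le_norm_ex_sub_one (by positivity) (by linarith)
        have h5 : η / (8 * r) ≤ ‖w - 1‖ := by
          refine le_trans ?_ h4
          rw [div_le_iff₀ (by positivity)]
          nlinarith
        have h6 : ‖B‖ = 2⁻¹ * ‖f₁‖ * (‖w - 1‖ / 2) := by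
          rw [hB, norm_mul, norm_mul, norm_mul, norm_ex, norm_div]
          simp
        rw [h6]
        unfold v1
        have h7 : 0 ≤ η / (8 * r) := by positivity
        calc (η / (8 * r)) ^ 2 / 64 = (2⁻¹ * (1 / 2) * ((η / (8 * r)) / 2)) ^ 2 := by ring
          _ ≤ (2⁻¹ * ‖f₁‖ * (‖w - 1‖ / 2)) ^ 2 := by gcongr
      rw [Rad_cons, Rad_nil, Rad_nil] at hr'
      linarith
    have h8 : 2 * κ ≤ Ex M fun ω₀ => (Ex M fun ω₁ => Φ (ft (mu r a η (M + 1) (true, ω₀, ω₁)) ξ)) +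
        Ex M fun ω₁ => Φ (ft (mu r a η (M + 1) (false, ω₀, ω₁)) ξ) := by
      apply le_Ex
      intro ω₀
      rw [← Ex_add]
      apply le_Ex
      intro ω₁
      exact key ω₀ ω₁
    linarith
  | succ k ih =>
    intro N hN ξ h1 h2
    obtain ⟨M, rfl⟩ : ∃ M, N = M + 1 := ⟨N - 1, by omega⟩
    have e : r ^ (k + 1) * (r * ξ) = r ^ (k + 1 + 1) * ξ := by ring
    have ih' := ih M (by omega) (r * ξ) (by rw [e]; exact h1) (by rw [e]; exact h2)
    intro κ Φ hΦ
    rw [Ex_succ]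
    have key : ∀ s : Bool, κ ≤ Ex M fun ω₀ => Ex M fun ω₁ =>
        Φ (ft (mu r a η (M + 1) (s, ω₀, ω₁)) ξ) := by
      intro s
      have e1 : ∀ ω₀ ω₁ : Om M, ft (mu r a η (M + 1) (s, ω₀, ω₁)) ξ =
          2⁻¹ * ft (mu r a η M ω₀) (r * ξ) +
          (2⁻¹ * ex (ξ * (a + if s then η else 0))) * ft (mu r a η M ω₁) (r * ξ) := by
        intro ω₀ ω₁
        simp only [mu]
        rw [ft_comb]
      simp_rw [e1]
      apply InM_add ih' ih'
      intro l A hl
      apply hΦ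
      refine le_trans (le_of_eq ?_) hl
      rw [norm_mul, norm_ex, mul_one, norm_inv]
      simp only [Complex.norm_ofNat]
      rw [pow_succ]
      field_simp
      ring
    linarith [key true, key false]

end

end Pool.Agent.Lib.MP_8f79a4_an
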