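import Pool.Agent.Lib.MP_8f79a4_an.Select
import Pool.Agent.Lib.MP_8f79a4_an.Heat
import Pool.Agent.Lib.MP_8f79a4_an.LorentzLower

/-!
Positive measures as signed measures; product measures.
-/

open MeasureTheory Set
open scoped ENNReal

namespace Pool.Agent.Lib.MP_8f79a4_an

variable {d : ℕ}

section Positive

variable (ν : Measure (EuclideanSpace ℝ (Fin d))) [IsFiniteMeasure ν]

lemma jordan_toSignedMeasure : ν.toSignedMeasure.toJordanDecomposition =
    ⟨ν, 0, Measure.MutuallySingular.zero_right⟩ := by
  apply SignedMeasure.toJordanDecomposition_eq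
  unfold JordanDecomposition.toSignedMeasure
  simp

lemma signedIntegral_toSignedMeasure {F : Type} [NormedAddCommGroup F] [NormedSpace ℝ F]
    (f : EuclideanSpace ℝ (Fin d) → F) :
    signedIntegral ν.toSignedMeasure f = ∫ y, f y ∂ν := by
  unfold signedIntegral
  rw [jordan_toSignedMeasure]
  simp

lemma massNorm_toSignedMeasure : massNorm ν.toSignedMeasure = ν univ := by
  unfold massNorm SignedMeasure.totalVariation
  rw [jordan_toSignedMeasure]
  simp

/-- Bound of the Besov norm of a positive measure from a pointwise bound. -/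
lemma besovNorm_le {β C : ℝ} (h : ∀ (t : ℝ), 0 < t → ∀ x : EuclideanSpace ℝ (Fin d),
    ∫ y, heatKernel d t (x - y) ∂ν ≤ C * t ^ ((β - d) / 2)) :
    besovNorm β ν.toSignedMeasure ≤ ENNReal.ofReal C := by
  unfold besovNorm
  refine iSup₂_le fun t ht => ?_
  have h1 : eLpNorm (heatConv t ν.toSignedMeasure) ∞ volume ≤
      ENNReal.ofReal (C * t ^ ((β - d) / 2)) := by
    rw [eLpNorm_exponent_top]
    refine eLpNormEssSup_le_of_ae_bound (Filter.Eventually.of_forall fun x => ?_)
    unfold heatConv
    rw [signedIntegral_toSignedMeasure, Real.norm_eq_abs, abs_of_nonneg]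
    · exact h t ht x
    · apply integral_nonneg
      intro y
      unfold heatKernel
      have := Real.pi_pos
      positivity
  calc _ ≤ ENNReal.ofReal (t ^ (((d : ℝ) - β) / 2)) * ENNReal.ofReal (C * t ^ ((β - d) / 2)) := by
        gcongr
    _ = ENNReal.ofReal C := by
        rw [← ENNReal.ofReal_mul (by positivity)]
        congr 1
        have : t ^ (((d : ℝ) - β) / 2) * t ^ ((β - d) / 2) = 1 := by
          rw [← Real.rpow_add ht]
          have : ((d : ℝ) - β) / 2 + (β - d) / 2 = 0 := by ring
          rw [this, Real.rpow_zero]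
        linear_combination C * this

end Positive

section Prod

variable (lam : Measure ℝ) [IsProbabilityMeasure lam]

/-- The product measure on `ℝ^d`. -/
noncomputable def prodMeasure (d : ℕ) : Measure (EuclideanSpace ℝ (Fin d)) :=
  (Measure.pi fun _ : Fin d => lam).map (WithLp.toLp 2)

instance : IsProbabilityMeasure (prodMeasure lam d) :=
  Measure.isProbabilityMeasure_map (WithLp.measurable_toLp 2 _).aemeasurable

omit [IsProbabilityMeasure lam] in
lemma integral_prodMeasure {F : Type} [NormedAddCommGroup F] [NormedSpace ℝ F]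
    (f : EuclideanSpace ℝ (Fin d) → F) :
    ∫ y, f y ∂(prodMeasure lam d) = ∫ y, f (WithLp.toLp 2 y) ∂(Measure.pi fun _ : Fin d => lam) := by
  unfold prodMeasure
  exact (MeasurableEquiv.toLp 2 (Fin d → ℝ)).measurableEmbedding.integral_map f

lemma ex_sum {ι : Type*} (s : Finset ι) (f : ι → ℝ) : ex (∑ i ∈ s, f i) = ∏ i ∈ s, ex (f i) := by
  classical
  induction s using Finset.induction_on with
  | empty => simp [ex_zero]
  | insert a s ha ih => rw [Finset.sum_insert ha, Finset.prod_insert ha, ex_add, ih]

lemma fourierTransform_prod (ξ : EuclideanSpace ℝ (Fin d)) :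
    fourierTransform (prodMeasure lam d).toSignedMeasure ξ = ∏ i, ft lam (ξ i) := by
  unfold fourierTransform
  rw [signedIntegral_toSignedMeasure, integral_prodMeasure]
  unfold ft
  rw [← integral_fintype_prod_eq_prod (fun i x => ex (ξ i * x))]
  congr 1
  funext y
  rw [← ex_sum]
  unfold ex
  congr 4

lemma heat_prod (t : ℝ) (ht : 0 < t) (x : EuclideanSpace ℝ (Fin d)) :
    ∫ y, heatKernel d t (x - y) ∂(prodMeasure lam d) = ∏ i, heat1 lam t (x i) := by
  rw [integral_prodMeasure]
  unfold heat1
  rw [← integral_fintype_prod_eq_prod (fun i y =>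
    (4 * Real.pi * t) ^ (-(1 : ℝ) / 2) * Real.exp (-(x i - y) ^ 2 / (4 * t)))]
  congr 1
  funext y
  rw [Finset.prod_mul_distrib, Finset.prod_const, ← Real.exp_sum, Finset.card_univ,
    Fintype.card_fin]
  unfold heatKernel
  have hpi := Real.pi_pos
  congr 1
  · rw [← Real.rpow_natCast, ← Real.rpow_mul (by positivity)]
    congr 1
    ring
  · congr 1
    rw [EuclideanSpace.norm_sq_eq, ← Finset.sum_div, ← Finset.sum_neg_distrib]
    congr 1
    refine Finset.sum_congr rfl fun i _ => ?_
    simp

/-- Volume of a cube like set. -/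
lemma volume_cube (G : Set ℝ) (hG : MeasurableSet G) :
    volume {x : EuclideanSpace ℝ (Fin d) | ∀ i, x i ∈ G} = volume G ^ d := by
  have h := (PiLp.volume_preserving_toLp (Fin d)).measure_preimage
    (s := {x : EuclideanSpace ℝ (Fin d) | ∀ i, x i ∈ G}) ?_
  · rw [← h]
    have e : (WithLp.toLp 2) ⁻¹' {x : EuclideanSpace ℝ (Fin d) | ∀ i, x i ∈ G} =
        Set.univ.pi fun _ : Fin d => G := by
      ext y
      simp [Set.mem_pi]
    rw [e, volume_pi_pi]
    simp
  · apply MeasurableSet.nullMeasurableSet
    have : {x : EuclideanSpace ℝ (Fin d) | ∀ i, x i ∈ G} = ⋂ i, {x | x i ∈ G} := by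
      ext x; simp
    rw [this]
    apply MeasurableSet.iInter
    intro i
    have : Measurable fun x : EuclideanSpace ℝ (Fin d) => x i := by fun_prop
    exact this hG

end Prod

end Pool.Agent.Lib.MP_8f79a4_an
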