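import Mathlib

/-!
Rademacher averages, written as recursively defined averages over lists.
-/

namespace Pool.Agent.Lib.MP_8f79a4_an

/-- The average of `Φ (A + ∑ ± b)` over all choices of signs, `b` ranging over the list `l`. -/
noncomputable def Rad {V : Type*} [AddCommGroup V] : List V → (V → ℝ) → V → ℝ
  | [], Φ, A => Φ A
  | b :: l, Φ, A => (Rad l Φ (A + b) + Rad l Φ (A - b)) / 2

section Basic

variable {V : Type*} [AddCommGroup V]

@[simp] lemma Rad_nil (Φ : V → ℝ) (A : V) : Rad [] Φ A = Φ A := rfl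

@[simp] lemma Rad_cons (b : V) (l : List V) (Φ : V → ℝ) (A : V) :
    Rad (b :: l) Φ A = (Rad l Φ (A + b) + Rad l Φ (A - b)) / 2 := rfl

lemma Rad_append (l l' : List V) (Φ : V → ℝ) (A : V) :
    Rad (l ++ l') Φ A = Rad l (fun z => Rad l' Φ z) A := by
  induction l generalizing A with
  | nil => rfl
  | cons b l ih => simp only [List.cons_append, Rad_cons, ih]

lemma Rad_mono (l : List V) {Φ Ψ : V → ℝ} (h : ∀ z, Φ z ≤ Ψ z) (A : V) :
    Rad l Φ A ≤ Rad l Ψ A := by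
  induction l generalizing A with
  | nil => exact h A
  | cons b l ih =>
    simp only [Rad_cons]
    linarith [ih (A + b), ih (A - b)]

lemma Rad_add (l : List V) (Φ Ψ : V → ℝ) (A : V) :
    Rad l (fun z => Φ z + Ψ z) A = Rad l Φ A + Rad l Ψ A := by
  induction l generalizing A with
  | nil => rfl
  | cons b l ih => simp only [Rad_cons, ih]; ring

lemma Rad_smul (l : List V) (c : ℝ) (Φ : V → ℝ) (A : V) :
    Rad l (fun z => c * Φ z) A = c * Rad l Φ A := by
  induction l generalizing A with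
  | nil => rfl
  | cons b l ih => simp only [Rad_cons, ih]; ring

lemma Rad_const (l : List V) (c : ℝ) (A : V) : Rad l (fun _ => c) A = c := by
  induction l generalizing A with
  | nil => rfl
  | cons b l ih => simp only [Rad_cons, ih]; ring

lemma Rad_sum {ι : Type*} (s : Finset ι) (l : List V) (Φ : ι → V → ℝ) (A : V) :
    Rad l (fun z => ∑ i ∈ s, Φ i z) A = ∑ i ∈ s, Rad l (Φ i) A := by
  classical
  induction s using Finset.induction_on with
  | empty => simp only [Finset.sum_empty]; exact Rad_const l 0 A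
  | insert a s ha ih =>
    simp only [Finset.sum_insert ha]
    rw [Rad_add, ih]

lemma Rad_shift (l : List V) (Φ : V → ℝ) (A B : V) :
    Rad l (fun z => Φ (z + B)) A = Rad l Φ (A + B) := by
  induction l generalizing A with
  | nil => rfl
  | cons b l ih =>
    simp only [Rad_cons, ih]
    congr 2 <;> congr 1 <;> abel

/-- There is a choice of signs for which the value is at least the average. -/
lemma exists_ge_Rad (l : List V) (Φ : V → ℝ) (A : V) (P : V → Prop)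
    (hP : ∀ A, P A → ∀ b ∈ l, P (A + b) ∧ P (A - b)) (hA : P A) :
    ∃ z, P z ∧ Rad l Φ A ≤ Φ z := by
  induction l generalizing A with
  | nil => exact ⟨A, hA, le_rfl⟩
  | cons b l ih =>
    have hP' : ∀ A, P A → ∀ b ∈ l, P (A + b) ∧ P (A - b) := fun A hA b hb =>
      hP A hA b (List.mem_cons_of_mem _ hb)
    obtain ⟨h1, h2⟩ := hP A hA b List.mem_cons_self
    obtain ⟨z1, hz1, hz1'⟩ := ih (A + b) hP' h1
    obtain ⟨z2, hz2, hz2'⟩ := ih (A - b) hP' h2
    rw [Rad_cons]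
    by_cases h : Rad l Φ (A + b) ≤ Rad l Φ (A - b)
    · exact ⟨z2, hz2, by linarith⟩
    · exact ⟨z1, hz1, by linarith⟩

/-- Pushing forward along an additive map. -/
lemma Rad_map {W : Type*} [AddCommGroup W] (T : V →+ W) (l : List V) (Φ : W → ℝ) (A : V) :
    Rad l (fun z => Φ (T z)) A = Rad (l.map T) Φ (T A) := by
  induction l generalizing A with
  | nil => rfl
  | cons b l ih => simp only [List.map_cons, Rad_cons, ih, map_add, map_sub]

lemma Rad_neg (l : List V) {Φ : V → ℝ} (h : ∀ z, Φ (-z) = Φ z) (A : V) :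
    Rad l Φ (-A) = Rad l Φ A := by
  induction l generalizing A with
  | nil => exact h A
  | cons b l ih =>
    simp only [Rad_cons]
    have h1 : -A + b = -(A - b) := by abel
    have h2 : -A - b = -(A + b) := by abel
    rw [h1, h2, ih, ih, add_comm]

end Basic

section Complex

/-- The variance. -/
noncomputable def V (l : List ℂ) : ℝ := (l.map fun b => ‖b‖ ^ 2).sum

@[simp] lemma V_nil : V [] = 0 := rfl

@[simp] lemma V_cons (b : ℂ) (l : List ℂ) : V (b :: l) = ‖b‖ ^ 2 + V l := by simp [V]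

lemma V_append (l l' : List ℂ) : V (l ++ l') = V l + V l' := by simp [V]

lemma V_nonneg (l : List ℂ) : 0 ≤ V l := by
  induction l with
  | nil => exact le_rfl
  | cons b l ih => rw [V_cons]; positivity

lemma V_map_mul (c : ℂ) (l : List ℂ) : V (l.map fun b => c * b) = ‖c‖ ^ 2 * V l := by
  induction l with
  | nil => simp
  | cons b l ih => rw [List.map_cons, V_cons, V_cons, ih, norm_mul]; ring

lemma norm_sq_add_sub (A b : ℂ) : ‖A + b‖ ^ 2 + ‖A - b‖ ^ 2 = 2 * (‖A‖ ^ 2 + ‖b‖ ^ 2) := by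
  have := parallelogram_law_with_norm ℝ A b
  nlinarith [this]

/-- Second moment. -/
lemma Rad_sq (l : List ℂ) (A : ℂ) : Rad l (fun z => ‖z‖ ^ 2) A = ‖A‖ ^ 2 + V l := by
  induction l generalizing A with
  | nil => simp
  | cons b l ih =>
    rw [Rad_cons, ih, ih, V_cons]
    linarith [norm_sq_add_sub A b]

lemma norm_four_add_sub (A b : ℂ) :
    ‖A + b‖ ^ 4 + ‖A - b‖ ^ 4 ≤ 2 * (‖A‖ ^ 4 + 6 * ‖A‖ ^ 2 * ‖b‖ ^ 2 + ‖b‖ ^ 4) := by
  have h1 : ‖A + b‖ ^ 2 = ‖A‖ ^ 2 + ‖b‖ ^ 2 + 2 * (A * (starRingEnd ℂ) b).re := by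
    rw [← Complex.normSq_eq_norm_sq, ← Complex.normSq_eq_norm_sq, ← Complex.normSq_eq_norm_sq,
      Complex.normSq_add]
  have h2 : ‖A - b‖ ^ 2 = ‖A‖ ^ 2 + ‖b‖ ^ 2 - 2 * (A * (starRingEnd ℂ) b).re := by
    rw [← Complex.normSq_eq_norm_sq, ← Complex.normSq_eq_norm_sq, ← Complex.normSq_eq_norm_sq,
      Complex.normSq_sub]
  have h3 : ((A * (starRingEnd ℂ) b).re) ^ 2 ≤ ‖A‖ ^ 2 * ‖b‖ ^ 2 := by
    have : |(A * (starRingEnd ℂ) b).re| ≤ ‖A‖ * ‖b‖ := by
      refine (Complex.abs_re_le_norm _).trans ?_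
      rw [norm_mul, Complex.norm_conj]
    calc ((A * (starRingEnd ℂ) b).re) ^ 2 = |(A * (starRingEnd ℂ) b).re| ^ 2 := (sq_abs _).symm
      _ ≤ (‖A‖ * ‖b‖) ^ 2 := by gcongr
      _ = _ := by ring
  have e1 : ‖A + b‖ ^ 4 = (‖A + b‖ ^ 2) ^ 2 := by ring
  have e2 : ‖A - b‖ ^ 4 = (‖A - b‖ ^ 2) ^ 2 := by ring
  rw [e1, e2, h1, h2]
  nlinarith [h3]

/-- Fourth moment. -/
lemma Rad_four (l : List ℂ) (A : ℂ) :
    Rad l (fun z => ‖z‖ ^ 4) A ≤ ‖A‖ ^ 4 + 6 * ‖A‖ ^ 2 * V l + 3 * V l ^ 2 := by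
  induction l generalizing A with
  | nil => simp
  | cons b l ih =>
    rw [Rad_cons, V_cons]
    have h1 := ih (A + b)
    have h2 := ih (A - b)
    have h3 := norm_sq_add_sub A b
    have h4 := norm_four_add_sub A b
    have hV := V_nonneg l
    have hb : 0 ≤ ‖b‖ ^ 4 := by positivity
    nlinarith [mul_nonneg hV (sq_nonneg ‖b‖)]

/-- The truncated square function. -/
noncomputable def trunc (v : ℝ) (z : ℂ) : ℝ := min (‖z‖ ^ 2 / v) 1

lemma trunc_nonneg {v : ℝ} (hv : 0 < v) (z : ℂ) : 0 ≤ trunc v z := by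
  unfold trunc; positivity

lemma trunc_le_one (v : ℝ) (z : ℂ) : trunc v z ≤ 1 := min_le_right _ _

lemma trunc_neg (v : ℝ) (z : ℂ) : trunc v (-z) = trunc v z := by
  unfold trunc; rw [norm_neg]

/-- Anti-concentration for Rademacher sums. -/
lemma Rad_trunc_ge {v : ℝ} (hv : 0 < v) (l : List ℂ) (hl : v ≤ V l) (A : ℂ) :
    1 / 8 ≤ Rad l (trunc v) A := by
  have hV : 0 < V l := lt_of_lt_of_le hv hl
  -- symmetrisation
  have h1 : Rad l (fun z => trunc v (z + A)) 0 = Rad l (trunc v) A := by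
    rw [Rad_shift, zero_add]
  have h2 : Rad l (fun z => trunc v (z + -A)) 0 = Rad l (trunc v) A := by
    rw [Rad_shift, zero_add, Rad_neg l (trunc_neg v)]
  have h3 : ∀ z : ℂ, ‖z‖ ^ 2 / V l - ‖z‖ ^ 4 / (4 * V l ^ 2) ≤
      trunc v (z + A) + trunc v (z + -A) := by
    intro z
    set x : ℝ := ‖z‖ ^ 2 / V l with hx
    have hx0 : 0 ≤ x := by positivity
    have e1 : ‖z‖ ^ 4 / (4 * V l ^ 2) = x ^ 2 / 4 := by
      rw [hx]; field_simp
    rw [e1]
    have h4 : x - x ^ 2 / 4 ≤ min x 1 := by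
      apply le_min
      · nlinarith
      · nlinarith [sq_nonneg (x / 2 - 1)]
    refine h4.trans ?_
    have h5 := norm_sq_add_sub z A
    have h5' : ‖z‖ ^ 2 ≤ ‖z + A‖ ^ 2 + ‖z + -A‖ ^ 2 := by
      rw [← sub_eq_add_neg]; nlinarith [sq_nonneg ‖z‖, sq_nonneg ‖A‖]
    have h6 : x ≤ ‖z + A‖ ^ 2 / v + ‖z + -A‖ ^ 2 / v := by
      rw [← add_div]
      calc x ≤ ‖z‖ ^ 2 / v := by rw [hx]; gcongr
        _ ≤ _ := by gcongr
    unfold trunc
    have p1 : 0 ≤ ‖z + A‖ ^ 2 / v := by positivity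
    have p2 : 0 ≤ ‖z + -A‖ ^ 2 / v := by positivity
    rcases le_total (‖z + A‖ ^ 2 / v) 1 with c1 | c1
    · rcases le_total (‖z + -A‖ ^ 2 / v) 1 with c2 | c2
      · rw [min_eq_left c1, min_eq_left c2]
        exact (min_le_left _ _).trans h6
      · rw [min_eq_left c1, min_eq_right c2]
        exact (min_le_right _ _).trans (by linarith)
    · rw [min_eq_right c1]
      exact (min_le_right _ _).trans (by
        have : 0 ≤ min (‖z + -A‖ ^ 2 / v) 1 := le_min p2 zero_le_one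
        linarith)
  have h7 : Rad l (fun z => ‖z‖ ^ 2 / V l - ‖z‖ ^ 4 / (4 * V l ^ 2)) 0 ≤
      2 * Rad l (trunc v) A := by
    calc _ ≤ Rad l (fun z => trunc v (z + A) + trunc v (z + -A)) 0 := Rad_mono l h3 0
      _ = _ := by rw [Rad_add, h1, h2]; ring
  have h8 : Rad l (fun z => ‖z‖ ^ 2 / V l - ‖z‖ ^ 4 / (4 * V l ^ 2)) 0 =
      (V l)⁻¹ * Rad l (fun z => ‖z‖ ^ 2) 0 + (-(4 * V l ^ 2)⁻¹) * Rad l (fun z => ‖z‖ ^ 4) 0 := by
    rw [← Rad_smul, ← Rad_smul, ← Rad_add]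
    congr 1
    funext z
    ring
  rw [h8, Rad_sq] at h7
  have h9 := Rad_four l 0
  simp only [norm_zero] at h7 h9
  have h10 : (4 * V l ^ 2)⁻¹ * Rad l (fun z => ‖z‖ ^ 4) 0 ≤ 3 / 4 := by
    calc _ ≤ (4 * V l ^ 2)⁻¹ * (3 * V l ^ 2) := by
          gcongr
          refine h9.trans (le_of_eq ?_)
          ring
      _ = 3 / 4 := by field_simp
  have h11 : (V l)⁻¹ * (0 ^ 2 + V l) = 1 := by field_simp; ring
  rw [h11] at h7
  linarith

end Complex

end Pool.Agent.Lib.MP_8f79a4_an
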