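import Pool.Agent.Lib.MP_8f79a4_an.Mix

/-!
Selection of a good outcome.
-/

open MeasureTheory Set
open scoped ENNReal

namespace Pool.Agent.Lib.MP_8f79a4_an

/-- If the sum of `N` numbers, each at most one, is at least `N / 8` then many are at least
`1 / 16`. -/
lemma exists_many {N : ℕ} (av : ℕ → ℝ) (h1 : ∀ k ∈ Finset.range N, av k ≤ 1)
    (h8 : (N : ℝ) / 8 ≤ ∑ k ∈ Finset.range N, av k) :
    ∃ K : Finset ℕ, K ⊆ Finset.range N ∧ (N : ℝ) ≤ 16 * K.card ∧ ∀ k ∈ K, 1 / 16 ≤ av k := by
  classical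
  refine ⟨(Finset.range N).filter fun k => 1 / 16 ≤ av k, Finset.filter_subset _ _, ?_, ?_⟩
  · have h2 : ∑ k ∈ Finset.range N, av k ≤ ∑ k ∈ Finset.range N,
        ((if 1 / 16 ≤ av k then 1 else 0) + 1 / 16) := by
      refine Finset.sum_le_sum fun k hk => ?_
      split_ifs with h
      · linarith [h1 k hk]
      · push Not at h; linarith
    rw [Finset.sum_add_distrib, Finset.sum_const, Finset.card_range, nsmul_eq_mul,
      Finset.sum_boole] at h2
    linarith
  · intro k hk
    exact (Finset.mem_filter.1 hk).2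

/-- A function between zero and one with large average is large on a big set. -/
lemma measure_large {X : Type*} [MeasurableSpace X] {μ : Measure X} {B : Set X}
    (hB : MeasurableSet B) (hBf : μ B ≠ ∞) {F : X → ℝ} (hF : Measurable F) (h0 : ∀ x, 0 ≤ F x)
    (h1 : ∀ x, F x ≤ 1) (hav : 1 / 16 * μ.real B ≤ ∫ x in B, F x ∂μ) :
    1 / 32 * μ.real B ≤ μ.real {x | x ∈ B ∧ 1 / 32 ≤ F x} := by
  classical
  set G : Set X := {x | x ∈ B ∧ 1 / 32 ≤ F x} with hG
  have hGm : MeasurableSet G := hB.inter (measurableSet_le measurable_const hF)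
  have hint : IntegrableOn (fun _ : X => (1 : ℝ) / 32) B μ := integrableOn_const hBf
  have hint1 : IntegrableOn (fun _ : X => (1 : ℝ)) B μ := integrableOn_const hBf
  have hind : IntegrableOn (G.indicator fun _ => (1 : ℝ)) B μ := hint1.indicator hGm
  have hFi : IntegrableOn F B μ := by
    refine Integrable.mono' hint1 hF.aestronglyMeasurable (Filter.Eventually.of_forall fun x => ?_)
    rw [Real.norm_eq_abs, abs_of_nonneg (h0 x)]
    exact h1 x
  have h2 : ∫ x in B, F x ∂μ ≤ ∫ x in B, (G.indicator (fun _ => (1 : ℝ)) x + 1 / 32) ∂μ := by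
    apply setIntegral_mono_on hFi (hind.add hint) hB
    intro x hx
    change F x ≤ G.indicator (fun _ => (1 : ℝ)) x + 1 / 32
    by_cases hxG : x ∈ G
    · rw [indicator_of_mem hxG]
      linarith [h1 x]
    · rw [indicator_of_notMem hxG]
      have : F x < 1 / 32 := by
        by_contra hcon
        push Not at hcon
        exact hxG ⟨hx, hcon⟩
      linarith
  rw [integral_add hind hint, setIntegral_const, setIntegral_indicator hGm, setIntegral_const] at h2
  have h3 : B ∩ G = G := inter_eq_right.2 fun x hx => hx.1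
  rw [h3, smul_eq_mul, smul_eq_mul, mul_one] at h2
  linarith

lemma continuous_ft (μ : Measure ℝ) [IsFiniteMeasure μ] : Continuous (ft μ) := by
  unfold ft
  apply continuous_of_dominated (bound := fun _ => 1)
  · intro ξ
    exact (integrable_ex μ (by fun_prop)).aestronglyMeasurable
  · intro ξ
    exact Filter.Eventually.of_forall fun x => (norm_ex _).le
  · exact integrable_const _
  · refine Filter.Eventually.of_forall fun x => ?_
    exact continuous_ex.comp (by fun_prop)

lemma measurable_trunc (v : ℝ) : Measurable (trunc v) := by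
  unfold trunc
  fun_prop

section

variable {b r a η : ℝ}

/-- The frequency window of stage `k`. -/
noncomputable def Box (r : ℝ) (k : ℕ) : Set ℝ := Icc ((r ^ (k + 1))⁻¹ / 32) ((r ^ (k + 1))⁻¹ / 16)

lemma volume_Box (hr : 0 < r) (k : ℕ) : volume.real (Box r k) = (r ^ (k + 1))⁻¹ / 32 := by
  unfold Box
  rw [Real.volume_real_Icc_of_le]
  · ring
  · gcongr; norm_num

lemma volume_Box_ne_top (k : ℕ) : volume (Box r k) ≠ ∞ := by
  unfold Box
  rw [Real.volume_Icc]
  exact ENNReal.ofReal_ne_top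

lemma measurableSet_Box (k : ℕ) : MeasurableSet (Box r k) := measurableSet_Icc

/-- Choice of a good outcome. -/
theorem exists_good (h : Par b r a η) (N : ℕ) : ∃ ω : Om N, ∃ K : Finset ℕ,
    K ⊆ Finset.range N ∧ (N : ℝ) ≤ 16 * K.card ∧ ∀ k ∈ K,
      (r ^ (k + 1))⁻¹ / 1024 ≤
        volume.real {ξ | ξ ∈ Box r k ∧ v1 r η / 2 ^ k / 32 ≤ ‖ft (mu r a η N ω) ξ‖ ^ 2} := by
  have hr := h.r_pos
  have hv := v1_pos h
  set av : ℕ → Om N → ℝ := fun k ω =>
    (volume.real (Box r k))⁻¹ * ∫ ξ in Box r k, trunc (v1 r η / 2 ^ k) (ft (mu r a η N ω) ξ)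
    with hav
  have hpos : ∀ k, 0 < volume.real (Box r k) := fun k => by
    rw [volume_Box hr]; positivity
  have hmeas : ∀ k ω, Measurable fun ξ => trunc (v1 r η / 2 ^ k) (ft (mu r a η N ω) ξ) :=
    fun k ω => (measurable_trunc _).comp (continuous_ft _).measurable
  have hvk : ∀ k : ℕ, 0 < v1 r η / 2 ^ k := fun k => by positivity
  have hint : ∀ k ω, IntegrableOn (fun ξ => trunc (v1 r η / 2 ^ k) (ft (mu r a η N ω) ξ))
      (Box r k) := by
    intro k ω
    refine Integrable.mono' (integrableOn_const (C := (1 : ℝ)) (volume_Box_ne_top k))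
      (hmeas k ω).aestronglyMeasurable (Filter.Eventually.of_forall fun x => ?_)
    rw [Real.norm_eq_abs, abs_of_nonneg (trunc_nonneg (hvk k) _)]
    exact trunc_le_one _ _
  -- average over the outcomes
  have hEx : ∀ k ∈ Finset.range N, 1 / 8 ≤ Ex N (av k) := by
    intro k hk
    have hk' : k + 1 ≤ N := by have := Finset.mem_range.1 hk; omega
    have e1 : Ex N (av k) = (volume.real (Box r k))⁻¹ *
        ∫ ξ in Box r k, Ex N fun ω => trunc (v1 r η / 2 ^ k) (ft (mu r a η N ω) ξ) := by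
      unfold Ex
      rw [integral_const_mul, integral_finsetSum _ fun ω _ => hint k ω]
      simp only [hav]
      rw [← Finset.mul_sum]
      ring
    rw [e1]
    have h2 : ∫ ξ in Box r k, (1 / 8 : ℝ) ≤
        ∫ ξ in Box r k, Ex N fun ω => trunc (v1 r η / 2 ^ k) (ft (mu r a η N ω) ξ) := by
      apply setIntegral_mono_on (integrableOn_const (volume_Box_ne_top k)) _ measurableSet_Icc
      · intro ξ hξ
        obtain ⟨hξ1, hξ2⟩ := hξ
        apply InM_ft h k N hk' ξ _ _ (1 / 8) (trunc (v1 r η / 2 ^ k))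
        · intro l A hl
          exact Rad_trunc_ge (hvk k) l hl A
        · calc (1 : ℝ) / 32 = r ^ (k + 1) * ((r ^ (k + 1))⁻¹ / 32) := by field_simp
            _ ≤ _ := by gcongr
        · calc r ^ (k + 1) * ξ ≤ r ^ (k + 1) * ((r ^ (k + 1))⁻¹ / 16) := by gcongr
            _ = 1 / 16 := by field_simp
      · unfold Ex
        apply Integrable.const_mul
        exact integrable_finsetSum _ fun ω _ => hint k ω
    rw [setIntegral_const, smul_eq_mul] at h2
    calc (1 : ℝ) / 8 = (volume.real (Box r k))⁻¹ * (volume.real (Box r k) * (1 / 8)) := by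
          have := hpos k
          field_simp
      _ ≤ _ := by
          gcongr
  obtain ⟨ω, hω⟩ := exists_ge_Ex N fun ω => ∑ k ∈ Finset.range N, av k ω
  rw [Ex_sum] at hω
  have hsum : (N : ℝ) / 8 ≤ ∑ k ∈ Finset.range N, av k ω := by
    refine le_trans ?_ hω
    calc (N : ℝ) / 8 = ∑ _k ∈ Finset.range N, (1 / 8 : ℝ) := by
          rw [Finset.sum_const, Finset.card_range, nsmul_eq_mul]; ring
      _ ≤ _ := Finset.sum_le_sum hEx
  have hle1 : ∀ k ∈ Finset.range N, av k ω ≤ 1 := by
    intro k _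
    simp only [hav]
    rw [inv_mul_le_iff₀ (hpos k), mul_one]
    calc ∫ ξ in Box r k, trunc (v1 r η / 2 ^ k) (ft (mu r a η N ω) ξ)
        ≤ ∫ ξ in Box r k, (1 : ℝ) :=
          setIntegral_mono_on (hint k ω) (integrableOn_const (volume_Box_ne_top k))
            measurableSet_Icc fun ξ _ => trunc_le_one _ _
      _ = volume.real (Box r k) := by simp
  obtain ⟨K, hK1, hK2, hK3⟩ := exists_many (fun k => av k ω) hle1 hsum
  refine ⟨ω, K, hK1, hK2, fun k hk => ?_⟩
  have h3 := hK3 k hk
  simp only [hav] at h3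
  have h4 : 1 / 16 * volume.real (Box r k) ≤
      ∫ ξ in Box r k, trunc (v1 r η / 2 ^ k) (ft (mu r a η N ω) ξ) := by
    have := mul_le_mul_of_nonneg_left h3 (hpos k).le
    have hp := hpos k
    rw [← mul_assoc, mul_inv_cancel₀ hp.ne', one_mul] at this
    linarith
  have h5 := measure_large (measurableSet_Box (r := r) k) (volume_Box_ne_top k)
    (hmeas k ω) (fun ξ => trunc_nonneg (hvk k) _) (fun ξ => trunc_le_one _ _) h4
  rw [volume_Box hr] at h5
  have h6 : (r ^ (k + 1))⁻¹ / 1024 ≤ volume.real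
      {x | x ∈ Box r k ∧ 1 / 32 ≤ trunc (v1 r η / 2 ^ k) (ft (mu r a η N ω) x)} := by
    refine le_trans (le_of_eq ?_) h5
    ring
  refine h6.trans ?_
  apply measureReal_mono
  · rintro ξ ⟨hξ1, hξ2⟩
    refine ⟨hξ1, ?_⟩
    have h7 : 1 / 32 ≤ ‖ft (mu r a η N ω) ξ‖ ^ 2 / (v1 r η / 2 ^ k) :=
      hξ2.trans (min_le_left _ _)
    rw [le_div_iff₀ (hvk k)] at h7
    linarith
  · exact ne_top_of_le_ne_top (volume_Box_ne_top k) (measure_mono fun ξ hξ => hξ.1)

end

end Pool.Agent.Lib.MP_8f79a4_an
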