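import Pool.Agent.Lib.MP_8f79a4_an.Rad

/-!
A random family of Cantor type measures on the line.
-/

open MeasureTheory Set
open scoped ENNReal

namespace Pool.Agent.Lib.MP_8f79a4_an

/-- The character. -/
noncomputable def ex (x : ℝ) : ℂ := Complex.exp (((-2 * Real.pi * x : ℝ) : ℂ) * Complex.I)

lemma norm_ex (x : ℝ) : ‖ex x‖ = 1 := by
  unfold ex
  exact Complex.norm_exp_ofReal_mul_I _

lemma ex_add (x y : ℝ) : ex (x + y) = ex x * ex y := by
  unfold ex
  rw [← Complex.exp_add]
  congr 1
  push_cast
  ring

lemma ex_zero : ex 0 = 1 := by simp [ex]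

lemma continuous_ex : Continuous ex := by
  unfold ex
  fun_prop

lemma norm_ex_sub_one_le (x : ℝ) : ‖ex x - 1‖ ≤ 2 * Real.pi * |x| := by
  unfold ex
  have h := Real.norm_exp_I_mul_ofReal_sub_one_le (x := -2 * Real.pi * x)
  rw [mul_comm Complex.I] at h
  refine h.trans (le_of_eq ?_)
  rw [Real.norm_eq_abs, abs_mul, abs_mul, abs_neg, abs_of_pos Real.pi_pos]
  norm_num

/-- Combination of two measures. -/
noncomputable def comb (r c : ℝ) (μ₀ μ₁ : Measure ℝ) : Measure ℝ :=
  (2⁻¹ : ℝ≥0∞) • (μ₀.map fun y => r * y) + (2⁻¹ : ℝ≥0∞) • (μ₁.map fun y => c + r * y)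

/-- Labelled binary trees of depth `N`. -/
def Om : ℕ → Type
  | 0 => PUnit
  | N + 1 => Bool × Om N × Om N

noncomputable instance omFintype : (N : ℕ) → Fintype (Om N)
  | 0 => inferInstanceAs (Fintype PUnit)
  | N + 1 =>
    haveI := omFintype N
    inferInstanceAs (Fintype (Bool × Om N × Om N))

instance omNonempty : (N : ℕ) → Nonempty (Om N)
  | 0 => inferInstanceAs (Nonempty PUnit)
  | N + 1 =>
    haveI := omNonempty N
    inferInstanceAs (Nonempty (Bool × Om N × Om N))

/-- The measure attached to a labelled tree. -/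
noncomputable def mu (r a η : ℝ) : (N : ℕ) → Om N → Measure ℝ
  | 0, _ => volume.restrict (Icc 0 1)
  | N + 1, (s, ω₀, ω₁) => comb r (a + if s then η else 0) (mu r a η N ω₀) (mu r a η N ω₁)

section Meas

variable {r a η : ℝ}

lemma comb_apply (c : ℝ) (μ₀ μ₁ : Measure ℝ) {A : Set ℝ} (hA : MeasurableSet A) :
    comb r c μ₀ μ₁ A = 2⁻¹ * μ₀ ((fun y => r * y) ⁻¹' A) +
      2⁻¹ * μ₁ ((fun y => c + r * y) ⁻¹' A) := by
  unfold comb
  rw [Measure.add_apply, Measure.smul_apply, Measure.smul_apply,
    Measure.map_apply (by fun_prop) hA, Measure.map_apply (by fun_prop) hA]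
  rfl

lemma mu_univ (N : ℕ) (ω : Om N) : mu r a η N ω univ = 1 := by
  induction N with
  | zero => simp [mu]
  | succ N ih =>
    obtain ⟨s, ω₀, ω₁⟩ := ω
    simp only [mu]
    rw [comb_apply _ _ _ MeasurableSet.univ]
    simp only [preimage_univ]
    rw [ih, ih, mul_one]
    exact ENNReal.inv_two_add_inv_two

instance (N : ℕ) (ω : Om N) : IsProbabilityMeasure (mu r a η N ω) := ⟨mu_univ N ω⟩

/-- The hypotheses on the parameters. -/
structure Par (b r a η : ℝ) : Prop where
  b_pos : 0 < b
  b_le : b ≤ 1
  r_pos : 0 < r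
  η_pos : 0 < η
  η_le : η ≤ r
  r_lt : r < a
  le_one : a + η + r ≤ 1
  r_pow : r ^ b = 1 / 2

variable {b : ℝ}

lemma mu_supp (h : Par b r a η) (N : ℕ) (ω : Om N) : mu r a η N ω (Icc 0 1)ᶜ = 0 := by
  have h1 := h.r_pos
  have h2 := h.η_pos
  have h3 := h.r_lt
  have h4 := h.le_one
  induction N with
  | zero => simp [mu]
  | succ N ih =>
    obtain ⟨s, ω₀, ω₁⟩ := ω
    simp only [mu]
    rw [comb_apply _ _ _ measurableSet_Icc.compl]
    have e0 : mu r a η N ω₀ ((fun y => r * y) ⁻¹' (Icc 0 1)ᶜ) = 0 := by
      refine measure_mono_null ?_ (ih ω₀)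
      intro y hy hy'
      apply hy
      obtain ⟨y0, y1⟩ := hy'
      constructor
      · positivity
      · nlinarith
    have e1 : mu r a η N ω₁ ((fun y => (a + if s then η else 0) + r * y) ⁻¹' (Icc 0 1)ᶜ) = 0 := by
      refine measure_mono_null ?_ (ih ω₁)
      intro y hy hy'
      apply hy
      obtain ⟨y0, y1⟩ := hy'
      have hs : 0 ≤ (if s then η else 0) ∧ (if s then η else 0) ≤ η := by
        split_ifs <;> constructor <;> linarith
      constructor
      · have : 0 ≤ r * y := by positivity
        change 0 ≤ (a + if s then η else 0) + r * y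
        linarith [hs.1]
      · change (a + if s then η else 0) + r * y ≤ 1
        nlinarith [hs.2]
    rw [e0, e1]
    simp

/-- The growth condition. -/
lemma mu_growth (h : Par b r a η) (N : ℕ) (ω : Om N) (x R : ℝ) (hR : 0 ≤ R) :
    mu r a η N ω (Icc x (x + R)) ≤ ENNReal.ofReal ((R / (a - r)) ^ b) := by
  have h1 := h.r_pos
  have h2 := h.η_pos
  have h3 := h.r_lt
  have h4 := h.le_one
  have hg : 0 < a - r := by linarith
  have hg1 : a - r ≤ 1 := by linarith
  -- the trivial bound
  have triv : ∀ (N : ℕ) (ω : Om N) (x R : ℝ), a - r ≤ R →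
      mu r a η N ω (Icc x (x + R)) ≤ ENNReal.ofReal ((R / (a - r)) ^ b) := by
    intro N ω x R hR
    calc mu r a η N ω (Icc x (x + R)) ≤ 1 := prob_le_one
      _ = ENNReal.ofReal 1 := by simp
      _ ≤ _ := by
        apply ENNReal.ofReal_le_ofReal
        apply Real.one_le_rpow _ h.b_pos.le
        rw [one_le_div hg]
        exact hR
  induction N generalizing x R with
  | zero =>
    by_cases hR1 : a - r ≤ R
    · exact triv 0 ω x R hR1
    · push Not at hR1
      have hR1' : R ≤ 1 := by linarith
      simp only [mu]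
      calc volume.restrict (Icc 0 1) (Icc x (x + R)) ≤ volume (Icc x (x + R)) :=
            Measure.restrict_apply_le _ _
        _ = ENNReal.ofReal R := by rw [Real.volume_Icc]; congr 1; ring
        _ ≤ _ := by
          apply ENNReal.ofReal_le_ofReal
          rcases hR.eq_or_lt with h0 | h0
          · rw [← h0, zero_div, Real.zero_rpow h.b_pos.ne']
          · calc R = R ^ (1 : ℝ) := (Real.rpow_one R).symm
              _ ≤ R ^ b := Real.rpow_le_rpow_of_exponent_ge h0 hR1' h.b_le
              _ ≤ (R / (a - r)) ^ b := by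
                apply Real.rpow_le_rpow hR _ h.b_pos.le
                rw [le_div_iff₀ hg]
                nlinarith
  | succ N ih =>
    by_cases hR1 : a - r ≤ R
    · exact triv (N + 1) ω x R hR1
    · push Not at hR1
      obtain ⟨s, ω₀, ω₁⟩ := ω
      simp only [mu]
      rw [comb_apply _ _ _ measurableSet_Icc]
      have hs : 0 ≤ (if s then η else 0) := by split_ifs <;> linarith
      have key : ∀ (ω : Om N) (c : ℝ), (2⁻¹ : ℝ≥0∞) *
          mu r a η N ω ((fun y => c + r * y) ⁻¹' (Icc x (x + R))) ≤
          ENNReal.ofReal ((R / (a - r)) ^ b) := by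
        intro ω c
        have e : (fun y => c + r * y) ⁻¹' (Icc x (x + R)) =
            Icc ((x - c) / r) ((x - c) / r + R / r) := by
          ext y
          simp only [mem_preimage, mem_Icc]
          rw [← add_div, div_le_iff₀ h1, le_div_iff₀ h1]
          constructor
          · rintro ⟨h5, h6⟩; constructor <;> linarith
          · rintro ⟨h5, h6⟩; constructor <;> linarith
        rw [e]
        calc _ ≤ (2⁻¹ : ℝ≥0∞) * ENNReal.ofReal ((R / r / (a - r)) ^ b) := by
              gcongr
              exact ih ω _ _ (by positivity)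
          _ = ENNReal.ofReal ((1 / 2) * (R / r / (a - r)) ^ b) := by
              rw [ENNReal.ofReal_mul (by norm_num)]
              congr 1
              rw [one_div, ENNReal.ofReal_inv_of_pos (by norm_num)]
              simp
          _ = _ := by
              congr 1
              have e2 : R / r / (a - r) = (R / (a - r)) / r := by field_simp
              rw [e2, Real.div_rpow (by positivity) h1.le, h.r_pow]
              field_simp
      rcases le_or_gt x r with hx | hx
      · have e1 : mu r a η N ω₁
            ((fun y => (a + if s then η else 0) + r * y) ⁻¹' (Icc x (x + R))) = 0 := by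
          refine measure_mono_null ?_ (mu_supp h N ω₁)
          intro y hy hy'
          obtain ⟨_, hy2⟩ := hy
          have h5 : 0 ≤ r * y := mul_nonneg h1.le hy'.1
          change (a + if s then η else 0) + r * y ≤ x + R at hy2
          linarith
        rw [e1, mul_zero, add_zero]
        have := key ω₀ 0
        simpa using this
      · have e0 : mu r a η N ω₀ ((fun y => r * y) ⁻¹' (Icc x (x + R))) = 0 := by
          refine measure_mono_null ?_ (mu_supp h N ω₀)
          intro y hy hy'
          obtain ⟨hy1, _⟩ := hy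
          have h5 : r * y ≤ r := by nlinarith [hy'.2]
          change x ≤ r * y at hy1
          linarith
        rw [e0, mul_zero, zero_add]
        exact key ω₁ _

end Meas

end Pool.Agent.Lib.MP_8f79a4_an
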